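import Pool.Agent.Lib.MP_5c318e_ag.Si.IDefs
import Pool.Agent.Lib.MP_5c318e_ag.S.Loc

/-! The specialisation to a slice commutes with the derivations along the slice. -/

set_option autoImplicit false
set_option linter.unusedSectionVars false

namespace Pool.Agent.Lib.MP_5c318e_ag

open Set

namespace Si

variable {δ ν K M L : Type} [Fintype δ] [DecidableEq δ] [Fintype ν]
  [DecidableEq ν] [Field K] [Algebra ℂ K] [Field M] [Algebra ℂ M] [Algebra K M]
  [IsScalarTower ℂ K M] [Field L] [Algebra ℂ L]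

theorem Spc.der {X : Cht (δ ⊕ ν) M} {w0 : δ → ℂ} {φ : X.O →ₐ[ℂ] L} (h : Spc X w0 φ)
    {d : ν → Derivation ℂ L L} (hd : Dual ℂ (fun i => φ (X.z (Sum.inr i))) d) (k : ν) (a : X.O) :
    φ ⟨X.der (Sum.inr k) a, X.der_mem _ a a.2⟩ = d k (φ a) := by
  obtain ⟨pd, -, hu⟩ := exists_pd X.z X.et
  let D0 : X.O →ₗ[ℂ] X.O := ((X.der (Sum.inr k) : M →ₗ[ℂ] M).comp X.O.val.toLinearMap).codRestrict
    X.O.toSubmodule fun a => X.der_mem _ a a.2
  have h1 := hu L φ (φ.toLinearMap.comp D0) (fun a b => by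
    have : D0 (a * b) = a * D0 b + b * D0 a := Subtype.ext ((X.der (Sum.inr k)).leibniz a b)
    simp [this]) a
  have h2 := hu L φ ((d k : L →ₗ[ℂ] L).comp φ.toLinearMap) (fun a b => by simp) a
  refine h1.trans ((Finset.sum_congr rfl fun i _ => ?_).trans h2.symm)
  congr 1
  change φ (D0 (X.z i)) = d k (φ (X.z i))
  have : D0 (X.z i) = if Sum.inr k = i then 1 else 0 := Subtype.ext (by
    change X.der (Sum.inr k) (X.z i) = _
    rw [X.der_z]
    split_ifs <;> rfl)
  rw [this]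
  rcases i with i | i
  · rw [h.base, Derivation.map_algebraMap, if_neg Sum.inr_ne_inl, map_zero]
  · rw [hd.dual]
    simp only [Sum.inr.injEq]
    split_ifs <;> simp

/-- the vertical derivations kill the base field -/
theorem der_base {X : Cht (δ ⊕ ν) M} {y : δ → K} (hy : IsTranscendenceBasis ℂ y)
    (hz : ∀ i, (X.z (Sum.inl i) : M) = algebraMap K M (y i)) (k : ν) (c : K) :
    X.der (Sum.inr k) (algebraMap K M c) = 0 :=
  DFunLike.congr_fun (der_ext_basis hy ((X.der (Sum.inr k)).compAlgebraMap K) 0 fun j => by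
    change X.der (Sum.inr k) (algebraMap K M (y j)) = 0
    rw [← hz, X.der_z, if_neg Sum.inr_ne_inl]) c

theorem indep_base {ι : Type} [Fintype ι] [DecidableEq ι] (E : ι → Derivation ℂ M M)
    (hE : ∀ j (c : K), E j (algebraMap K M c) = 0) {b : ι → M} (hb : Jac E b ≠ 0) :
    AlgebraicIndependent K b := by
  have : CharZero M := charZero_of_injective_algebraMap (algebraMap ℂ M).injective
  exact indep_kR_iff.1 (indep_of_jac (k0 := kR K M) E (by
    rintro j _ ⟨c, rfl⟩
    exact hE j c) hb)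

/-- the fibre coordinates are a transcendence basis over the base field -/
theorem basis_fib {X : Cht (δ ⊕ ν) M} {y : δ → K} (hy : IsTranscendenceBasis ℂ y)
    (hz : ∀ i, (X.z (Sum.inl i) : M) = algebraMap K M (y i)) :
    IsTranscendenceBasis K fun i => (X.z (Sum.inr i) : M) := by
  have h3 : AlgebraicIndependent K fun i => (X.z (Sum.inr i) : M) :=
    indep_base (fun k => X.der (Sum.inr k)) (der_base hy hz) (by
      rw [jac_self fun j a => by rw [X.der_z]; simp only [Sum.inr.injEq, eq_comm]]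
      exact one_ne_zero)
  rw [h3.isTranscendenceBasis_iff_isAlgebraic]
  refine ⟨fun φ => ?_⟩
  have h4 : ∀ a ∈ Algebra.adjoin ℂ (range fun i => (X.z i : M)),
      a ∈ Algebra.adjoin K (range fun i => (X.z (Sum.inr i) : M)) := fun a ha => by
    refine Algebra.adjoin_induction ?_ (fun y => ?_) (fun _ _ _ _ => add_mem)
      (fun _ _ _ _ => mul_mem) ha
    · rintro _ ⟨i | i, rfl⟩
      · beta_reduce
        rw [hz]
        exact Subalgebra.algebraMap_mem _ _
      · exact Algebra.subset_adjoin ⟨i, rfl⟩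
    · rw [IsScalarTower.algebraMap_apply ℂ K M]
      exact Subalgebra.algebraMap_mem _ _
  let g : Algebra.adjoin ℂ (range fun i => (X.z i : M)) →+*
      Algebra.adjoin K (range fun i => (X.z (Sum.inr i) : M)) :=
    (Algebra.adjoin ℂ (range fun i => (X.z i : M))).val.toRingHom.codRestrict _ fun a => h4 a a.2
  exact (X.basis.isAlgebraic.isAlgebraic φ).ringHom_of_comp_eq g (RingHom.id M)
    (fun a b e => Subtype.ext (show (g a : M) = g b from congrArg Subtype.val e))
    (RingHom.ext fun _ => rfl)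

/-- the graph of `φ` on the local ring of its kernel -/
def grf {A : Subalgebra ℂ M} (φ : A →ₐ[ℂ] L) : Subring (M × L) where
  carrier := {p | ∃ a s : A, φ s ≠ 0 ∧ p.1 * s = a ∧ φ a = p.2 * φ s}
  mul_mem' := by
    rintro p q ⟨a, s, h0, h1, h2⟩ ⟨b, t, k0, k1, k2⟩
    refine ⟨a * b, s * t, by rw [map_mul]; exact mul_ne_zero h0 k0, ?_, ?_⟩
    · push_cast
      rw [← h1, ← k1, Prod.fst_mul]
      ring
    · rw [map_mul, map_mul, h2, k2, Prod.snd_mul]
      ring
  one_mem' := ⟨1, 1, by simp, by simp, by simp⟩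
  add_mem' := by
    rintro p q ⟨a, s, h0, h1, h2⟩ ⟨b, t, k0, k1, k2⟩
    refine ⟨a * t + b * s, s * t, by rw [map_mul]; exact mul_ne_zero h0 k0, ?_, ?_⟩
    · push_cast
      rw [← h1, ← k1, Prod.fst_add]
      ring
    · rw [map_add, map_mul, map_mul, map_mul, h2, k2, Prod.snd_add]
      ring
  zero_mem' := ⟨0, 1, by simp, by simp, by simp⟩
  neg_mem' := by
    rintro p ⟨a, s, h0, h1, h2⟩
    exact ⟨-a, s, h0, by simp [← h1], by simp [h2]⟩

theorem grf_zero {A : Subalgebra ℂ M} {φ : A →ₐ[ℂ] L} {p : M × L} (h : p ∈ grf φ) (h0 : p.1 = 0) :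
    p.2 = 0 := by
  obtain ⟨a, s, hs, h1, h2⟩ := h
  rw [h0, zero_mul] at h1
  rw [show a = 0 from Subtype.ext h1.symm, map_zero] at h2
  exact (mul_eq_zero.1 h2.symm).resolve_right hs

theorem grf_div {A : Subalgebra ℂ M} {φ : A →ₐ[ℂ] L} {a s : A} {v : L} (hs : φ s ≠ 0)
    (h : φ a = v * φ s) : ((a : M) / s, v) ∈ grf φ :=
  ⟨a, s, hs, div_mul_cancel₀ _ fun e => hs (by rw [show s = 0 from Subtype.ext e, map_zero]), h⟩

theorem Spc.grf_der {X : Cht (δ ⊕ ν) M} {w0 : δ → ℂ} {φ : X.O →ₐ[ℂ] L} (h : Spc X w0 φ)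
    {d : ν → Derivation ℂ L L} (hd : Dual ℂ (fun i => φ (X.z (Sum.inr i))) d) (k : ν)
    {w : M} {v : L} (H : (w, v) ∈ grf φ) : (X.der (Sum.inr k) w, d k v) ∈ grf φ := by
  obtain ⟨a, s, h0, h1, h2⟩ := H
  refine ⟨s * ⟨X.der (Sum.inr k) a, X.der_mem _ a a.2⟩ - a * ⟨X.der (Sum.inr k) s, X.der_mem _ s s.2⟩,
    s * s, by rw [map_mul]; exact mul_ne_zero h0 h0, ?_, ?_⟩
  · push_cast
    rw [← h1, Derivation.leibniz, smul_eq_mul, smul_eq_mul]
    ring
  · rw [map_sub, map_mul, map_mul, map_mul, h.der hd, h.der hd, h2, Derivation.leibniz,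
      smul_eq_mul, smul_eq_mul]
    ring

theorem Spc.indep {X : Cht (δ ⊕ ν) M} {w0 : δ → ℂ} {φ : X.O →ₐ[ℂ] L} (h : Spc X w0 φ)
    {y : δ → K} (hy : IsTranscendenceBasis ℂ y)
    (hz : ∀ i, (X.z (Sum.inl i) : M) = algebraMap K M (y i)) {n : ℕ} {v : Fin n → L}
    (hv : AlgebraicIndependent ℂ v) {a s : Fin n → X.O} (hs : ∀ i, φ (s i) ≠ 0)
    (ha : ∀ i, φ (a i) = v i * φ (s i)) : AlgebraicIndependent K fun i => (a i : M) / s i := by
  obtain ⟨d, hd⟩ := Dual.exists h.basis
  obtain ⟨e, he⟩ := der_dual_exists hv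
  have hc : ∀ j k, ∃ c : M, (c, e j (φ (X.z (Sum.inr k)))) ∈ grf φ := fun j k => by
    obtain ⟨a, s, h0, h1⟩ := h.frac (e j (φ (X.z (Sum.inr k))))
    exact ⟨_, grf_div h0 h1⟩
  choose c hc using hc
  have e1 : ∀ j, e j = ∑ k, e j (φ (X.z (Sum.inr k))) • d k := fun j =>
    der_ext_basis h.basis _ _ fun l => by
      simp only [der_sum_apply, Derivation.smul_apply, hd.dual, smul_eq_mul, mul_ite,
        mul_one, mul_zero, Finset.sum_ite_eq', Finset.mem_univ, if_true]
  refine indep_base (fun j => ∑ k, c j k • X.der (Sum.inr k)) (fun j r => ?_) fun h0 => ?_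
  · simp only [der_sum_apply, Derivation.smul_apply, der_base hy hz, smul_zero,
      Finset.sum_const_zero]
  · have hN : ∀ i j, ((∑ k, c j k • X.der (Sum.inr k)) ((a i : M) / s i), e j (v i)) ∈ grf φ := by
      intro i j
      have := sum_mem (S := grf φ) (t := Finset.univ) fun k _ =>
        mul_mem (hc j k) (h.grf_der hd k (grf_div (hs i) (ha i)))
      convert this using 1
      refine Prod.ext ?_ ?_
      · simp only [der_sum_apply, Derivation.smul_apply, smul_eq_mul, Prod.fst_sum,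
          Prod.fst_mul]
      · conv_lhs => rw [e1 j]
        simp only [der_sum_apply, Derivation.smul_apply, smul_eq_mul, Prod.snd_sum,
          Prod.snd_mul]
    let N : Matrix (Fin n) (Fin n) (grf φ) := Matrix.of fun i j => ⟨_, hN i j⟩
    have p1 := ((RingHom.fst M L).comp (grf φ).subtype).map_det N
    have p2 := ((RingHom.snd M L).comp (grf φ).subtype).map_det N
    have q2 : Jac e v = 0 := p2.symm.trans (grf_zero N.det.2 (p1.trans h0))
    rw [jac_self he] at q2
    exact one_ne_zero q2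

end Si

end Pool.Agent.Lib.MP_5c318e_ag
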