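import Pool.Agent.Lib.MP_5c318e_ag.Si.IDefs
import Pool.Agent.Lib.MP_5c318e_ag.S.LocA

/-! The slice through a specialisation: localisation and integrals. -/

set_option autoImplicit false
set_option linter.unusedSectionVars false

namespace Pool.Agent.Lib.MP_5c318e_ag

open MeasureTheory Set Filter Topology
open scoped ENNReal

namespace Si

/-- an unramified prime is locally generated by the prime below -/
theorem unram_gen {R A : Type} [CommRing R] [CommRing A] [Algebra R A] [IsNoetherianRing A]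
    [Algebra.FormallyUnramified R A] [Algebra.EssFiniteType R A] (p : Ideal A) [p.IsPrime] :
    ∃ t, t ∉ p ∧ ∀ u ∈ p, t * u ∈ (p.under R).map (algebraMap R A) := by
  let := Localization.AtPrime.algebraOfLiesOver (p.under R) p
  have h2 := ((Algebra.isUnramifiedAt_iff_map_eq R (p.under R) p).1 inferInstance).2
  have h3 : ∀ u ∈ p, ∃ t, t ∉ p ∧ t * u ∈ (p.under R).map (algebraMap R A) := fun u hu => by
    have h4 : algebraMap A (Localization.AtPrime p) u ∈
        ((p.under R).map (algebraMap R A)).map (algebraMap A (Localization.AtPrime p)) := by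
      rw [Ideal.map_map, ← IsScalarTower.algebraMap_eq, h2]
      exact (IsLocalization.AtPrime.to_map_mem_maximal_iff _ p u).2 hu
    exact (IsLocalization.algebraMap_mem_map_algebraMap_iff p.primeCompl _ _ u).1 h4
  classical
  obtain ⟨s, hs⟩ := IsNoetherian.noetherian p
  choose! t ht h5 using h3
  have hm : ∀ u ∈ s, u ∈ p := fun u hu => hs ▸ Submodule.subset_span hu
  refine ⟨∏ u ∈ s, t u, fun h => ?_, fun u hu => ?_⟩
  · obtain ⟨u, hu, h6⟩ := Ideal.IsPrime.prod_mem_iff.1 h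
    exact ht u (hm u hu) h6
  · rw [← hs] at hu
    induction hu using Submodule.span_induction with
    | mem u hu =>
      rw [← Finset.prod_erase_mul s t hu, mul_assoc]
      exact Ideal.mul_mem_left _ _ (h5 u (hm u hu))
    | zero => simp
    | add a b _ _ ha hb => rw [mul_add]; exact add_mem ha hb
    | smul c a _ ha => rw [smul_eq_mul, mul_left_comm]; exact Ideal.mul_mem_left _ _ ha

variable {δ ν M L : Type} [Fintype δ] [DecidableEq δ] [Fintype ν] [DecidableEq ν] [Field M]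
  [Algebra ℂ M] [Field L] [Algebra ℂ L]

theorem qd_eq_zero {S : Type} [TopologicalSpace S] [MeasurableSpace S] {D : RD (δ ⊕ ν) S}
    {w0 : δ → ℂ} {x : S} : qd D w0 x = 0 ↔ ∀ k, D.π x (Sum.inl k) = w0 k := by
  rw [qd, Finset.sum_eq_zero_iff_of_nonneg fun k _ => by positivity]
  simp [sub_eq_zero]

theorem dvd_poly {A : Subalgebra ℂ L} {x : ν → A} (hx : IsTranscendenceBasis ℂ fun i => (x i : L))
    {h : A} (h0 : h ≠ 0) :
    ∃ (g : MvPolynomial ν ℂ) (t : A), g ≠ 0 ∧ h * t = MvPolynomial.aeval x g := by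
  have ha := (hx.isAlgebraic.isAlgebraic (h : L))
  have hn : (h : L) ∈ nonZeroDivisors L :=
    mem_nonZeroDivisors_of_ne_zero fun e => h0 (Subtype.ext e)
  obtain ⟨t, ht, r, hr, e⟩ := ha.exists_nonzero_eq_adjoin_mul hn
  have hle : Algebra.adjoin ℂ (range fun i => (x i : L)) ≤ A :=
    Algebra.adjoin_le (by rintro _ ⟨i, rfl⟩; exact (x i).2)
  have htO : t ∈ A := by
    refine Algebra.adjoin_induction (fun y hy => ?_) (fun y => hle y.2)
      (fun _ _ _ _ => A.add_mem) (fun _ _ _ _ => A.mul_mem) ht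
    rw [mem_singleton_iff.1 hy]; exact h.2
  obtain ⟨g, hg⟩ := (Algebra.adjoin_range_eq_range_aeval ℂ fun i => (x i : L)).le r.2
  have hg' : MvPolynomial.aeval (fun i => (x i : L)) g = (r : L) := hg
  refine ⟨g, ⟨t, htO⟩, ?_, Subtype.ext ?_⟩
  · rintro rfl
    exact hr (Subtype.ext (by rw [← hg', map_zero]; rfl))
  · have := MvPolynomial.comp_aeval_apply (f := x) A.val g
    exact (e.trans hg'.symm).trans this.symm

variable {X : Cht (δ ⊕ ν) M} {w0 : δ → ℂ} {φ : X.O →ₐ[ℂ] L}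

/-- points of the slice kill the polynomials that `φ` kills -/
theorem Spc.poly (h : Spc X w0 φ) {r : MvPolynomial (δ ⊕ ν) ℂ}
    (hr : φ (MvPolynomial.aeval X.z r) = 0) {p : Pt X.O} (hp : qd X.D w0 p = 0) :
    p (MvPolynomial.aeval X.z r) = 0 := by
  let ψ : MvPolynomial (δ ⊕ ν) ℂ →ₐ[ℂ] MvPolynomial ν ℂ :=
    MvPolynomial.aeval (Sum.elim (fun i => MvPolynomial.C (w0 i)) MvPolynomial.X)
  have key : ∀ {T : Type} [CommRing T] [Algebra ℂ T] (f : X.O →ₐ[ℂ] T),
      (∀ i, f (X.z (Sum.inl i)) = algebraMap ℂ T (w0 i)) → f (MvPolynomial.aeval X.z r) =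
        MvPolynomial.aeval (fun i => f (X.z (Sum.inr i))) (ψ r) := by
    intro T _ _ f hf
    have : f.comp (MvPolynomial.aeval X.z) =
        (MvPolynomial.aeval fun i => f (X.z (Sum.inr i))).comp ψ :=
      MvPolynomial.algHom_ext fun k => by rcases k with k | k <;> simp [ψ, hf]
    exact AlgHom.congr_fun this r
  have h1 : ψ r = 0 := h.basis.1 (by rw [← key φ h.base, hr, map_zero])
  refine (key p.hom fun i => ?_).trans (by rw [h1, map_zero])
  exact (X.π_eq p _).symm.trans (qd_eq_zero.1 hp i)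

theorem Spc.exists_gen (h : Spc X w0 φ) : ∃ t : X.O, φ t ≠ 0 ∧
    ∀ p : Pt X.O, qd X.D w0 p = 0 → p t ≠ 0 → ∀ a, φ a = 0 → p a = 0 := by
  let P := MvPolynomial (δ ⊕ ν) ℂ
  let _ : Algebra P X.O := (MvPolynomial.aeval X.z : P →ₐ[ℂ] X.O).toRingHom.toAlgebra
  have : Algebra.Etale P X.O := X.et
  have : IsNoetherianRing X.O := Algebra.FiniteType.isNoetherianRing ℂ X.O
  have : (RingHom.ker φ).IsPrime := RingHom.ker_isPrime _
  obtain ⟨t, ht, h1⟩ := unram_gen (R := P) (RingHom.ker φ)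
  refine ⟨t, ht, fun p hp h0 a ha => ?_⟩
  have h2 : ((RingHom.ker φ).under P).map (algebraMap P X.O) ≤ RingHom.ker p :=
    Ideal.map_le_iff_le_comap.2 fun r hr => h.poly hr hp
  have h3 : p (t * a) = 0 := h2 (h1 a ha)
  rw [map_mul] at h3
  exact (mul_eq_zero.1 h3).resolve_left h0

theorem Spc.loc (h : Spc X w0 φ)
    (s : Finset L) : ∃ (X' : Cht (δ ⊕ ν) M) (g : X.O) (H : IsLoc X.O X'.O g) (φ' : X'.O →ₐ[ℂ] L),
      (∀ i, (X'.z i : M) = X.z i) ∧ φ g ≠ 0 ∧ (∀ a, φ' (H.j a) = φ a) ∧ Spc X' w0 φ' ∧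
      (∀ v ∈ s, ∃ a, φ' a = v) ∧ ∀ p, qd X'.D w0 p = 0 → ∀ a, φ' a = 0 → p a = 0 := by
  classical
  obtain ⟨t, ht, h1⟩ := h.exists_gen
  choose n d hd hn using h.frac
  have hg : φ (t * ∏ v ∈ s, d v) ≠ 0 := by
    rw [map_mul, map_prod]
    exact mul_ne_zero ht (Finset.prod_ne_zero_iff.2 fun v _ => hd v)
  obtain ⟨X', H, hz⟩ := X.exists_isLoc (h := t * ∏ v ∈ s, d v) fun e => hg (by rw [e, map_zero])
  let _ : Algebra X.O X'.O := (H.j : X.O →+* X'.O).toAlgebra
  have : IsScalarTower ℂ X.O X'.O := .of_algebraMap_eq fun c => (H.j.commutes c).symm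
  have : IsLocalization.Away (t * ∏ v ∈ s, d v) X'.O := IsLocalization.Away.mk _ H.unit
    (fun s => by
      obtain ⟨k, a, e⟩ := H.inl s s.2
      exact ⟨k, a, Subtype.ext e⟩)
    fun a b e => ⟨0, by rw [Subalgebra.inclusion_injective H.le e]⟩
  let φ' : X'.O →ₐ[ℂ] L := IsLocalization.liftAlgHom
    (M := Submonoid.powers (t * ∏ v ∈ s, d v)) (f := φ) fun ⟨_, k, hk⟩ => by
      subst hk
      exact Ne.isUnit (by rw [map_pow]; exact pow_ne_zero _ hg)
  have hφ : ∀ a, φ' (H.j a) = φ a := fun a => by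
    change φ' (algebraMap X.O X'.O a) = _
    simp [φ']
  have hz' : ∀ i, X'.z i = H.j (X.z i) := fun i => Subtype.ext (hz i)
  refine ⟨X', _, H, φ', hz, hg, hφ, ⟨fun i => by rw [hz', hφ, h.base],
    by simpa only [hz', hφ] using h.basis, fun v => ⟨H.j (n v), H.j (d v), by rw [hφ]; exact hd v,
      by rw [hφ, hφ, hn]⟩⟩, fun v hv => ?_, fun p hp a ha => ?_⟩
  · obtain ⟨u, hu⟩ := H.unit.exists_right_inv
    refine ⟨H.j (n v * (t * ∏ y ∈ s.erase v, d y)) * u, ?_⟩
    have e := congrArg φ' hu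
    rw [map_mul, hφ, map_one, ← Finset.mul_prod_erase s d hv] at e
    rw [map_mul, hφ, map_mul, hn]
    simp only [map_mul] at e ⊢
    linear_combination v * e
  · obtain ⟨k, b, e⟩ := H.inl a a.2
    have e' : a * H.j (t * ∏ v ∈ s, d v) ^ k = H.j b := Subtype.ext e
    have h2 := H.dn_ne p
    have h3 : φ b = 0 := by rw [← hφ, ← e', map_mul, ha, zero_mul]
    have h4 : p (H.j b) = 0 := h1 (p.res H.j)
      (qd_eq_zero.2 fun i => by rw [H.π_eq hz]; exact qd_eq_zero.1 hp i)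
      (by rw [map_mul] at h2; exact left_ne_zero_of_mul h2) b h3
    rw [← e', map_mul, map_pow] at h4
    exact (mul_eq_zero.1 h4).resolve_right (pow_ne_zero _ h2)

theorem Spc.frac' (h : Spc X w0 φ) (v : L) : ∃ a b : φ.range, b ≠ 0 ∧ v * b = a := by
  obtain ⟨a, s, hs, e⟩ := h.frac v
  exact ⟨φ.rangeRestrict a, φ.rangeRestrict s, fun e => hs (congrArg Subtype.val e), e.symm⟩

theorem Spc.fg (h : Spc X w0 φ) : (⊤ : IntermediateField ℂ L).FG := by
  have : Algebra.FiniteType ℂ φ.range := .of_surjective φ.rangeRestrict φ.rangeRestrict_surjective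
  obtain ⟨s, hs⟩ := (Subalgebra.fg_iff_finiteType φ.range).2 this
  refine ⟨s, top_le_iff.1 fun v _ => ?_⟩
  have hle : ∀ a ∈ φ.range, a ∈ IntermediateField.adjoin ℂ (s : Set L) := fun a ha =>
    IntermediateField.algebra_adjoin_le_adjoin ℂ _ (hs ▸ ha)
  obtain ⟨a, b, hb, e⟩ := h.frac' v
  have hb' : (b : L) ≠ 0 := fun e => hb (Subtype.ext e)
  rw [eq_div_of_mul_eq hb' e]
  exact div_mem (hle _ a.2) (hle _ b.2)

theorem Spc.sl_le (h : Spc X w0 φ)
    (hi : ∀ p, qd X.D w0 p = 0 → ∀ a, φ a = 0 → p a = 0) :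
    ∃ c : Cht ν L, (∀ i, (c.z i : L) = φ (X.z (Sum.inr i))) ∧
      ∀ (G : (X.O → ℂ) → ℝ≥0∞), Measurable G →
        sl X.D w0 (fun p => G p) ≤ ∫⁻ q, G (fun a => q.ev (φ a)) ∂c.D.μ := by
  obtain ⟨c, hc, -⟩ := exists_base h.fg h.basis ∅
  refine ⟨c, hc, fun G hG => ?_⟩
  have : Algebra.FiniteType ℂ φ.range := .of_surjective φ.rangeRestrict φ.rangeRestrict_surjective
  obtain ⟨τ⟩ := Tr.exists h.frac' c.frac
  obtain ⟨g, t, hg, e⟩ := dvd_poly (x := fun i => φ.rangeRestrict (X.z (Sum.inr i))) h.basis τ.ne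
  rw [c.D.lintegral_eq (F := fun q => G fun a => q.ev (φ a))
    (hG.comp (measurable_pi_lambda _ fun a => Pt.measurable_ev _))]
  refine lintegral_mono_ae ((RArea.null_poly hg).mono fun a ha => ?_)
  have h1 : ∀ p : X.D.π ⁻¹' {Sum.elim w0 a}, ∃ q : c.D.π ⁻¹' {a}, ∀ b, q.1.ev (φ b) = p.1 b := by
    rintro ⟨p, hp⟩
    have hp' : X.D.π p = Sum.elim w0 a := hp
    let p' : Pt φ.range := Pt.mk (φ.rangeRestrict.liftOfSurjective φ.rangeRestrict_surjective
      p.hom fun b hb => hi p (qd_eq_zero.2 fun k => by rw [hp']; rfl) b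
        (congrArg Subtype.val hb))
    have h2 : ∀ b, p' (φ.rangeRestrict b) = p b := fun b =>
      AlgHom.liftOfSurjective_apply _ _ _ _ b
    have h3 : ∀ i, p (X.z (Sum.inr i)) = a i := fun i => by rw [← X.π_eq, hp']; rfl
    have h4 : p' τ.h ≠ 0 := by
      have h5 := MvPolynomial.comp_aeval_apply (fun i => φ.rangeRestrict (X.z (Sum.inr i)))
        p'.hom g
      simp only [Pt.hom_apply, h2, h3, ← e, map_mul] at h5
      exact left_ne_zero_of_mul (h5 ▸ ha)
    have h6 : ∀ b, (τ.map p').ev (φ b) = p b := fun b => by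
      rw [← (τ.same p' h4).1.ev_eq, ← h2]
      exact p'.ev_coe (φ.rangeRestrict b)
    refine ⟨⟨τ.map p', funext fun i => ?_⟩, h6⟩
    rw [c.π_eq, ← Pt.ev_coe, hc, h6, h3]
  choose q hq using h1
  have h7 : Function.Injective q := fun p p' e =>
    Subtype.ext (Pt.ext fun b => by rw [← hq, ← hq, e])
  refine le_trans (le_of_eq (tsum_congr fun p => ?_))
    (ENNReal.tsum_comp_le_tsum_of_injective h7 fun y => G fun b => y.1.ev (φ b))
  exact congrArg G (funext fun b => (hq p b).symm)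

end Si

end Pool.Agent.Lib.MP_5c318e_ag
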