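import Pool.Agent.Lib.MP_5c318e_ag.Si.Hold
import Pool.Agent.Lib.MP_5c318e_ag.S.OAt
import Pool.Agent.Lib.MP_5c318e_ag.S.CAt
import Pool.Agent.Lib.MP_5c318e_ag.S.SatG

/-! The limit of the last extensions of a tower is a regular pluricanonical form. -/

set_option autoImplicit false
set_option linter.unusedSectionVars false

namespace Pool.Agent.Lib.MP_5c318e_ag

open MeasureTheory Set Filter Topology
open scoped ENNReal

namespace Si

theorem ex_low {m : ℕ} (hm : 0 < m) (k : ℕ) {B y : ℝ} (hB : 0 < B) (hy : 0 < y) {x : ℝ≥0∞}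
    (h : x ≤ ENNReal.ofReal (B ^ ((k + 1) * m) * y⁻¹)) :
    ENNReal.ofReal ((B ^ (m - 1))⁻¹ * y ^ (-ex m k)) ≤ x ^ ex m k := by
  have m1 : (1 : ℝ) ≤ m := by exact_mod_cast hm
  have c0 : (0 : ℝ) ≤ (m - 1) / (m * (k + 1)) := div_nonneg (by linarith) (by positivity)
  rw [ex, neg_neg, ENNReal.rpow_neg]
  refine le_trans (le_of_eq ?_) (ENNReal.inv_le_inv.2 (ENNReal.rpow_le_rpow h c0))
  rw [ENNReal.ofReal_rpow_of_pos (by positivity), ← ENNReal.ofReal_inv_of_pos (by positivity),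
    Real.mul_rpow (by positivity) (by positivity), Real.inv_rpow hy.le, mul_inv, inv_inv,
    ← Real.rpow_natCast B (_ * _), ← Real.rpow_mul hB.le, ← Real.rpow_natCast B (m - 1)]
  congr 4
  push_cast [Nat.cast_sub hm]
  field_simp

theorem ex_lim (m : ℕ) {y : ℝ} (hy : 0 < y) : Tendsto (fun k => y ^ (-ex m k)) atTop (𝓝 1) := by
  have h1 : Tendsto (fun k => -ex m k) atTop (𝓝 0) := by
    have := (tendsto_one_div_add_atTop_nhds_zero_nat (𝕜 := ℝ)).const_mul ((m - 1 : ℝ) / m)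
    rw [mul_zero] at this
    exact this.congr fun k => by rw [ex, neg_neg, div_mul_div_comm, mul_one]
  simpa [Function.comp_def] using ((Real.continuousAt_const_rpow hy.ne').tendsto).comp h1

variable {ι M : Type} [Fintype ι] [DecidableEq ι] [Field M] [Algebra ℂ M]

/-- a function that is square integrable near the divisor has no pole -/
theorem nopole {C : Cht ι M} {O : ValuationSubring M} {i0 : ι} (hC : C.At O i0) {φ : M}
    (hφ : φ ∈ locAway C.O (C.z i0)) (h : ∀ p0 : Pt C.O, ∃ (w : ℝ) (H : Pt C.O → ℝ≥0∞),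
      0 < w ∧ ∫⁻ p, H p ∂C.D.μ ≠ ⊤ ∧ ∃ U ∈ 𝓝 p0, ∀ᵐ p ∂C.D.μ, p ∈ U →
        ENNReal.ofReal (w * ‖p.ev φ‖ ^ 2) ≤ H p) : φ ∈ C.O := by
  obtain ⟨k, a, e⟩ := hφ
  have hz : (C.z i0 : M) ≠ 0 := hC.ad.ne
  by_cases ha : a = 0
  · rw [ha] at e
    rw [(mul_eq_zero.1 e).resolve_right (by push_cast; exact pow_ne_zero _ hz)]
    exact zero_mem _
  obtain ⟨n, b, hb, rfl⟩ := hC.exists_pow ha
  push_cast at e
  rcases le_or_gt k n with hk | hk
  · obtain ⟨l, rfl⟩ := Nat.exists_eq_add_of_le hk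
    rw [pow_add, mul_assoc, mul_comm] at e
    rw [mul_left_cancel₀ (pow_ne_zero k hz) e]
    exact mul_mem (pow_mem (C.z i0).2 l) b.2
  obtain ⟨l, rfl⟩ := Nat.exists_eq_add_of_lt hk
  rw [add_assoc, pow_add, mul_left_comm] at e
  have e1 : φ * (C.z i0 ^ (l + 1) : C.O) = b := mul_left_cancel₀ (pow_ne_zero n hz) e
  obtain ⟨p0, z0, b0⟩ := hC.exists_pt hb
  obtain ⟨w, H, w0, hH, U, hU, h⟩ := h p0
  have c1 : Continuous fun p : Pt C.O => w * ‖p b‖ ^ 2 :=
    continuous_const.mul ((Pt.continuous_apply b).norm.pow 2)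
  have c2 : Continuous fun p : Pt C.O => ‖p (C.z i0)‖ ^ 2 := (Pt.continuous_apply _).norm.pow 2
  have p1 : 0 < w * ‖p0 b‖ ^ 2 := by positivity
  refine (Sat.ni C.D (p0 := p0) (i0 := i0) (by rw [C.π_eq, z0]) hH.lt_top (half_pos p1)
    (inter_mem hU (inter_mem (c1.continuousAt.eventually (lt_mem_nhds (half_lt_self p1)))
      (c2.continuousAt.eventually (gt_mem_nhds (show _ < (1 : ℝ) by simp [z0]))))) ?_).elim
  filter_upwards [h, C.D.ae_of_gen (C.gen_ne hC.prime.ne_zero)] with p hp hz hU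
  refine le_trans (ENNReal.ofReal_le_ofReal ?_) (hp hU.1)
  have h3 : 0 < ‖p (C.z i0)‖ ^ 2 := by positivity
  rw [C.π_eq, p.ev_eq (by rw [map_pow]; exact pow_ne_zero _ hz) e1, map_pow, norm_div, norm_pow,
    div_pow, ← mul_div_assoc, pow_right_comm]
  refine div_le_div₀ (by positivity) (le_of_lt hU.2.1) (by positivity) ?_
  rw [pow_succ _ l]
  exact mul_le_of_le_one_left h3.le (pow_le_one₀ h3.le (le_of_lt hU.2.2))

theorem sq_mul {I : Type} [Fintype I] (u : I → ℂ) (a : ℂ) :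
    sq (fun j => u j * a) = sq u * ENNReal.ofReal (‖a‖ ^ 2) := by
  simp only [sq, norm_mul, mul_pow, ← Finset.sum_mul]
  exact ENNReal.ofReal_mul (by positivity)

/-- the limit has no pole -/
theorem pole (X : Cht ι M) {m : ℕ} (hm : 0 < m) {O : ValuationSubring M} {c : ι → M} {i0 : ι}
    (hc : Adp ℂ O c i0) {J : Type} [Fintype J] {t : J → X.O} (ht : ∀ a, (t a : M) ∈ O) (n : ℕ)
    {I : Type} [Fintype I] {U : ℕ → I → X.O} {V : ℕ → X.O} {G : X.O} {κ : ℕ → ℕ} {C : ℝ≥0∞}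
    (h : Tow X.D.μ m (fun p => (ENNReal.ofReal ((∑ a, ‖p (t a)‖ ^ 2 + 1) ^ n))⁻¹)
      (fun N p j => p (U N j)) (fun k p => p (V k)) C) (hκ : StrictMono κ)
    (hG : ∀ p : Pt X.O, Tendsto (fun n => p (V (κ n))) atTop (𝓝 (p G))) :
    RegI X.der m G O := by
  classical
  have : CharZero M := charZero_of_injective_algebraMap (algebraMap ℂ M).injective
  have hJ := X.dual.isFr.jac_ne hc.basis.1
  obtain ⟨l, hl⟩ := hc.exists_pow fun _ : Unit => (Jac X.der c)⁻¹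
  obtain ⟨Y, hY, hz, hs, τ, hτ⟩ := exists_cht_at X hc.divisorial hc.adapted
    (insert ((Jac X.der c)⁻¹ * c i0 ^ l) (Finset.univ.image fun a => (t a : M))) fun a ha => by
      rcases Finset.mem_insert.1 ha with rfl | ha
      · exact hl ()
      · obtain ⟨b, -, rfl⟩ := Finset.mem_image.1 ha
        exact ht b
  obtain rfl : c = fun i => (Y.z i : M) := (funext hz).symm
  have hj : Jac Y.der (fun i => (X.z i : M)) = (Jac X.der fun i => (Y.z i : M))⁻¹ :=
    eq_inv_of_mul_eq_one_left (by rw [← X.dual.jac_chain, Y.dual.jac_one])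
  rw [hc.regI_iff, ← div_pow_mem_iff hJ, div_eq_mul_inv, ← inv_pow]
  generalize (Jac X.der fun i => (Y.z i : M))⁻¹ = j at hj hs
  have j0 : j ≠ 0 := hj ▸ Y.dual.isFr.jac_ne X.basis.1
  have jl : j ∈ locAway Y.O (Y.z i0) := ⟨l, ⟨_, hs _ (Finset.mem_insert_self _ _)⟩, by simp⟩
  have xl : ∀ a : X.O, (a : M) ∈ locAway Y.O (Y.z i0) := fun a => hτ ▸ τ.inLoc a a.2
  have zl : (Y.z i0 : M) ∈ locAway Y.O (Y.z i0) := le_locAway _ _ (Y.z i0).2
  have a0 : ∀ᵐ p ∂Y.D.μ, p τ.h ≠ 0 := Y.D.ae_of_gen (Y.gen_ne τ.ne)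
  have a1 : ∀ᵐ p ∂Y.D.μ, p.ev j ≠ 0 := Y.D.ae_of_gen (Y.of_gnr (gnr.ne j0))
  have cv : ∀ {H : Pt X.O → ℝ≥0∞}, Measurable H → ∫⁻ q, H q ∂X.D.μ =
      ∫⁻ p, ENNReal.ofReal (‖p.ev j‖ ^ 2) * H (τ.map p) ∂Y.D.μ := fun hH => by
    rw [Y.cv X τ hH, Measure.restrict_eq_self_of_ae_mem (s := {p : Pt Y.O | p τ.h ≠ 0}) a0, hj]
  let t' : J → Y.O := fun a => ⟨t a, hs _ (Finset.mem_insert_of_mem (by simp))⟩
  let th : Pt Y.O → ℝ := fun p => (∑ a, ‖p (t' a)‖ ^ 2 + 1) ^ n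
  have th0 : ∀ p, 0 < th p := fun p => by positivity
  have thc : Continuous th := ((continuous_finsetSum _ fun a _ =>
    (Pt.continuous_apply _).norm.pow 2).add continuous_const).pow n
  have et : ∀ p : Pt Y.O, p τ.h ≠ 0 → (∑ a, ‖τ.map p (t a)‖ ^ 2 + 1) ^ n = th p := fun p hp => by
    simp only [th, (τ.map_apply hp _).2, ← p.ev_coe, t']
  have rl : ∀ p : Pt Y.O, p τ.h ≠ 0 → ∀ {φ : M}, φ ∈ locAway Y.O (Y.z i0) → p.Reg φ :=
    fun p hp _ hφ => InLoc.le (A' := locAway Y.O (Y.z i0)) (fun _ h => h) (hτ ▸ hp) hφ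
  obtain ⟨a, ha⟩ : ∃ a : ℕ, ∀ i, (U 0 i : M) * Y.z i0 ^ a ∈ Y.O := by
    choose k b e using fun i => xl (U 0 i)
    refine ⟨∑ i, k i, fun i => ?_⟩
    have := e i
    push_cast at this
    rw [← Finset.add_sum_erase _ _ (Finset.mem_univ i), pow_add, ← mul_assoc, this]
    exact mul_mem (b i).2 (pow_mem (Y.z i0).2 _)
  let u : ℕ → I → M := fun N i => U N i * (j ^ N * Y.z i0 ^ a)
  have ul : ∀ N i, u N i ∈ locAway Y.O (Y.z i0) := fun N i =>
    mul_mem (xl _) (mul_mem (pow_mem jl N) (pow_mem zl a))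
  have eu : ∀ p : Pt Y.O, p τ.h ≠ 0 → ∀ N, sq (fun i => p.ev (u N i)) =
      sq (fun i => τ.map p (U N i)) * ENNReal.ofReal (‖p.ev j ^ N * p τ.h ^ a‖ ^ 2) :=
    fun p hp N => by
      rw [← sq_mul]
      congr 1
      funext i
      rw [(p.ev_mul (rl p hp (xl _)) (rl p hp (mul_mem (pow_mem jl N) (pow_mem zl a)))).2,
        (p.ev_mul (rl p hp (pow_mem jl N)) (rl p hp (pow_mem zl a))).2, (p.ev_pow (rl p hp jl) N).2,
        (p.ev_pow (rl p hp zl) a).2, (τ.map_apply hp _).2, p.ev_coe, hτ]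
  have mX : ∀ N, Measurable fun q : Pt X.O => sq fun i => q (U N i) := fun N =>
    meas_sq (measurable_pi_lambda _ fun i => (Pt.continuous_apply _).measurable)
  have mρ : Measurable fun q : Pt X.O => (ENNReal.ofReal ((∑ a, ‖q (t a)‖ ^ 2 + 1) ^ n))⁻¹ :=
    (((continuous_finsetSum _ fun a _ => (Pt.continuous_apply _).norm.pow 2).add
      continuous_const).pow n).measurable.ennreal_ofReal.inv
  have step : ∀ N, ∫⁻ p, sq (fun i => p.ev (u (N + 1) i)) * (sq fun i => p.ev (u N i))⁻¹ *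
      (ENNReal.ofReal (th p))⁻¹ ∂Y.D.μ ≤ C := fun N => by
    refine le_trans (le_of_eq ?_) (h.step N)
    rw [cv (((mX _).fun_mul (mX _).fun_inv).fun_mul mρ)]
    refine lintegral_congr_ae ?_
    filter_upwards [a0, a1] with p p0 p1
    have y0 : ENNReal.ofReal (‖p.ev j ^ N * p τ.h ^ a‖ ^ 2) ≠ 0 := by
      have := mul_ne_zero (pow_ne_zero N p1) (pow_ne_zero a p0)
      rw [Ne, ENNReal.ofReal_eq_zero, not_le]
      positivity
    rw [eu p p0, eu p p0, et p p0, pow_succ' (p.ev j), mul_assoc (p.ev j), norm_mul (p.ev j),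
      mul_pow, ENNReal.ofReal_mul (sq_nonneg _),
      ENNReal.mul_inv (Or.inr ENNReal.ofReal_ne_top) (Or.inr y0), ← mul_assoc (sq _),
      mul_mul_mul_comm, ENNReal.mul_inv_cancel y0 ENNReal.ofReal_ne_top]
    ring
  have hu : ∀ N i, u N i ∈ Y.O := fun N => by
    induction N with
    | zero => simpa only [u, pow_zero, one_mul] using ha
    | succ N ih =>
      refine fun i => nopole hY (ul _ i) fun p0 => ?_
      let f : Pt Y.O → ℝ := fun p => ∑ i, ‖p ⟨_, ih i⟩‖ ^ 2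
      have fc : Continuous f := continuous_finsetSum _ fun a _ => (Pt.continuous_apply _).norm.pow 2
      have f1 : 0 < f p0 + 1 := by positivity
      have f2 : 0 < th p0 + 1 := by positivity
      refine ⟨(f p0 + 1)⁻¹ * (th p0 + 1)⁻¹, _, by positivity, ne_top_of_le_ne_top h.ne (step N), _,
        (fc.continuousAt.eventually_lt_const (lt_add_one _)).and
          (thc.continuousAt.eventually_lt_const (lt_add_one _)),
        Eventually.of_forall fun p hp => ?_⟩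
      rw [mul_comm, ← mul_assoc, ENNReal.ofReal_mul (by positivity),
        ENNReal.ofReal_mul (sq_nonneg _), ENNReal.ofReal_inv_of_pos f1,
        ENNReal.ofReal_inv_of_pos f2]
      refine mul_le_mul' (mul_le_mul' (ENNReal.ofReal_le_ofReal (Finset.single_le_sum
        (f := fun i => ‖p.ev (u (N + 1) i)‖ ^ 2) (fun _ _ => sq_nonneg _) (Finset.mem_univ i)))
        (ENNReal.inv_le_inv.2 (ENNReal.ofReal_le_ofReal ?_)))
        (ENNReal.inv_le_inv.2 (ENNReal.ofReal_le_ofReal hp.2.le))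
      simpa only [f, ← p.ev_coe] using hp.1.le
  refine hY.le _ (nopole hY (mul_mem (xl G) (pow_mem jl m)) fun p0 => ?_)
  obtain ⟨A, A1, hA⟩ := loc_bd Y.D thc th0 (U := fun N p i => p ⟨_, hu N i⟩)
    (fun N i => Y.hol _) h.ne (fun N => by simpa only [← Pt.ev_coe] using step N) p0
  let g : ℕ → Pt X.O → ℝ≥0∞ := fun k q => ENNReal.ofReal (‖q (V (κ k))‖ ^ 2) *
    sq (fun i => q (U ((κ k + 1) * m) i)) ^ ex m (κ k) *
      (ENNReal.ofReal ((∑ a, ‖q (t a)‖ ^ 2 + 1) ^ n))⁻¹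
  have mg : ∀ k, Measurable (g k) := fun k =>
    (((Pt.continuous_apply _).norm.pow 2).measurable.ennreal_ofReal.fun_mul
      ((mX _).pow_const _)).fun_mul mρ
  have f2 : 0 < th p0 + 1 := by positivity
  refine ⟨(A ^ (m - 1))⁻¹ * (th p0 + 1)⁻¹, fun p => ENNReal.ofReal (‖p.ev j‖ ^ 2) *
    liminf (fun k => g k (τ.map p)) atTop, by positivity, ?_, _,
    hA.and (thc.continuousAt.eventually_lt_const (lt_add_one _)), ?_⟩
  · rw [← cv (H := fun q => liminf (fun k => g k q) atTop) (Measurable.liminf mg)]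
    exact ne_top_of_le_ne_top h.ne ((lintegral_liminf_le mg).trans
      (liminf_le_of_frequently_le' (Frequently.of_forall fun k => h.last (κ k))))
  filter_upwards [a0, a1] with p p0' p1 hp
  have j1 : 0 < ‖p.ev j‖ ^ 2 := by positivity
  have y1 : 0 < ‖p τ.h ^ a‖ ^ 2 := by have := pow_ne_zero a p0'; positivity
  have B0 : 0 < A / ‖p.ev j‖ ^ 2 := by positivity
  have lim := ENNReal.tendsto_ofReal (((((hG (τ.map p)).norm.pow 2).mul
    (((ex_lim m y1).comp hκ.tendsto_atTop).const_mul ((A / ‖p.ev j‖ ^ 2) ^ (m - 1))⁻¹))).mul_const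
      (th p0 + 1)⁻¹)
  refine le_trans (le_of_eq ?_) (mul_le_mul_right (lim.liminf_eq.ge.trans
    (liminf_le_liminf (Eventually.of_forall fun k => ?_))) _)
  · obtain ⟨m, rfl⟩ := Nat.exists_eq_succ_of_ne_zero hm.ne'
    rw [← ENNReal.ofReal_mul j1.le, (p.ev_mul (rl p p0' (xl G)) (rl p p0' (pow_mem jl _))).2,
      (p.ev_pow (rl p p0' jl) _).2, (τ.map_apply p0' _).2, norm_mul, norm_pow, mul_pow,
      pow_right_comm, div_pow, Nat.succ_sub_one, pow_succ _ m]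
    congr 1
    field_simp
  · rw [ENNReal.ofReal_mul' (inv_pos.2 f2).le, ENNReal.ofReal_mul (sq_nonneg _),
      ENNReal.ofReal_inv_of_pos f2]
    refine mul_le_mul' (mul_le_mul_right (ex_low hm _ B0 y1 ?_) _)
      (ENNReal.inv_le_inv.2 (ENNReal.ofReal_le_ofReal ((et p p0').trans_le hp.2.le)))
    obtain ⟨N, hN⟩ := Nat.exists_eq_succ_of_ne_zero (mul_ne_zero (κ k).succ_ne_zero hm.ne')
    have b1 := ENNReal.ofReal_le_ofReal (hp.1 N)
    have b2 := eu p p0' (N + 1)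
    simp only [← Pt.ev_coe] at b1
    have b3 : 0 < ‖p.ev j ^ (N + 1) * p τ.h ^ a‖ ^ 2 := by
      have := mul_ne_zero (pow_ne_zero (N + 1) p1) (pow_ne_zero a p0')
      positivity
    rw [show (κ k + 1) * m = N + 1 from hN]
    refine ((ENNReal.le_div_iff_mul_le (Or.inl (ENNReal.ofReal_pos.2 b3).ne')
      (Or.inl ENNReal.ofReal_ne_top)).2 (b2.symm.trans_le b1)).trans_eq ?_
    rw [← ENNReal.ofReal_div_of_pos b3, norm_mul, norm_pow, mul_pow, pow_right_comm, div_pow,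
      div_mul_eq_div_div, div_eq_mul_inv]

end Si

end Pool.Agent.Lib.MP_5c318e_ag
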