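import Pool.Agent.Lib.MP_5c318e_ag.Si.IDefs
import Pool.Agent.Lib.MP_5c318e_ag.S.RAlgA
import Pool.Agent.Lib.MP_5c318e_ag.RD.RExt

/-! Hoelder's inequality along a tower of extensions, and local exponential bounds. -/

set_option autoImplicit false
set_option linter.unusedSectionVars false

namespace Pool.Agent.Lib.MP_5c318e_ag

open MeasureTheory Set Filter Topology Metric
open scoped ENNReal

namespace Si

theorem hd_tel {a : ℕ → ℝ≥0∞} (ha : ∀ k, a k ≠ ⊤) (h : ∀ k, a (k + 1) * (a k)⁻¹ ≠ ⊤) (N : ℕ) :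
    a (N + 1) * (a 0)⁻¹ ≤ ∏ k ∈ Finset.range (N + 1), a (k + 1) * (a k)⁻¹ := by
  induction N with
  | zero => simp
  | succ N ih =>
    rw [Finset.prod_range_succ]
    refine le_trans ?_ (mul_le_mul_left ih _)
    by_cases h0 : a (N + 1) = 0
    · have h1 := h (N + 1)
      rw [h0, ENNReal.inv_zero] at h1
      rw [not_not.1 (mt ENNReal.mul_top h1), zero_mul]
      exact zero_le
    · rw [mul_mul_mul_comm, mul_comm (a 0)⁻¹, mul_mul_mul_comm, ENNReal.mul_inv_cancel h0 (ha _),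
        one_mul]

theorem meas_sq {S I : Type} [MeasurableSpace S] [Fintype I] {u : S → I → ℂ} (hu : Measurable u) :
    Measurable fun x => sq (u x) := by
  unfold sq
  fun_prop

/-- Hoelder along the tower -/
theorem hold {S I : Type} [MeasurableSpace S] [Fintype I] {μ : Measure S} {ρ : S → ℝ≥0∞}
    {U : ℕ → S → I → ℂ} {C : ℝ≥0∞} (hC : C ≠ ⊤) (hU : ∀ N, Measurable (U N)) (hρ : Measurable ρ)
    (h : ∀ N, ∫⁻ x, sq (U (N + 1) x) * (sq (U N x))⁻¹ * ρ x ∂μ ≤ C) (N : ℕ) :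
    ∫⁻ x, (sq (U (N + 1) x) * (sq (U 0 x))⁻¹) ^ (1 / (N + 1) : ℝ) * ρ x ∂μ ≤ C := by
  have hm : ∀ k, Measurable fun x => sq (U (k + 1) x) * (sq (U k x))⁻¹ * ρ x := fun k =>
    ((meas_sq (hU _)).mul (meas_sq (hU _)).inv).mul hρ
  have p0 : (0 : ℝ) ≤ 1 / (N + 1) := by positivity
  have e : ∀ c : ℝ≥0∞, (c ^ (N + 1)) ^ (1 / (N + 1) : ℝ) = c := fun c => by
    rw [← ENNReal.rpow_natCast, ← ENNReal.rpow_mul, Nat.cast_succ, mul_one_div_cancel (by positivity),
      ENNReal.rpow_one]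
  have h1 := ENNReal.lintegral_prod_norm_pow_le (μ := μ) (Finset.range (N + 1))
    (fun k _ => (hm k).aemeasurable) (p := fun _ => 1 / (N + 1))
    (by rw [Finset.sum_const, Finset.card_range, nsmul_eq_mul, Nat.cast_succ,
      mul_one_div_cancel (by positivity)]) fun _ _ => p0
  refine (lintegral_mono_ae ((ae_all_iff.2 fun k => ae_lt_top (hm k)
    (ne_top_of_le_ne_top hC (h k))).mono fun x hx => ?_)).trans (h1.trans ?_)
  · by_cases h0 : ρ x = 0
    · simp [h0]
    rw [ENNReal.prod_rpow_of_nonneg p0, Finset.prod_mul_distrib, Finset.prod_const,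
      Finset.card_range, ENNReal.mul_rpow_of_nonneg _ (ρ x ^ _) p0, e]
    refine mul_le_mul_left (ENNReal.rpow_le_rpow (hd_tel (a := fun k => sq (U k x))
      (fun _ => ENNReal.ofReal_ne_top) (fun k hk => (hx k).ne ?_) N) p0) _
    rw [hk, ENNReal.top_mul h0]
  · rw [ENNReal.prod_rpow_of_nonneg p0, ← e C]
    refine ENNReal.rpow_le_rpow ((Finset.prod_le_pow_card _ _ C fun k _ => h k).trans_eq ?_) p0
    rw [Finset.card_range]

variable {ι : Type} [Fintype ι] [DecidableEq ι] {S : Type} [TopologicalSpace S]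
  [MeasurableSpace S] [BorelSpace S] [T2Space S] [SigmaCompactSpace S]

/-- the tower grows at most exponentially, locally uniformly -/
theorem loc_bd {I : Type} [Fintype I] (D : RD ι S) {th : S → ℝ} (hth : Continuous th)
    (h0 : ∀ x, 0 < th x) {U : ℕ → S → I → ℂ} (hU : ∀ N j, D.Hol fun x => U N x j) {C : ℝ≥0∞}
    (hC : C ≠ ⊤)
    (h : ∀ N, ∫⁻ x, sq (U (N + 1) x) * (sq (U N x))⁻¹ * (ENNReal.ofReal (th x))⁻¹ ∂D.μ ≤ C)
    (x : S) : ∃ A : ℝ, 1 ≤ A ∧ ∀ᶠ y in 𝓝 x, ∀ N, ∑ j, ‖U (N + 1) y j‖ ^ 2 ≤ A ^ (N + 1) := by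
  have mU : ∀ N, Measurable (U N) := fun N =>
    measurable_pi_lambda _ fun j => (hU N j).cont.measurable
  have mρ : Measurable fun y => (ENNReal.ofReal (th y))⁻¹ := hth.measurable.ennreal_ofReal.inv
  have c0 : Continuous fun y => ∑ j, ‖U 0 y j‖ ^ 2 :=
    continuous_finsetSum _ fun j _ => (hU 0 j).cont.norm.pow 2
  obtain ⟨r, r0, hr⟩ := Metric.eventually_nhds_iff_ball.1 (Eventually.and
    (RD.tgt_nhds (D.mem_tgt x)) ((D.tendsto_sec x).eventually
      ((hth.continuousAt.eventually_lt_const (lt_add_one (th x))).and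
        (c0.continuousAt.eventually_lt_const (lt_add_one _)))))
  let B : ℝ≥0∞ := ENNReal.ofReal (∑ j, ‖U 0 x j‖ ^ 2 + 1)
  let T : ℝ≥0∞ := ENNReal.ofReal (th x + 1)
  let v : ℝ≥0∞ := volume (ball (0 : ι → ℂ) (r / 2))
  have v0 : v ≠ 0 := (measure_ball_pos _ _ (half_pos r0)).ne'
  have B1 : 1 ≤ B := ENNReal.one_le_ofReal.2 (le_add_of_nonneg_left (by positivity))
  have hA : C * (B * T) / v ≠ ⊤ := ENNReal.div_ne_top (ENNReal.mul_ne_top hC
    (ENNReal.mul_ne_top ENNReal.ofReal_ne_top ENNReal.ofReal_ne_top)) v0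
  have A0 : 0 ≤ (C * (B * T) / v).toReal := ENNReal.toReal_nonneg
  have k0 : (0 : ℝ) ≤ Fintype.card I := Nat.cast_nonneg _
  refine ⟨(Fintype.card I + 1) * ((C * (B * T) / v).toReal + 1), by nlinarith, RD.ev_of_sec (D := D)
    (Filter.mem_of_superset (ball_mem_nhds _ (half_pos r0)) fun z hz N => ?_)⟩
  have sb : ball z (r / 2) ⊆ ball (D.π x) r := ball_subset_ball' (by
    have := mem_ball.1 hz
    linarith)
  have hc : ContinuousOn (D.sec x) (ball z (r / 2)) :=
    (D.sec_contOn x).mono fun w hw => (hr w (sb hw)).1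
  have hπ : ∀ w ∈ ball z (r / 2), D.π (D.sec x w) = w := fun w hw => RD.π_sec (hr w (sb hw)).1
  have p0 : (0 : ℝ) < 1 / (N + 1) := by positivity
  have key : ∀ j, ‖U (N + 1) (D.sec x z) j‖ ^ 2 ≤ ((C * (B * T) / v).toReal + 1) ^ (N + 1) := by
    intro j
    have m := Rat.submean_rpow ((hU (N + 1) j).on_sec isOpen_ball hc hπ)
      (s := 2 * (1 / (N + 1))) (by positivity)
    have mG : Measurable fun y => (sq (U (N + 1) y) * (sq (U 0 y))⁻¹) ^ (1 / (N + 1) : ℝ) *
        (ENNReal.ofReal (th y))⁻¹ :=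
      (((meas_sq (mU _)).mul (meas_sq (mU _)).inv).pow_const _).mul mρ
    have m2 := m.trans ((setLIntegral_mono' measurableSet_ball (g := fun w =>
      (sq (U (N + 1) (D.sec x w)) * (sq (U 0 (D.sec x w)))⁻¹) ^ (1 / (N + 1) : ℝ) *
        (ENNReal.ofReal (th (D.sec x w)))⁻¹ * (B * T)) fun w hw => ?_).trans
      ((lintegral_mul_const' _ _ (ENNReal.mul_ne_top ENNReal.ofReal_ne_top
        ENNReal.ofReal_ne_top)).trans_le (mul_le_mul_left
          ((RD.lintegral_sec_le isOpen_ball hc hπ mG).trans (hold hC mU mρ h N)) _)))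
    · have m3 := ENNReal.toReal_mono hA ((ENNReal.le_div_iff_mul_le (.inl v0)
        (.inl measure_ball_lt_top.ne)).2 m2)
      rw [ENNReal.toReal_ofReal (by positivity), Real.rpow_mul (norm_nonneg _), Real.rpow_two,
        one_div, ← Nat.cast_succ] at m3
      rw [← Real.rpow_inv_natCast_pow (sq_nonneg ‖U (N + 1) (D.sec x z) j‖) N.succ_ne_zero]
      exact pow_le_pow_left₀ (by positivity) (m3.trans (lt_add_one _).le) _
    · obtain ⟨-, h1, h2⟩ := hr w (sb hw)
      have a1 : 1 ≤ (ENNReal.ofReal (th (D.sec x w)))⁻¹ * T := by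
        rw [← ENNReal.inv_mul_cancel (ENNReal.ofReal_pos.2 (h0 (D.sec x w))).ne'
          ENNReal.ofReal_ne_top]
        exact mul_le_mul_right (ENNReal.ofReal_le_ofReal h1.le) _
      have a2 : 1 ≤ (sq (U 0 (D.sec x w)))⁻¹ * B := by
        rw [← ENNReal.inv_mul_cancel (one_pos.trans_le B1).ne' ENNReal.ofReal_ne_top]
        exact mul_le_mul_left (ENNReal.inv_le_inv.2 (ENNReal.ofReal_le_ofReal h2.le)) _
      have a3 : ENNReal.ofReal (‖U (N + 1) (D.sec x w) j‖ ^ 2) ≤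
          sq (U (N + 1) (D.sec x w)) * (sq (U 0 (D.sec x w)))⁻¹ * B := by
        rw [mul_assoc]
        exact le_trans (ENNReal.ofReal_le_ofReal (Finset.single_le_sum
          (f := fun j => ‖U (N + 1) (D.sec x w) j‖ ^ 2) (fun _ _ => by positivity)
            (Finset.mem_univ j))) (le_mul_of_one_le_right' a2)
      rw [Real.rpow_mul (norm_nonneg _), Real.rpow_two,
        ← ENNReal.ofReal_rpow_of_nonneg (sq_nonneg _) p0.le, mul_mul_mul_comm]
      refine le_trans ?_ (le_mul_of_one_le_right' a1)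
      refine (ENNReal.rpow_le_rpow a3 p0.le).trans ?_
      rw [ENNReal.mul_rpow_of_nonneg _ B p0.le]
      refine mul_le_mul_right ((ENNReal.rpow_le_rpow_of_exponent_le B1 ?_).trans_eq
        (ENNReal.rpow_one B)) _
      exact (div_le_one (by positivity)).2 (le_add_of_nonneg_left (Nat.cast_nonneg N))
  refine (Finset.sum_le_card_nsmul _ _ _ fun j _ => key j).trans ?_
  rw [nsmul_eq_mul, mul_pow, Finset.card_univ]
  refine mul_le_mul_of_nonneg_right ((lt_add_one _).le.trans ?_) (by positivity)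
  exact le_self_pow₀ (by linarith) N.succ_ne_zero

end Si

end Pool.Agent.Lib.MP_5c318e_ag
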