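import Pool.Agent.Lib.MP_5c318e_ag.Si.IDefs
import Pool.Agent.Lib.MP_5c318e_ag.RD.RExt
import Pool.Agent.Lib.MP_5c318e_ag.Bg.Osv

/-! Montel's theorem on a Riemann domain. -/

set_option autoImplicit false
set_option linter.unusedSectionVars false

namespace Pool.Agent.Lib.MP_5c318e_ag

open MeasureTheory Set Filter Topology Metric
open scoped ENNReal

namespace Si

variable {ι : Type} [Fintype ι] [DecidableEq ι] {S : Type} [TopologicalSpace S]
  [MeasurableSpace S] [BorelSpace S] [T2Space S] [SigmaCompactSpace S]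

/-- local uniform bounds -/
theorem mon_bd (D : RD ι S) {F : ℕ → S → ℂ} (hF : ∀ n, D.Hol (F n)) {w : ℕ → S → ℝ≥0∞}
    (hw : ∀ n, Measurable (w n))
    (hc : ∀ x, ∃ c : ℝ≥0∞, c ≠ 0 ∧ ∃ V ∈ 𝓝 x, ∀ᶠ n in atTop, ∀ y ∈ V, c ≤ w n y) {C : ℝ≥0∞}
    (hC : C ≠ ⊤) (h : ∀ n, ∫⁻ x, ENNReal.ofReal (‖F n x‖ ^ 2) * w n x ∂D.μ ≤ C) (x : S) :
    ∃ r A : ℝ, 0 < r ∧ 0 < A ∧ ball (D.π x) r ⊆ (D.ch x).target ∧
      ∀ᶠ n in atTop, ∀ z ∈ ball (D.π x) r, ‖F n (D.sec x z)‖ ≤ A := by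
  obtain ⟨c, c0, V, hV, hn⟩ := hc x
  obtain ⟨ε, e0, he⟩ := Metric.mem_nhds_iff.1
    (inter_mem (RD.tgt_nhds (D.mem_tgt x)) ((D.tendsto_sec x).eventually hV))
  have r0 := half_pos e0
  have sb : ∀ z ∈ ball (D.π x) (ε / 2), ball z (ε / 2) ⊆ ball (D.π x) ε := fun z hz =>
    ball_subset_ball' (by linarith [mem_ball.1 hz])
  set v : ℝ := (Real.pi * (ε / 2) ^ 2) ^ Fintype.card ι with hv
  have v0 : 0 < v := by positivity
  have cd : C / c ≠ ⊤ := ENNReal.div_ne_top hC c0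
  refine ⟨ε / 2, (C / c).toReal / v + 1, r0, by positivity,
    fun z hz => (he (ball_subset_ball (half_le_self e0.le) hz)).1, hn.mono fun n hn z hz => ?_⟩
  have h1 := ((hF n).submean (σ := D.sec x) (p := z) r0
    ((D.sec_contOn x).mono fun y hy => (he (sb z hz hy)).1)
    (fun y hy => RD.π_sec (he (sb z hz hy)).1) (hw n)
    fun y hy => hn _ (he (sb z hz hy)).2).trans (h n)
  have h2 := (ENNReal.le_div_iff_mul_le (Or.inl c0) (Or.inr hC)).2 h1
  rw [ENNReal.ofReal_le_iff_le_toReal cd, ← hv, ← le_div_iff₀ v0] at h2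
  nlinarith [sq_nonneg (‖F n (D.sec x z)‖ - 1), norm_nonneg (F n (D.sec x z)),
    div_nonneg (ENNReal.toReal_nonneg (a := C / c)) v0.le]

theorem montel (D : RD ι S) {F : ℕ → S → ℂ} (hF : ∀ n, D.Hol (F n)) {w : ℕ → S → ℝ≥0∞}
    (hw : ∀ n, Measurable (w n))
    (hc : ∀ x, ∃ c : ℝ≥0∞, c ≠ 0 ∧ ∃ V ∈ 𝓝 x, ∀ᶠ n in atTop, ∀ y ∈ V, c ≤ w n y) {C : ℝ≥0∞}
    (hC : C ≠ ⊤) (h : ∀ n, ∫⁻ x, ENNReal.ofReal (‖F n x‖ ^ 2) * w n x ∂D.μ ≤ C) :
    ∃ (G : S → ℂ) (κ : ℕ → ℕ), StrictMono κ ∧ D.Hol G ∧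
      ∀ x, Tendsto (fun n => F (κ n) x) atTop (𝓝 (G x)) := by
  have bd := mon_bd D hF hw hc hC h
  let U : Ultrafilter ℕ := Ultrafilter.of atTop
  have hU : (U : Filter ℕ) ≤ atTop := Ultrafilter.of_le _
  have ex : ∀ x, ∃ g : ℂ, Tendsto (fun n => F n x) U (𝓝 g) := fun x => by
    obtain ⟨r, A, r0, -, -, hn⟩ := bd x
    obtain ⟨g, -, hg⟩ := (isCompact_closedBall (0 : ℂ) A).ultrafilter_le_nhds
      (U.map fun n => F n x) (by
        rw [Ultrafilter.coe_map, le_principal_iff, mem_map]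
        filter_upwards [hU hn] with n hn
        have := hn _ (mem_ball_self r0)
        rw [D.sec_self] at this
        exact mem_closedBall_zero_iff.2 this)
    exact ⟨g, hg⟩
  choose G hG using ex
  have eq : ∀ x, ∀ ε > 0, ∃ V ∈ 𝓝 x, ∀ᶠ n in atTop, ∀ y ∈ V, dist (F n y) (F n x) ≤ ε := by
    intro x ε e0
    obtain ⟨r, A, r0, A0, sb, hn⟩ := bd x
    refine ⟨(D.ch x).source ∩ D.π ⁻¹' ball (D.π x) (min r (ε * r / (2 * A))),
      inter_mem ((D.ch x).open_source.mem_nhds (D.mem_src x))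
        (D.cont_π.continuousAt.preimage_mem_nhds (ball_mem_nhds _ (by positivity))),
      hn.mono fun n hn y hy => ?_⟩
    have h1 := (lt_min_iff.1 (mem_ball.1 hy.2))
    have := Complex.dist_le_div_mul_dist_of_mapsTo_ball (f := fun z => F n (D.sec x z))
      (c := D.π x) (R₁ := r) (R₂ := 2 * A) (z := D.π y)
      (fun z hz => ((hF n).at (sb hz)).differentiableWithinAt)
      (fun z hz => by
        rw [mem_closedBall, dist_eq_norm]
        linarith [norm_sub_le (F n (D.sec x z)) (F n (D.sec x (D.π x))), hn z hz,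
          hn _ (mem_ball_self r0)]) h1.1
    rw [RD.sec_π hy.1, D.sec_self] at this
    refine this.trans ((mul_le_mul_of_nonneg_left h1.2.le (by positivity)).trans_eq ?_)
    field_simp
  have lu : TendstoLocallyUniformly F G U := by
    rw [Metric.tendstoLocallyUniformly_iff]
    intro ε e0 x
    obtain ⟨V, hV, hn⟩ := eq x (ε / 4) (by positivity)
    refine ⟨V, hV, ?_⟩
    filter_upwards [hU hn, Metric.tendsto_nhds.1 (hG x) (ε / 4) (by positivity)] with n a b y hy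
    have c : dist (G y) (G x) ≤ ε / 4 :=
      le_of_tendsto ((hG y).dist (hG x)) (Eventually.mono (hU hn) fun n hn => hn y hy)
    have d := a y hy
    linarith [dist_triangle4 (G y) (G x) (F n x) (F n y), dist_comm (G x) (F n x),
      dist_comm (F n x) (F n y)]
  obtain ⟨κ, hκ, hk⟩ := extraction_forall_of_frequently
    (P := fun j n => ∀ y ∈ compactCovering S j, dist (G y) (F n y) < 1 / (j + 1 : ℝ)) fun j =>
    (Metric.tendstoUniformlyOn_iff.1
      ((tendstoLocallyUniformlyOn_iff_tendstoUniformlyOn_of_compact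
        (isCompact_compactCovering S j)).1 lu.tendstoLocallyUniformlyOn) _
      (by positivity)).frequently.filter_mono hU
  refine ⟨G, κ, hκ, fun x => ?_, fun x => ?_⟩
  · refine (Bg.hol_lim (l := (U : Filter ℕ)) (u := fun n z => F n (D.sec x z))
      (F := fun z => G (D.sec x z)) (D.ch x).open_target
      (.of_forall fun n z hz => ((hF n).at hz).differentiableWithinAt) ?_).differentiableAt
      (RD.tgt_nhds (D.mem_tgt x))
    exact (lu.tendstoLocallyUniformlyOn (s := univ)).comp (D.sec x) (mapsTo_univ _ _)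
      (D.sec_contOn x)
  · obtain ⟨j, hj⟩ := exists_mem_compactCovering x
    rw [tendsto_iff_dist_tendsto_zero]
    refine squeeze_zero' (.of_forall fun _ => dist_nonneg)
      ((eventually_ge_atTop j).mono fun n hn => ?_) tendsto_one_div_add_atTop_nhds_zero_nat
    rw [dist_comm]
    exact (hk n x (compactCovering_subset S hn hj)).le

end Si

end Pool.Agent.Lib.MP_5c318e_ag
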