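import Pool.Agent.Lib.MP_5c318e_ag.W.Ext

/-! The twisted estimate for an almost minimal solution. -/

set_option autoImplicit false
set_option linter.unusedSectionVars false

namespace Pool.Agent.Lib.MP_5c318e_ag

open MeasureTheory Set Filter Topology
open scoped ENNReal
open Pool.Agent.Lib.MP_9ff3e7_ag

namespace Si

theorem pt_ineq (u r : ℂ) {E t : ℝ} (E0 : 0 < E) (E1 : E ≤ 1) (t0 : 0 < t) (t1 : t ≤ 1) :
    ‖(1 - t * E : ℝ) * u - t * r‖ ^ 2 ≤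
      (1 - t * E) * ‖u‖ ^ 2 + t * (1 + t) * (‖r‖ ^ 2 * E⁻¹) := by
  have a0 : 0 < t * E := mul_pos t0 E0
  have a1 : t * E ≤ t := mul_le_of_le_one_right t0.le E1
  have h1 : ‖(1 - t * E : ℝ) * u - t * r‖ ≤ (1 - t * E) * ‖u‖ + t * ‖r‖ := by
    refine (norm_sub_le _ _).trans (le_of_eq ?_)
    rw [norm_mul, norm_mul, Complex.norm_real, Complex.norm_real, Real.norm_of_nonneg t0.le,
      Real.norm_of_nonneg (by linarith)]
  refine (pow_le_pow_left₀ (norm_nonneg _) h1 2).trans ?_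
  obtain ⟨y, hy⟩ : ∃ y, ‖r‖ = y * E := ⟨‖r‖ / E, by field_simp⟩
  rw [hy, show (y * E) ^ 2 * E⁻¹ = y ^ 2 * E by field_simp, ← mul_assoc t y E, mul_right_comm t y E,
    show t * (1 + t) * (y ^ 2 * E) = (1 + t) * (t * E) * y ^ 2 by ring]
  generalize t * E = a at *
  generalize ‖u‖ = x
  nlinarith [mul_nonneg (mul_nonneg a0.le (by linarith : 0 ≤ 1 - a)) (sq_nonneg (x - y)),
    mul_nonneg (mul_nonneg a0.le t0.le) (sq_nonneg y)]

variable {ι : Type} [Fintype ι] {S : Type} [TopologicalSpace S] [MeasurableSpace S] [BorelSpace S]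
  {D : RD ι S}

theorem twist (H : D.HL) {om β ψ : S → ℝ} (hom : D.LP om) (hψ : D.Sm ψ)
    (hη : D.Psh fun x => ψ x + β x) {R : ℝ} (hR : ∀ x, -R ≤ ψ x ∧ ψ x ≤ 0) {f : S → ℂ}
    (hf : D.Sm f) {h k κ : S → ℝ} (mh : Measurable h) (mk : Measurable k) (mκ : Measurable κ)
    (h0 : ∀ x, 0 ≤ h x) (k0 : ∀ x, 0 ≤ k x) (κ0 : ∀ x, 0 ≤ κ x)
    (hb : ∀ x ξ (u : ℂ), ‖D.dbar f x ξ + u * D.dbar (fun y => (ψ y : ℂ)) x ξ‖ ^ 2 ≤
      (h x + k x * ‖u‖ ^ 2) * D.levi (fun x => ψ x + β x) x ξ) {t : ℝ} (t0 : 0 < t) (t1 : t ≤ 1)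
    (hκ : ∀ x, κ x + (1 + t) * (k x * Real.exp (ψ x)) ≤ Real.exp (ψ x))
    (hT : ∫⁻ x, ENNReal.ofReal (h x * Real.exp (ψ x)) *
      (ENNReal.ofReal (om x * Real.exp (β x)))⁻¹ ∂D.μ ≠ ⊤) {η : ℝ≥0∞} (η0 : η ≠ 0) :
    ∃ F : S → ℂ, D.Hol F ∧
      ∫⁻ x, ENNReal.ofReal (‖F x - f x‖ ^ 2) * (ENNReal.ofReal (om x * Real.exp (β x)))⁻¹ ∂D.μ ≠ ⊤ ∧
      ∫⁻ x, ENNReal.ofReal (κ x * ‖F x - f x‖ ^ 2) *
        (ENNReal.ofReal (om x * Real.exp (β x)))⁻¹ ∂D.μ ≤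
      2 * ∫⁻ x, ENNReal.ofReal (h x * Real.exp (ψ x)) *
        (ENNReal.ofReal (om x * Real.exp (β x)))⁻¹ ∂D.μ + η := by
  set wt : S → ℝ≥0∞ := fun x => (ENNReal.ofReal (om x * Real.exp (β x)))⁻¹ with hwt
  have mψ := hψ.cont.measurable
  have mβ : Measurable β := by
    have := hη.1.cont.measurable.sub mψ
    rwa [show (fun x => ψ x + β x) - ψ = β from funext fun x => add_sub_cancel_left _ _] at this
  have mw : Measurable wt := (hom.measurable.mul mβ.exp).ennreal_ofReal.inv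
  let L : (S → ℝ) → ℝ≥0∞ := fun g => ∫⁻ x, ENNReal.ofReal (g x) * wt x ∂D.μ
  have mono : ∀ {g g' : S → ℝ}, (∀ x, g x ≤ g' x) → L g ≤ L g' := fun e =>
    lintegral_mono fun x => mul_le_mul_left (ENNReal.ofReal_le_ofReal (e x)) _
  have add : ∀ {g g' : S → ℝ}, Measurable g → (∀ x, 0 ≤ g x) → (∀ x, 0 ≤ g' x) →
      L (fun x => g x + g' x) = L g + L g' := fun m a b => by
    simp only [L, ENNReal.ofReal_add (a _) (b _), add_mul]
    exact lintegral_add_left (m.ennreal_ofReal.mul mw) _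
  have cmul : ∀ {c : ℝ} (g : S → ℝ), 0 ≤ c → L (fun x => c * g x) = ENNReal.ofReal c * L g :=
    fun g hc => by
      simp only [L, ENNReal.ofReal_mul hc, mul_assoc]
      exact lintegral_const_mul' _ _ ENNReal.ofReal_ne_top
  have E0 : ∀ x, 0 < Real.exp (ψ x) := fun x => Real.exp_pos _
  have E1 : ∀ x, Real.exp (ψ x) ≤ 1 := fun x => Real.exp_le_one_iff.2 (hR x).2
  have e1 : ∀ (x : S) (a : ℝ), 0 ≤ a →
      ENNReal.ofReal a * (ENNReal.ofReal (om x * Real.exp (ψ x + β x)))⁻¹ =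
        ENNReal.ofReal (a * (Real.exp (ψ x))⁻¹) * wt x := fun x a ha => by
    rw [Real.exp_add, mul_comm (Real.exp (ψ x)), ← mul_assoc, RD.WP.ofReal_inv_mul
      (mul_nonneg (hom.nonneg x) (Real.exp_pos _).le) (E0 x), ENNReal.ofReal_mul ha]
    simp only [hwt]
    ring
  have hl : ∀ {g : S → ℂ} {p : S → ℝ}, D.Sm g → Measurable p → (∀ x, 0 ≤ p x) →
      (∀ x ξ, ‖D.dbar g x ξ‖ ^ 2 ≤ p x * D.levi (fun x => ψ x + β x) x ξ) →
      L (fun x => p x * (Real.exp (ψ x))⁻¹) ≠ ⊤ → ∃ G, D.Hol G ∧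
        L (fun x => ‖G x - g x‖ ^ 2 * (Real.exp (ψ x))⁻¹) ≤ L fun x => p x * (Real.exp (ψ x))⁻¹ :=
    fun hg mp p0 hp fin => by
      obtain ⟨G, G1, G2⟩ := H.lp hom hη hg mp p0 hp (by simpa only [e1 _ _ (p0 _)] using fin)
      exact ⟨G, G1, by simpa only [e1 _ _ (p0 _), e1 _ _ (sq_nonneg _)] using G2⟩
  have fin0 : L (fun x => h x * (Real.exp (ψ x))⁻¹) ≠ ⊤ := ne_top_of_le_ne_top
    (ENNReal.mul_ne_top ENNReal.ofReal_ne_top hT) ((mono (g' := fun x => Real.exp (R + R) *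
      (h x * Real.exp (ψ x))) fun x => by
        rw [mul_left_comm, ← Real.exp_add, ← Real.exp_neg]
        exact mul_le_mul_of_nonneg_left (Real.exp_le_exp.2 (by linarith [(hR x).1])) (h0 x)).trans_eq
      (cmul _ (Real.exp_pos _).le))
  obtain ⟨F0, a1, a2⟩ := hl hf mh h0 (fun x ξ => by simpa using hb x ξ 0) fin0
  let N : {F : S → ℂ // D.Hol F} → ℝ≥0∞ := fun F => L fun x => ‖F.1 x - f x‖ ^ 2
  have m0 : ⨅ F, N F ≠ ⊤ := ne_top_of_le_ne_top fin0 ((iInf_le N ⟨F0, a1⟩).trans ((mono fun x =>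
    le_mul_of_one_le_right (sq_nonneg _) ((one_le_inv₀ (E0 x)).2 (E1 x))).trans a2))
  have T0 : ENNReal.ofReal t ≠ 0 := by simpa using t0
  obtain ⟨⟨F, hF⟩, hN⟩ := iInf_lt_iff.1 (ENNReal.lt_add_right m0 (mul_ne_zero T0 η0))
  have fin1 : L (fun x => ‖F x - f x‖ ^ 2) ≠ ⊤ := hN.ne_top
  refine ⟨F, hF, fin1, ?_⟩
  have su : D.Sm fun x => f x - F x := hf.sub (RD.WP.hol_sm hF)
  have sg : D.Sm fun x => (f x - F x) * (Real.exp (ψ x) : ℂ) := su.mul hψ.rexp.ofReal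
  have mu : Measurable fun x => ‖F x - f x‖ ^ 2 :=
    ((hF.cont.sub hf.cont).norm.pow 2).measurable
  have kE : ∀ x, k x * Real.exp (ψ x) ≤ 1 := fun x => by
    have := mul_nonneg (k0 x) (E0 x).le
    nlinarith [hκ x, κ0 x, E1 x]
  have fin2 : L (fun x => k x * Real.exp (ψ x) * ‖F x - f x‖ ^ 2) ≠ ⊤ :=
    ne_top_of_le_ne_top fin1 (mono fun x => mul_le_of_le_one_left (sq_nonneg _) (kE x))
  have e2 : L (fun x => Real.exp (ψ x) ^ 2 * (h x + k x * ‖F x - f x‖ ^ 2) * (Real.exp (ψ x))⁻¹) =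
      L (fun x => h x * Real.exp (ψ x)) + L fun x => k x * Real.exp (ψ x) * ‖F x - f x‖ ^ 2 := by
    rw [← add (mh.fun_mul mψ.exp) (fun x => mul_nonneg (h0 x) (E0 x).le) fun x =>
      mul_nonneg (mul_nonneg (k0 x) (E0 x).le) (sq_nonneg ‖F x - f x‖)]
    congr 1
    funext x
    have := (E0 x).ne'
    field_simp
  obtain ⟨G, g1, g2⟩ := hl (p := fun x => Real.exp (ψ x) ^ 2 * (h x + k x * ‖F x - f x‖ ^ 2)) sg
    ((mψ.exp.pow_const 2).mul (mh.add (mk.mul mu)))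
    (fun x => mul_nonneg (sq_nonneg _) (add_nonneg (h0 x) (mul_nonneg (k0 x) (sq_nonneg _))))
    (fun x ξ => by
      have b1 := MP_9ff3e7_ag.F.dbar_mul (su.diff x) (hψ.rexp.ofReal.diff x) ξ
      have b2 := MP_9ff3e7_ag.F.dbar_sub (hf.diff x) ((hF x).restrictScalars ℝ) ξ
      have b3 := MP_9ff3e7_ag.F.dbar_exp (hψ.diff x) ξ
      rw [b2, b3, MP_9ff3e7_ag.F.dbar_holo (hF x)] at b1
      simp only [D.sec_self] at b1
      have b4 : D.dbar (fun x => (f x - F x) * (Real.exp (ψ x) : ℂ)) x ξ = (Real.exp (ψ x) : ℂ) *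
          (D.dbar f x ξ + (f x - F x) * D.dbar (fun y => (ψ y : ℂ)) x ξ) := by
        refine b1.trans ?_
        simp only [RD.dbar]
        ring
      rw [b4, norm_mul, mul_pow, Complex.norm_real, Real.norm_of_nonneg (E0 x).le, mul_assoc,
        norm_sub_rev]
      exact mul_le_mul_of_nonneg_left (hb x ξ _) (sq_nonneg _))
    (by rw [e2]; exact ENNReal.add_ne_top.2 ⟨hT, fin2⟩)
  rw [e2] at g2
  have tE : ∀ x, 0 ≤ 1 - t * Real.exp (ψ x) := fun x =>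
    sub_nonneg.2 (mul_le_one₀ t1 (E0 x).le (E1 x))
  have ma : Measurable fun x => (1 - t * Real.exp (ψ x)) * ‖F x - f x‖ ^ 2 :=
    (measurable_const.sub (mψ.exp.const_mul t)).mul mu
  have a0 : ∀ x, 0 ≤ (1 - t * Real.exp (ψ x)) * ‖F x - f x‖ ^ 2 := fun x =>
    mul_nonneg (tE x) (sq_nonneg _)
  have c1 : ⨅ F, N F ≤ L (fun x => (1 - t * Real.exp (ψ x)) * ‖F x - f x‖ ^ 2) +
      ENNReal.ofReal (t * (1 + t)) * (L (fun x => h x * Real.exp (ψ x)) +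
        L fun x => k x * Real.exp (ψ x) * ‖F x - f x‖ ^ 2) := by
    refine (iInf_le N ⟨fun x => F x + t * G x, fun x => (hF x).add ((g1 x).const_mul _)⟩).trans ?_
    refine le_trans ?_ (add_le_add le_rfl (mul_le_mul_right g2 _))
    rw [← cmul _ (by positivity), ← add ma a0 fun x => by have := E0 x; positivity]
    refine mono fun x => ?_
    have := pt_ineq (f x - F x) (G x - (f x - F x) * (Real.exp (ψ x) : ℂ)) (E0 x) (E1 x) t0 t1
    rw [norm_sub_rev (f x)] at this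
    refine le_trans (le_of_eq ?_) this
    rw [← norm_neg]
    congr 2
    push_cast
    ring
  have c2 : L (fun x => ‖F x - f x‖ ^ 2) = L (fun x => (1 - t * Real.exp (ψ x)) * ‖F x - f x‖ ^ 2) +
      ENNReal.ofReal t * L fun x => Real.exp (ψ x) * ‖F x - f x‖ ^ 2 := by
    rw [← cmul _ t0.le, ← add ma a0 fun x => by have := E0 x; positivity]
    congr 1
    funext x
    ring
  have c3 : L (fun x => κ x * ‖F x - f x‖ ^ 2) + ENNReal.ofReal (1 + t) *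
      L (fun x => k x * Real.exp (ψ x) * ‖F x - f x‖ ^ 2) ≤
        L fun x => Real.exp (ψ x) * ‖F x - f x‖ ^ 2 := by
    rw [← cmul _ (by positivity), ← add (mκ.fun_mul mu) (fun x => mul_nonneg (κ0 x) (sq_nonneg _))
      fun x => by have := E0 x; have := k0 x; positivity]
    refine mono fun x => ?_
    rw [← mul_assoc, ← add_mul]
    exact mul_le_mul_of_nonneg_right (hκ x) (sq_nonneg _)
  have c4 := (c2.symm.trans_le hN.le).trans (add_le_add c1 le_rfl)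
  have fa : L (fun x => (1 - t * Real.exp (ψ x)) * ‖F x - f x‖ ^ 2) ≠ ⊤ :=
    ne_top_of_le_ne_top fin1 (c2 ▸ le_self_add)
  rw [add_assoc, ENNReal.add_le_add_iff_left fa, ENNReal.ofReal_mul t0.le, mul_assoc, ← mul_add,
    ENNReal.mul_le_mul_iff_right T0 ENNReal.ofReal_ne_top, mul_add, add_right_comm] at c4
  have c5 := (ENNReal.add_le_add_iff_right (ENNReal.mul_ne_top ENNReal.ofReal_ne_top fin2)).1
    (c3.trans c4)
  refine c5.trans (add_le_add (mul_le_mul_left ?_ _) le_rfl)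
  rw [← ENNReal.ofReal_ofNat]
  exact ENNReal.ofReal_le_ofReal (by linarith)

end Si

end Pool.Agent.Lib.MP_5c318e_ag
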