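import Pool.Agent.Lib.MP_5c318e_ag.W.Ext

/-! The twisting weight of the extension theorem. -/

set_option autoImplicit false
set_option linter.unusedSectionVars false

namespace Pool.Agent.Lib.MP_5c318e_ag

open Set Filter Topology Complex
open scoped ContDiff ComplexConjugate
open Pool.Agent.Lib.MP_9ff3e7_ag

noncomputable section

namespace Si

/-- the quotient `(q + e) / (q + 1)` -/
def tau (e q : ℝ) : ℝ := (q + e) / (q + 1)

/-- its logarithm -/
def rho (e q : ℝ) : ℝ := Real.log (q + e) - Real.log (q + 1)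

/-- the twisting factor -/
def eta (e q : ℝ) : ℝ := -(rho e q + Real.exp (rho e q) - 2)

section real

variable {e q : ℝ}

theorem tau_pos (e0 : 0 < e) (q0 : 0 ≤ q) : 0 < tau e q := by unfold tau; positivity

theorem rho_eq (e0 : 0 < e) (q0 : 0 ≤ q) : rho e q = Real.log (tau e q) :=
  (Real.log_div (by positivity) (by positivity)).symm

theorem exp_rho (e0 : 0 < e) (q0 : 0 ≤ q) : Real.exp (rho e q) = tau e q := by
  rw [rho_eq e0 q0, Real.exp_log (tau_pos e0 q0)]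

theorem eta_eq (e0 : 0 < e) (q0 : 0 ≤ q) : eta e q = 2 - Real.log (tau e q) - tau e q := by
  rw [eta, exp_rho e0 q0, rho_eq e0 q0]
  ring

theorem le_tau (e1 : e ≤ 1) (q0 : 0 ≤ q) : e ≤ tau e q := by
  rw [tau, le_div_iff₀ (by positivity)]
  nlinarith

theorem tau_le (e1 : e ≤ 1) (q0 : 0 ≤ q) : tau e q ≤ 1 := by
  rw [tau, div_le_one (by positivity)]
  linarith

theorem one_le_eta (e0 : 0 < e) (e1 : e ≤ 1) (q0 : 0 ≤ q) : 1 ≤ eta e q := by
  rw [eta_eq e0 q0]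
  linarith [tau_le e1 q0, Real.log_nonpos (tau_pos e0 q0).le (tau_le e1 q0)]

theorem eta_le (e0 : 0 < e) (e1 : e ≤ 1) (q0 : 0 ≤ q) : eta e q ≤ 2 - Real.log e := by
  rw [eta_eq e0 q0]
  linarith [tau_pos e0 q0, Real.log_le_log e0 (le_tau e1 q0)]

theorem tau_eta_le (e0 : 0 < e) (e1 : e ≤ 1) (q0 : 0 ≤ q) : tau e q * eta e q ≤ 3 := by
  rw [eta_eq e0 q0]
  have t0 := tau_pos e0 q0
  have h := mul_le_mul_of_nonneg_left (Real.one_sub_inv_le_log_of_pos t0) t0.le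
  rw [mul_sub, mul_inv_cancel₀ t0.ne'] at h
  nlinarith [tau_le e1 q0]

theorem four_le_eta (e0 : 0 < e) (e1 : e ≤ 1 / 64) (q0 : 0 ≤ q) (h : q ≤ e / 2) :
    4 ≤ eta e q := by
  rw [eta_eq e0 q0]
  have t1 : tau e q ≤ 1 / 2 ^ 5 := by
    rw [tau, div_le_iff₀ (by positivity)]
    linarith
  have := Real.log_le_log (tau_pos e0 q0) t1
  rw [one_div, Real.log_inv, Real.log_pow] at this
  push_cast at this
  linarith [Real.log_two_gt_d9]

/-- the share of the twisting term -/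
def kap (e q : ℝ) : ℝ :=
  if q ≤ e / 2 then 1 / 2 else (1 + tau e q * eta e q / (1 + tau e q) ^ 2)⁻¹

theorem kap_nonneg (e0 : 0 < e) (e1 : e ≤ 1) (q0 : 0 ≤ q) : 0 ≤ kap e q := by
  have := tau_pos e0 q0
  have := one_le_eta e0 e1 q0
  unfold kap
  split_ifs <;> positivity

theorem kap_le (e0 : 0 < e) (e1 : e ≤ 1) (q0 : 0 ≤ q) :
    tau e q / 14 + (1 + e / 14) * (kap e q * (eta e q)⁻¹) ≤ (eta e q)⁻¹ := by
  have t0 := tau_pos e0 q0
  have t1 := tau_le e1 q0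
  have t2 := le_tau e1 q0
  have h1 := one_le_eta e0 e1 q0
  have h3 := tau_eta_le e0 e1 q0
  have key : tau e q * eta e q / 14 + (1 + e / 14) * kap e q ≤ 1 := by
    have h4 : e ≤ tau e q * eta e q := t2.trans (le_mul_of_one_le_right t0.le h1)
    unfold kap
    split_ifs
    · linarith
    · generalize tau e q * eta e q = y at *
      have h5 : y / 4 ≤ y / (1 + tau e q) ^ 2 :=
        div_le_div_of_nonneg_left (by linarith) (by positivity) (by nlinarith)
      have h6 : (1 + y / (1 + tau e q) ^ 2)⁻¹ ≤ (1 + y / 4)⁻¹ :=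
        inv_anti₀ (by linarith) (by linarith)
      have h7 : (1 + e / 14) * (1 + y / 4)⁻¹ ≤ 1 - y / 14 := by
        rw [← div_eq_mul_inv, div_le_iff₀ (by linarith)]
        nlinarith
      nlinarith [mul_le_mul_of_nonneg_left h6 (by linarith : 0 ≤ 1 + e / 14)]
  have := mul_le_mul_of_nonneg_right key (inv_nonneg.2 (zero_le_one.trans h1))
  rw [one_mul] at this
  refine le_trans (le_of_eq ?_) this
  field_simp

theorem wt_bd (e0 : 0 < e) (e1 : e ≤ 1 / 64) (q0 : 0 ≤ q) {T Θ c : ℝ} (T0 : 0 ≤ T) (c0 : 0 ≤ c)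
    {P a : ℂ} (h1 : (1 + tau e q) / eta e q * (e * T / (q + e) ^ 2) +
        (1 + tau e q * eta e q / (1 + tau e q) ^ 2) * ‖P‖ ^ 2 ≤ Θ)
    (h2 : ‖P‖ ^ 2 ≤ ((1 + tau e q) / eta e q) ^ 2 * (q * T / (q + e) ^ 2))
    (ha : ‖a‖ ^ 2 ≤ c * (q * T / e ^ 2)) (hc : e / 2 < q → c = 0) (u : ℂ) :
    ‖a + u * P‖ ^ 2 ≤ (9 / 4 * c * eta e q + kap e q * ‖u‖ ^ 2) * Θ := by
  have e2 : e ≤ 1 := by linarith
  have t0 := tau_pos e0 q0
  have t1 := tau_le e2 q0
  have y1 := one_le_eta e0 e2 q0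
  have p1 : 0 ≤ (1 + tau e q) / eta e q * (e * T / (q + e) ^ 2) := by positivity
  have p2 : 0 < 1 + tau e q * eta e q / (1 + tau e q) ^ 2 := by positivity
  have p3 := mul_nonneg p2.le (sq_nonneg ‖P‖)
  unfold kap
  split_ifs with h
  · have y4 := four_le_eta e0 e1 q0 h
    have g1 : (1 + tau e q) / eta e q ≤ 1 / 2 := by
      rw [div_le_iff₀ (by positivity)]
      linarith
    have g2 : (eta e q)⁻¹ ≤ (1 + tau e q) / eta e q := by
      rw [← one_div]
      gcongr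
      linarith
    have g0 : 0 ≤ (1 + tau e q) / eta e q := by positivity
    have s0 : 0 ≤ e * T / (q + e) ^ 2 := by positivity
    have s1 : q * T / (q + e) ^ 2 ≤ 1 / 2 * (e * T / (q + e) ^ 2) := by
      rw [← mul_div_assoc, ← mul_assoc]
      gcongr
      linarith
    have s2 : q * T / e ^ 2 ≤ 9 / 8 * (e * T / (q + e) ^ 2) := by
      rw [← mul_div_assoc, div_le_div_iff₀ (by positivity) (by positivity)]
      have : q * (q + e) ^ 2 ≤ e / 2 * (3 / 2 * e) ^ 2 := by gcongr; linarith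
      nlinarith [mul_le_mul_of_nonneg_left this T0]
    generalize e * T / (q + e) ^ 2 = L at *
    generalize (1 + tau e q) / eta e q = g at *
    have b0 : g * L ≤ Θ := by linarith
    have b1 : ‖P‖ ^ 2 ≤ 1 / 4 * Θ := by
      have := mul_le_mul_of_nonneg_left s1 (sq_nonneg g)
      nlinarith [mul_le_mul_of_nonneg_right g1 p1]
    have b2 : L ≤ eta e q * Θ := by
      rw [← inv_mul_le_iff₀ (by positivity)]
      exact (mul_le_mul_of_nonneg_right g2 s0).trans b0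
    have b3 : ‖a‖ ^ 2 ≤ c * (9 / 8 * (eta e q * Θ)) :=
      ha.trans (mul_le_mul_of_nonneg_left (by linarith) c0)
    have b4 := pow_le_pow_left₀ (norm_nonneg _) (norm_add_le a (u * P)) 2
    rw [norm_mul] at b4
    nlinarith [sq_nonneg (‖a‖ - ‖u‖ * ‖P‖), mul_le_mul_of_nonneg_left b1 (sq_nonneg ‖u‖)]
  · rw [hc (not_le.1 h)] at ha ⊢
    have : a = 0 := by simpa using ha
    rw [this, zero_add, norm_mul, mul_pow, mul_zero, zero_mul, zero_add, mul_right_comm, mul_comm]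
    refine mul_le_mul_of_nonneg_right ?_ (sq_nonneg _)
    rw [le_inv_mul_iff₀ p2]
    linarith

end real

variable {ι κ : Type} [Fintype ι] [Fintype κ]

theorem wt_core {f : κ → (ι → ℂ) → ℂ} {x : ι → ℂ} (hf : ∀ k, AnalyticAt ℂ (f k) x) {e : ℝ}
    (e0 : 0 < e) (e1 : e ≤ 1) (ξ : ι → ℂ) {q T : ℝ} (hq : q = ∑ k, ‖f k x‖ ^ 2)
    (hT : T = ∑ k, ‖fderiv ℂ (f k) x ξ‖ ^ 2) {P : ℂ}
    (hP : P = F.dbar (fun y => ((-Real.log (eta e (∑ k, ‖f k y‖ ^ 2)) : ℝ) : ℂ)) x ξ) :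
    (1 + tau e q) / eta e q * (e * T / (q + e) ^ 2) +
        (1 + tau e q * eta e q / (1 + tau e q) ^ 2) * ‖P‖ ^ 2 ≤
      F.levi (fun y => -Real.log (eta e (∑ k, ‖f k y‖ ^ 2)) +
        2 * Real.log (∑ k, ‖f k y‖ ^ 2 + 1)) x ξ ∧
      ‖P‖ ^ 2 ≤ ((1 + tau e q) / eta e q) ^ 2 * (q * T / (q + e) ^ 2) := by
  have q0 : 0 ≤ q := by rw [hq]; positivity
  have n1 : ∑ k, ‖f k x‖ ^ 2 + e ≠ 0 := by positivity
  have n2 : ∑ k, ‖f k x‖ ^ 2 + 1 ≠ 0 := by positivity
  have c1 := F.contDiffAt_log_sos (n := 2) Finset.univ (fun k _ => hf k) n1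
  have c2 := F.contDiffAt_log_sos (n := 2) Finset.univ (fun k _ => hf k) n2
  let r : (ι → ℂ) → ℝ := fun y => rho e (∑ k, ‖f k y‖ ^ 2)
  have cr : ContDiffAt ℝ 2 r x := c1.sub c2
  have dr := cr.differentiableAt (by norm_num)
  have cA : ContDiffAt ℝ 2 (fun y => r y + Real.exp (r y) - 2) x :=
    (cr.add cr.exp).sub contDiffAt_const
  have h1 := one_le_eta e0 e1 q0
  have t0 := tau_pos e0 q0
  have t1 := tau_le e1 q0
  have rx : r x = rho e q := by rw [hq]
  have hA : -(r x + Real.exp (r x) - 2) = eta e q := by rw [rx, eta]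
  have A0 : r x + Real.exp (r x) - 2 ≠ 0 := by linarith
  have l1 := F.levi_neg_log_neg cA A0 ξ
  have l2 : F.levi (fun y => r y + Real.exp (r y) - 2) x ξ =
      (1 + tau e q) * F.levi r x ξ + tau e q * ‖F.dbar (fun y => (r y : ℂ)) x ξ‖ ^ 2 := by
    rw [F.levi_sub (cr.add cr.exp) contDiffAt_const, F.levi_add cr cr.exp, F.levi_exp cr,
      F.levi_const, rx, exp_rho e0 q0]
    ring
  have d1 : HasDerivAt (fun t : ℝ => -Real.log (-(t + Real.exp t - 2)))
      ((1 + tau e q) / eta e q) (r x) := by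
    have := (((((hasDerivAt_id' (r x)).add (Real.hasDerivAt_exp (r x))).sub_const 2).neg).log
      (neg_ne_zero.2 A0)).neg
    refine this.congr_deriv ?_
    simp only [Pi.neg_apply, Pi.add_apply]
    rw [hA, rx, exp_rho e0 q0]
    ring
  have d2 : P = (((1 + tau e q) / eta e q : ℝ) : ℂ) * F.dbar (fun y => (r y : ℂ)) x ξ := by
    rw [hP, ← d1.deriv]
    exact F.dbar_comp_real d1.differentiableAt dr ξ
  have d3 : ‖P‖ ^ 2 = ((1 + tau e q) / eta e q) ^ 2 * ‖F.dbar (fun y => (r y : ℂ)) x ξ‖ ^ 2 := by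
    rw [d2, norm_mul, mul_pow, norm_real, Real.norm_eq_abs, sq_abs]
  have d4 : ‖F.dbar (fun y => (r y : ℂ)) x ξ‖ ^ 2 ≤ q * T / (q + e) ^ 2 := by
    have b1 := F.dbar_log_sos Finset.univ (fun k _ => hf k) n1 ξ
    have b2 := F.dbar_log_sos Finset.univ (fun k _ => hf k) n2 ξ
    have b3 := F.norm_sum_mul_conj_sq_le Finset.univ (fun k => f k x) fun k => fderiv ℂ (f k) x ξ
    have b4 := F.dbar_sub (F.diffAt_ofReal (c1.differentiableAt (by norm_num)))
      (F.diffAt_ofReal (c2.differentiableAt (by norm_num))) ξ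
    rw [b1, b2, ← hq] at b4
    rw [← hq, ← hT] at b3
    have b5 : F.dbar (fun y => (r y : ℂ)) x ξ = (((q + e)⁻¹ - (q + 1)⁻¹ : ℝ) : ℂ) *
        ∑ k, f k x * conj (fderiv ℂ (f k) x ξ) := by
      simp only [r, rho, ofReal_sub, b4, ofReal_inv]
      ring
    have i1 : (q + 1)⁻¹ ≤ (q + e)⁻¹ := inv_anti₀ (by positivity) (by linarith)
    have i2 : 0 ≤ (q + 1)⁻¹ := by positivity
    rw [b5, norm_mul, mul_pow, norm_real, Real.norm_eq_abs, sq_abs, div_eq_inv_mul, ← inv_pow]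
    exact mul_le_mul (pow_le_pow_left₀ (by linarith) (by linarith) 2) b3 (sq_nonneg _)
      (sq_nonneg _)
  refine ⟨?_, d3 ▸ mul_le_mul_of_nonneg_left d4 (sq_nonneg _)⟩
  have l3 : F.levi r x ξ = _ := F.levi_sub c1 c2 ξ
  have l4 := F.le_levi_log_sos Finset.univ (fun k _ => hf k) (e := e) (by positivity) ξ
  have l5 := F.levi_log_sos_nonneg Finset.univ (fun k _ => hf k) zero_le_one (by positivity) ξ
  rw [← hq, ← hT] at l4
  have cψ : ContDiffAt ℝ 2 (fun y => -Real.log (eta e (∑ k, ‖f k y‖ ^ 2))) x :=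
    (cA.neg.log (neg_ne_zero.2 A0)).neg
  rw [F.levi_add cψ (contDiffAt_const.mul c2), F.levi_const_mul 2 c2]
  have l6 : F.levi (fun y => -Real.log (eta e (∑ k, ‖f k y‖ ^ 2))) x ξ =
      (1 + tau e q) / eta e q * F.levi r x ξ +
        (1 + tau e q * eta e q / (1 + tau e q) ^ 2) * ‖P‖ ^ 2 := by
    refine l1.trans ?_
    rw [l2, hA, show F.dbar (fun y => ((-Real.log (-(r y + Real.exp (r y) - 2)) : ℝ) : ℂ)) x ξ = P
      from hP.symm, d3]
    field_simp
    ring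
  have g0 : 0 ≤ (1 + tau e q) / eta e q := by positivity
  have g2 : (1 + tau e q) / eta e q ≤ 2 := by
    rw [div_le_iff₀ (by positivity)]
    linarith
  rw [l6, l3]
  nlinarith [mul_le_mul_of_nonneg_left l4 g0, mul_le_mul_of_nonneg_right g2 l5]

end Si

end

end Pool.Agent.Lib.MP_5c318e_ag
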