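import Pool.Agent.Lib.MP_5c318e_ag.Si.IDefs
import Pool.Agent.Lib.MP_5c318e_ag.Si.Min
import Pool.Agent.Lib.MP_5c318e_ag.Si.Wt
import Pool.Agent.Lib.MP_5c318e_ag.W.ExtQ

/-! Extension from a thin tube; the constant scales like the volume of the tube. -/

set_option autoImplicit false
set_option linter.unusedSectionVars false

namespace Pool.Agent.Lib.MP_5c318e_ag

open MeasureTheory Set Filter Topology Complex
open scoped ContDiff ENNReal
open Pool.Agent.Lib.MP_9ff3e7_ag RD RD.WP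

namespace Si

section core

variable {ι κ : Type} [Fintype ι] [Fintype κ]
variable {S : Type} [TopologicalSpace S] [MeasurableSpace S] [BorelSpace S] {D : RD ι S}

theorem tube_core (H : D.HL) {om : S → ℝ} (hom : D.LP om) {b : κ → S → ℂ} (hb : ∀ k, D.Hol (b k))
    {e M : ℝ} (e0 : 0 < e) (e1 : e ≤ 1 / 64) (hM : StepBd 1 M) {f0 : S → ℂ} (hf : D.Hol f0)
    {q : S → ℝ} (hq : q = fun x => ∑ k, ‖b k x‖ ^ 2)
    (hI : ∫⁻ x in {x | q x < e}, ENNReal.ofReal (‖f0 x‖ ^ 2) * (ENNReal.ofReal (om x))⁻¹ ∂D.μ ≠ ⊤)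
    (w : ℕ) {η : ℝ≥0∞} (η0 : η ≠ 0) :
    ∃ G f : S → ℂ, D.Hol G ∧ Continuous f ∧ (∀ x, q x ≤ e / 4 → f x = f0 x) ∧
      (∀ x, ‖f x‖ ≤ ‖f0 x‖) ∧ (∀ x, e / 2 ≤ q x → f x = 0) ∧
      ∫⁻ x, ENNReal.ofReal (‖G x - f x‖ ^ 2) *
        (ENNReal.ofReal (om x * q x ^ w * (q x + 1) ^ 2))⁻¹ ∂D.μ ≠ ⊤ ∧
      ∫⁻ x, ENNReal.ofReal (tau e (q x) / 14 * ‖G x - f x‖ ^ 2) *
        (ENNReal.ofReal (om x * q x ^ w * (q x + 1) ^ 2))⁻¹ ∂D.μ ≤
        2 * (ENNReal.ofReal (9 / 4 * M ^ 2 * ((e / 4) ^ w)⁻¹) * ∫⁻ x in {x | q x < e},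
          ENNReal.ofReal (‖f0 x‖ ^ 2) * (ENNReal.ofReal (om x))⁻¹ ∂D.μ) + η := by
  have e2 : e ≤ 1 := by linarith
  have hx : ∀ x, q x = ∑ k, ‖b k x‖ ^ 2 := fun x => by rw [hq]
  have q0 : ∀ x, 0 ≤ q x := fun x => by rw [hx]; positivity
  have qs : D.Sm q := hq ▸ D.sm_sum _ fun k _ => (hol_sm (hb k)).normSq
  have qm := qs.cont.measurable
  have To : IsOpen {x | q x < e} := isOpen_lt qs.cont continuous_const
  obtain ⟨s, s1, s3, s4, s6, s7, s8, hM⟩ := hM
  let χ : ℝ → ℝ := fun t => 1 - s (t / e)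
  have c1 : ContDiff ℝ ∞ χ := contDiff_const.sub (s1.comp (contDiff_id.div_const e))
  have cd : ∀ t, deriv χ t = -(deriv s (t / e) * e⁻¹) := fun t => by
    have := (((s1.differentiable (by simp) (t / e)).hasDerivAt.comp t
      ((hasDerivAt_id' t).div_const e)).const_sub 1).deriv
    rw [one_div] at this
    exact this
  let f : S → ℂ := fun x => (χ (q x) : ℂ) * f0 x
  have cs : D.Sm fun x => (χ (q x) : ℂ) := (qs.comp c1).ofReal
  have fs : D.Sm f := cs.mul (hol_sm hf)
  let A : Set S := {x | e / 4 ≤ q x ∧ q x ≤ e / 2}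
  have Ac : IsClosed A :=
    (isClosed_le continuous_const qs.cont).inter (isClosed_le qs.cont continuous_const)
  have AT : A ⊆ {x | q x < e} := fun x hx => lt_of_le_of_lt hx.2 (by linarith)
  let c : S → ℝ := A.indicator fun x => M ^ 2 * ‖f0 x‖ ^ 2
  have cm : Measurable c :=
    ((hf.cont.norm.pow 2).measurable.const_mul _).indicator Ac.measurableSet
  have c0 : ∀ x, 0 ≤ c x := fun x => indicator_nonneg (fun _ _ => by positivity) x
  have y1 : ∀ x, 1 ≤ eta e (q x) := fun x => one_le_eta e0 e2 (q0 x)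
  have l1 : ∀ {a : ℝ}, 0 < a → D.Sm fun x => Real.log (q x + a) := fun ha =>
    (qs.add (D.sm_const _)).comp_at fun x => Real.contDiffAt_log.2 (by have := q0 x; positivity)
  have sr : D.Sm fun x => rho e (q x) := (l1 e0).sub (l1 one_pos)
  have sη : D.Sm fun x => eta e (q x) := ((sr.add sr.rexp).sub (D.sm_const _)).neg
  have sψ : D.Sm fun x => -Real.log (eta e (q x)) :=
    (sη.comp_at fun x => Real.contDiffAt_log.2 (by have := y1 x; positivity)).neg
  have mη := sη.cont.measurable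
  have mτ : Measurable fun x => tau e (q x) := (qm.add_const e).div (qm.add_const 1)
  have core := fun (x : S) (ξ : ι → ℂ) => wt_core (f := fun k z => b k (D.sec x z))
    (fun k => ana (hb k) x) e0 e2 ξ (q := q x) (by simp only [D.sec_self, hx]) rfl rfl
  simp only [← hx] at core
  have exψ : ∀ x, Real.exp (-Real.log (eta e (q x))) = (eta e (q x))⁻¹ := fun x => by
    rw [Real.exp_neg, Real.exp_log (by have := y1 x; positivity)]
  have exβ : ∀ x, Real.exp (2 * Real.log (q x + 1)) = (q x + 1) ^ 2 := fun x => by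
    rw [show (2 : ℝ) = (2 : ℕ) from rfl, Real.exp_nat_mul,
      Real.exp_log (by have := q0 x; positivity)]
  have fin : ∫⁻ x, ENNReal.ofReal (9 / 4 * c x * eta e (q x) * (eta e (q x))⁻¹) *
      (ENNReal.ofReal (om x * q x ^ w * (q x + 1) ^ 2))⁻¹ ∂D.μ ≤
      ENNReal.ofReal (9 / 4 * M ^ 2 * ((e / 4) ^ w)⁻¹) * ∫⁻ x in {x | q x < e},
        ENNReal.ofReal (‖f0 x‖ ^ 2) * (ENNReal.ofReal (om x))⁻¹ ∂D.μ := by
    rw [← lintegral_const_mul' _ _ ENNReal.ofReal_ne_top, ← lintegral_indicator To.measurableSet]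
    refine lintegral_mono fun x => ?_
    rw [mul_inv_cancel_right₀ (by have := y1 x; positivity)]
    by_cases hA : x ∈ A
    · have p4 : 0 < (e / 4) ^ w := by positivity
      have C0 : 0 ≤ 9 / 4 * M ^ 2 := by positivity
      simp only [c]
      rw [indicator_of_mem (AT hA), indicator_of_mem hA, ← mul_assoc (9 / 4), ENNReal.ofReal_mul C0,
        ENNReal.ofReal_mul C0]
      have : (ENNReal.ofReal (om x * q x ^ w * (q x + 1) ^ 2))⁻¹ ≤
          (ENNReal.ofReal (om x))⁻¹ * ENNReal.ofReal ((e / 4) ^ w)⁻¹ := by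
        rw [← ofReal_inv_mul (hom.nonneg x) p4]
        refine ENNReal.inv_le_inv.2 (ENNReal.ofReal_le_ofReal ?_)
        rw [mul_assoc]
        refine mul_le_mul_of_nonneg_left ?_ (hom.nonneg x)
        exact (pow_le_pow_left₀ (by positivity) hA.1 w).trans
          (le_mul_of_one_le_right (pow_nonneg (q0 x) w) (one_le_pow₀ (by linarith [q0 x])))
      calc _ ≤ ENNReal.ofReal (9 / 4 * M ^ 2) * ENNReal.ofReal (‖f0 x‖ ^ 2) *
            ((ENNReal.ofReal (om x))⁻¹ * ENNReal.ofReal ((e / 4) ^ w)⁻¹) := by gcongr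
        _ = _ := by ring
    · simp [c, indicator_of_notMem hA]
  have lp : D.LP fun x => om x * q x ^ w :=
    hom.mul ((hq ▸ lp_sos Finset.univ fun k _ => hb k : D.LP q).pow w)
  obtain ⟨G, G1, G2, G3⟩ := twist H (β := fun x => 2 * Real.log (q x + 1)) lp sψ
    ⟨sψ.add ((D.sm_const 2).mul (l1 one_pos)), fun x ξ => le_trans (by
      have := tau_pos e0 (q0 x)
      have := y1 x
      have := q0 x
      positivity) (core x ξ).1⟩ (R := Real.log (2 - Real.log e))
    (fun x => ⟨neg_le_neg (Real.log_le_log (by have := y1 x; positivity) (eta_le e0 e2 (q0 x))),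
      neg_nonpos.2 (Real.log_nonneg (y1 x))⟩) fs (h := fun x => 9 / 4 * c x * eta e (q x))
    (k := fun x => kap e (q x)) (κ := fun x => tau e (q x) / 14) ((cm.const_mul _).mul mη)
    (Measurable.ite (measurableSet_le qm measurable_const) measurable_const
      (((mτ.mul mη).div ((mτ.const_add 1).pow_const 2)).const_add 1).inv) (mτ.div_const _)
    (fun x => by have := c0 x; have := y1 x; positivity) (fun x => kap_nonneg e0 e2 (q0 x))
    (fun x => by have := tau_pos e0 (q0 x); positivity)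
    (fun x ξ u => wt_bd e0 e1 (q0 x) (by positivity) (c0 x) (core x ξ).1 (core x ξ).2 (by
      have e1 : D.dbar f x ξ = f0 x * ((deriv χ (q x) : ℝ) * ∑ k, b k x *
          (starRingEnd ℂ) (fderiv ℂ (fun z => b k (D.sec x z)) (D.π x) ξ)) := by
        have a1 := F.dbar_holo_mul (hf x) (cs.diff x) ξ
        have a2 := F.dbar_comp_real (χ := χ) (φ := fun z => q (D.sec x z)) (x := D.π x)
          (c1.differentiable (by simp) _) (qs.diff x) ξ
        have a3 := F.dbar_sum_normSq Finset.univ (f := fun k z => b k (D.sec x z))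
          (fun k _ => hb k x) ξ
        simp only [D.sec_self, ← hx] at a1 a2 a3
        rw [← a3, ← a2, ← a1]
        simp only [dbar, f, mul_comm]
      have l2 := F.norm_sum_mul_conj_sq_le Finset.univ (fun k => b k x)
        fun k => fderiv ℂ (fun z => b k (D.sec x z)) (D.π x) ξ
      rw [← hx] at l2
      by_cases hA : x ∈ A
      · have d1 : ‖((deriv χ (q x) : ℝ) : ℂ)‖ ^ 2 ≤ M ^ 2 * (e ^ 2)⁻¹ := by
          rw [norm_real, cd, norm_neg, norm_mul, mul_pow, norm_inv, inv_pow, Real.norm_of_nonneg e0.le]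
          exact mul_le_mul_of_nonneg_right (pow_le_pow_left₀ (norm_nonneg _) (hM _) 2)
            (by positivity)
        simp only [c]
        rw [e1, indicator_of_mem hA, norm_mul, norm_mul, mul_pow, mul_pow]
        refine (mul_le_mul_of_nonneg_left (mul_le_mul d1 l2 (sq_nonneg _) (by positivity))
          (sq_nonneg _)).trans (le_of_eq ?_)
        ring
      · have : deriv χ (q x) = 0 := by
          rw [cd, s8, zero_mul, neg_zero]
          rw [div_lt_iff₀ e0, lt_div_iff₀ e0]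
          simp only [A, mem_ofPred_eq, not_and_or, not_le] at hA
          exact hA.imp (fun h => by linarith) fun h => by linarith
        simp [e1, this, c, indicator_of_notMem hA])
      (fun h => indicator_of_notMem (fun hA => absurd hA.2 (not_le.2 h)) _) u)
    (t := e / 14) (by positivity) (by linarith) (fun x => by rw [exψ]; exact kap_le e0 e2 (q0 x))
    (by simp only [exψ, exβ]
        exact ne_top_of_le_ne_top (ENNReal.mul_ne_top ENNReal.ofReal_ne_top hI) fin) η0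
  simp only [exψ, exβ] at G2 G3
  refine ⟨G, f, G1, fs.cont, fun x hx => ?_, fun x => ?_, fun x hx => ?_, G2,
    G3.trans (add_le_add (mul_le_mul_right fin 2) le_rfl)⟩
  · simp [f, χ, s3 (q x / e) (by rw [div_le_iff₀ e0]; linarith)]
  · rw [norm_mul, norm_real, Real.norm_of_nonneg (sub_nonneg.2 (s7 _))]
    exact mul_le_of_le_one_left (norm_nonneg _) (sub_le_self _ (s6 _))
  · simp [f, χ, s4 (q x / e) (by rw [le_div_iff₀ e0]; linarith)]

end core

variable {δ ν : Type} [Fintype δ] [Fintype ν] {S : Type} [TopologicalSpace S] [MeasurableSpace S]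
  [BorelSpace S]

theorem qd_nonneg (D : RD (δ ⊕ ν) S) (w0 : δ → ℂ) (x : S) : 0 ≤ qd D w0 x := by
  unfold qd
  positivity

theorem qd_cont (D : RD (δ ⊕ ν) S) (w0 : δ → ℂ) : Continuous (qd D w0) := by
  have := D.cont_π
  unfold qd
  fun_prop

theorem qd_zero_iff {D : RD (δ ⊕ ν) S} {w0 : δ → ℂ} {x : S} :
    qd D w0 x = 0 ↔ ∀ k, D.π x (Sum.inl k) = w0 k := by
  rw [qd, Finset.sum_eq_zero_iff_of_nonneg fun _ _ => sq_nonneg _]
  simp [sub_eq_zero]

/-- extension from a thin tube -/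
theorem tube (w : ℕ) : ∃ C : ℝ≥0∞, C ≠ ⊤ ∧ ∀ (D : RD (δ ⊕ ν) S) (w0 : δ → ℂ) (om : S → ℝ)
    (f0 : S → ℂ) (e : ℝ) (η : ℝ≥0∞), Fintype.card δ = w → D.HL → D.LP om → D.Hol f0 → 0 < e →
      e ≤ 1 / 64 → η ≠ 0 → ∃ F : S → ℂ, D.Hol F ∧ (∀ x, qd D w0 x = 0 → F x = f0 x) ∧
        ∫⁻ x, ENNReal.ofReal (‖F x‖ ^ 2) *
          (ENNReal.ofReal (om x * (qd D w0 x + 1) ^ (w + 2)))⁻¹ ∂D.μ ≤
        C * ENNReal.ofReal (e ^ w)⁻¹ * ∫⁻ x in {x | qd D w0 x < e},
          ENNReal.ofReal (‖f0 x‖ ^ 2) * (ENNReal.ofReal (om x))⁻¹ ∂D.μ + η := by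
  obtain ⟨M, hM⟩ := exists_stepBd one_pos
  refine ⟨28 * (2 * ENNReal.ofReal (9 / 4 * M ^ 2 * 4 ^ w)) + 2, by finiteness, ?_⟩
  rintro D w0 om f0 e η rfl H hom hf e0 e1 η0
  set w := Fintype.card δ with hw
  set q := qd D w0 with hq
  set I := ∫⁻ x in {x | q x < e}, ENNReal.ofReal (‖f0 x‖ ^ 2) * (ENNReal.ofReal (om x))⁻¹ ∂D.μ
    with hI
  have e2 : e ≤ 1 := by linarith
  have q0 : ∀ x, 0 ≤ q x := qd_nonneg D w0
  have qc : Continuous q := qd_cont D w0
  have om0 := hom.nonneg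
  have E1 : 1 ≤ ENNReal.ofReal (e ^ w)⁻¹ :=
    ENNReal.one_le_ofReal.2 ((one_le_inv₀ (by positivity)).2 (pow_le_one₀ e0.le e2))
  have low : ∀ {a : ℝ≥0∞}, 2 * I ≤ (a + 2) * ENNReal.ofReal (e ^ w)⁻¹ * I := fun {a} =>
    mul_le_mul_left (le_add_self.trans (le_mul_of_one_le_right' E1)) _
  by_cases fin : I = ⊤
  · refine ⟨f0, hf, fun _ _ => rfl, le_trans (le_trans (le_top.trans_eq ?_) low) le_self_add⟩
    simp [fin]
  rcases isEmpty_or_nonempty δ with hδ | hδ
  · refine ⟨f0, hf, fun _ _ => rfl, le_trans (le_trans ?_ low) le_self_add⟩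
    refine le_trans (le_of_eq ?_) (le_mul_of_one_le_left' one_le_two)
    simp [hI, hq, qd, e0]
  obtain ⟨G, f, G1, f1, f2, f3, f4, G2, G3⟩ := tube_core H hom
    (b := fun k x => D.π x (Sum.inl k) - w0 k) (fun k => hol_coord _ _) e0 e1 hM hf (q := q) rfl
    fin w (η := η / 28) (by simp [η0])
  have omm := hom.measurable
  have mu : Measurable fun x => ‖G x - f x‖ ^ 2 := ((G1.cont.sub f1).norm.pow 2).measurable
  have mw : Measurable fun x => (ENNReal.ofReal (om x * q x ^ w * (q x + 1) ^ 2))⁻¹ := by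
    have := qc.measurable
    fun_prop
  refine ⟨G, G1, fun x qx => ?_, ?_⟩
  · obtain ⟨B, B0, hB⟩ := hom.bdd x
    have := vanish (D := D) Function.Embedding.inl (g := fun y => G y - f y)
      (om := fun y => om y * q y ^ w * (q y + 1) ^ 2) (x := x) (G1.cont.sub f1).continuousAt
      (M := B * 2 ^ 2) (by positivity) ?_ (mu.ennreal_ofReal.mul mw)
      (Eventually.of_forall fun _ => le_rfl) G2
    · rw [← f2 x (by rw [qx]; positivity)]
      exact sub_eq_zero.1 this
    · filter_upwards [hB, qc.continuousAt.eventually (gt_mem_nhds (show q x < 1 by linarith))]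
        with y h1 h2
      simp only [Function.Embedding.inl_apply, qd_zero_iff.1 qx]
      have := q0 y
      calc om y * q y ^ w * (q y + 1) ^ 2 ≤ B * q y ^ w * 2 ^ 2 := by gcongr; linarith
        _ = _ := by rw [mul_right_comm]; rfl
  · have To : MeasurableSet {x | q x < e} := (isOpen_lt qc continuous_const).measurableSet
    have mτ : Measurable fun x => tau e (q x) / 14 :=
      ((qc.measurable.add_const e).div (qc.measurable.add_const 1)).div_const _
    have e28 : 28 * (η / 28) = η := ENNReal.mul_div_cancel (by norm_num) (by norm_num)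
    have e4 : ENNReal.ofReal (9 / 4 * M ^ 2 * ((e / 4) ^ w)⁻¹) =
        ENNReal.ofReal (9 / 4 * M ^ 2 * 4 ^ w) * ENNReal.ofReal (e ^ w)⁻¹ := by
      rw [← ENNReal.ofReal_mul (by positivity), div_pow, inv_div, div_eq_mul_inv (4 ^ w), mul_assoc _ (4 ^ w)]
    have G4 := mul_le_mul_right G3 28
    rw [mul_add, e28, e4] at G4
    calc _ ≤ 28 * ∫⁻ x, ENNReal.ofReal (tau e (q x) / 14 * ‖G x - f x‖ ^ 2) *
          (ENNReal.ofReal (om x * q x ^ w * (q x + 1) ^ 2))⁻¹ ∂D.μ + 2 * I := ?_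
      _ ≤ _ := add_le_add G4 (mul_le_mul_left (le_mul_of_one_le_right' E1) _)
      _ = _ := by ring
    rw [hI, ← lintegral_const_mul' _ _ ENNReal.ofNat_ne_top, ← lintegral_indicator To,
      ← lintegral_const_mul' _ _ ENNReal.ofNat_ne_top,
      ← lintegral_add_left (((mτ.fun_mul mu).ennreal_ofReal.fun_mul mw).const_mul 28)]
    refine lintegral_mono fun x => ?_
    have n1 : ‖G x‖ ^ 2 ≤ 2 * ‖G x - f x‖ ^ 2 + 2 * ‖f x‖ ^ 2 := by
      have : ‖G x‖ ≤ ‖G x - f x‖ + ‖f x‖ := by simpa using norm_add_le (G x - f x) (f x)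
      nlinarith [norm_nonneg (G x), sq_nonneg (‖G x - f x‖ - ‖f x‖), norm_nonneg (G x - f x),
        norm_nonneg (f x)]
    have n2 : ENNReal.ofReal (‖G x‖ ^ 2) ≤
        ENNReal.ofReal (2 * ‖G x - f x‖ ^ 2) + 2 * ENNReal.ofReal (‖f x‖ ^ 2) := by
      refine (ENNReal.ofReal_le_ofReal n1).trans (le_of_eq ?_)
      rw [ENNReal.ofReal_add (by positivity) (by positivity),
        ENNReal.ofReal_mul (q := ‖f x‖ ^ 2) zero_le_two, ENNReal.ofReal_ofNat]
    have := q0 x
    have := om0 x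
    have t0 := tau_pos e0 (q0 x)
    have n3 : (ENNReal.ofReal (om x * (q x + 1) ^ (w + 2)))⁻¹ ≤
        (ENNReal.ofReal (om x * q x ^ w * (q x + 1) ^ 2))⁻¹ * ENNReal.ofReal (tau e (q x)) := by
      rw [← inv_inv (tau e (q x)), ← ofReal_inv_mul (by positivity) (by positivity)]
      refine ENNReal.inv_le_inv.2 (ENNReal.ofReal_le_ofReal ?_)
      rw [pow_add, mul_right_comm, ← mul_assoc, mul_assoc (om x)]
      gcongr
      obtain ⟨v, hv⟩ := Nat.exists_eq_succ_of_ne_zero (Fintype.card_ne_zero (α := δ))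
      rw [hw, hv, tau, inv_div, pow_succ, pow_succ, mul_assoc]
      gcongr
      · linarith
      · rw [← mul_div_assoc, div_le_iff₀ (by positivity)]
        nlinarith
    have n4 : (ENNReal.ofReal (om x * (q x + 1) ^ (w + 2)))⁻¹ ≤ (ENNReal.ofReal (om x))⁻¹ :=
      ENNReal.inv_le_inv.2 (ENNReal.ofReal_le_ofReal
        (le_mul_of_one_le_right this (one_le_pow₀ (by linarith))))
    refine (mul_le_mul_left n2 _).trans ?_
    rw [add_mul, mul_assoc]
    refine add_le_add ((mul_le_mul_right n3 _).trans_eq ?_) (mul_le_mul_right ?_ _)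
    · rw [← mul_assoc, ← mul_assoc, mul_right_comm, ← ENNReal.ofReal_mul (by positivity),
        ← ENNReal.ofReal_ofNat 28, ← ENNReal.ofReal_mul (by positivity)]
      congr 2
      ring
    · by_cases hx : q x < e
      · rw [indicator_of_mem (show x ∈ {x | q x < e} from hx)]
        gcongr
        exact f3 x
      · rw [f4 x (by linarith)]
        simp

end Si

end Pool.Agent.Lib.MP_5c318e_ag
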