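import Pool.Agent.Lib.MP_5c318e_ag.Si.OT
import Pool.Agent.Lib.MP_5c318e_ag.Si.Tube
import Pool.Agent.Lib.MP_5c318e_ag.Si.Hold
import Pool.Agent.Lib.MP_5c318e_ag.Si.Mon
import Pool.Agent.Lib.MP_5c318e_ag.Me.Rat

/-! The tower of extensions on a chart, and its algebraic limit. -/

set_option autoImplicit false
set_option linter.unusedSectionVars false

namespace Pool.Agent.Lib.MP_5c318e_ag

open MeasureTheory Set Filter Topology
open scoped ENNReal

namespace Si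

theorem tw_pt {t s s0 B : ℝ≥0∞} (ht : t ≠ ⊤) (hB : 1 ≤ B) (h0 : s0 ≤ B) {m : ℕ} (hm : 0 < m)
    (k : ℕ) : t ^ (1 / m : ℝ) * B⁻¹ ≤
      (s * s0⁻¹) ^ (1 / ((k + 1) * m : ℕ) : ℝ) + t * s ^ ex m k := by
  have m0 : (0 : ℝ) < m := Nat.cast_pos.2 hm
  have m1 : (1 : ℝ) ≤ m := Nat.one_le_cast.2 hm
  have k0 : (0 : ℝ) < k + 1 := by positivity
  have n1 : (1 : ℝ) ≤ ((k + 1) * m : ℕ) := Nat.one_le_cast.2 (Nat.mul_pos k.succ_pos hm)
  have n0 : (0 : ℝ) ≤ 1 / ((k + 1) * m : ℕ) := by positivity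
  have b1 : B⁻¹ ≤ 1 := ENNReal.inv_le_one.2 hB
  rcases le_total (t ^ (k + 1 : ℝ)) s with h | h
  · refine le_add_right ?_
    rw [ENNReal.mul_rpow_of_nonneg _ _ n0]
    refine mul_le_mul' (le_trans (le_of_eq ?_) (ENNReal.rpow_le_rpow h n0)) ?_
    · rw [← ENNReal.rpow_mul]
      congr 1
      push_cast
      field_simp
    · refine le_trans ?_ (ENNReal.rpow_le_rpow (ENNReal.inv_le_inv.2 h0) n0)
      exact (ENNReal.rpow_one _).ge.trans (ENNReal.rpow_le_rpow_of_exponent_ge b1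
        ((div_le_one (by linarith)).2 n1))
  · refine le_add_left ((mul_le_of_le_one_right' b1).trans ?_)
    by_cases t0 : t = 0
    · rw [t0, ENNReal.zero_rpow_of_pos (by positivity)]
      exact zero_le
    have c0 : (0 : ℝ) ≤ (m - 1) / (m * (k + 1)) := div_nonneg (by linarith) (by positivity)
    rw [ex, ENNReal.rpow_neg]
    refine le_trans (le_of_eq ?_)
      (mul_le_mul_right (ENNReal.inv_le_inv.2 (ENNReal.rpow_le_rpow h c0)) t)
    rw [← ENNReal.rpow_mul, ← ENNReal.rpow_neg]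
    conv_rhs => enter [1]; rw [← ENNReal.rpow_one t]
    rw [← ENNReal.rpow_add _ _ t0 ht]
    congr 1
    field_simp
    ring

theorem sl_mono {δ ν S : Type} [Fintype δ] [Fintype ν] [TopologicalSpace S] [MeasurableSpace S]
    [BorelSpace S] {D : RD (δ ⊕ ν) S} {w0 : δ → ℂ} {G G' : S → ℝ≥0∞}
    (h : ∀ p, qd D w0 p = 0 → G p ≤ G' p) : sl D w0 G ≤ sl D w0 G' :=
  lintegral_mono fun _ => ENNReal.tsum_le_tsum fun p =>
    h p (qd_zero_iff.2 fun k => congrFun p.2 (Sum.inl k))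

variable {δ ν M : Type} [Fintype δ] [DecidableEq δ] [Fintype ν] [DecidableEq ν] [Field M]
  [Algebra ℂ M]

theorem md_th (X : Cht (δ ⊕ ν) M) (w0 : δ → ℂ) (n : ℕ) :
    Md X.siz fun p => (qd X.D w0 p + 1) ^ n := by
  refine Md.pow X.siz_nonneg (Md.add X.siz_nonneg ?_ (Md.const X.siz_nonneg 1))
    (fun p => add_nonneg (qd_nonneg _ _ _) zero_le_one) n
  refine (Md.sum X.siz_nonneg Finset.univ fun k _ => (X.md (X.z (Sum.inl k) -
    algebraMap ℂ X.O (w0 k))).pow X.siz_nonneg (fun _ => norm_nonneg _) 2).mono fun p => ?_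
  simp only [qd, X.π_eq, map_sub, Pt.map_alg, le_refl]

theorem md_sq (X : Cht (δ ⊕ ν) M) {I : Type} [Fintype I] (u : I → X.O) :
    Md X.siz fun p => ∑ j, ‖p (u j)‖ ^ 2 :=
  Md.sum X.siz_nonneg _ fun j _ => (X.md (u j)).pow X.siz_nonneg (fun _ => norm_nonneg _) 2

/-- algebraic extension from a slice -/
theorem ot_alg (X : Cht (δ ⊕ ν) M) (w0 : δ → ℂ) : ∃ C : ℝ≥0∞, C ≠ ⊤ ∧
    ∀ (om : Pt X.O → ℝ) (f0 : X.O) (A : ℝ≥0∞), X.D.LP om → Md X.siz om → A ≠ ⊤ →
      sl X.D w0 (fun p => ENNReal.ofReal (‖p f0‖ ^ 2) * (ENNReal.ofReal (om p))⁻¹) ≤ A →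
      ∃ F : X.O, (∀ p : Pt X.O, qd X.D w0 p = 0 → p F = p f0) ∧
        ∫⁻ p, ENNReal.ofReal (‖p F‖ ^ 2) * (ENNReal.ofReal (om p))⁻¹ *
          (ENNReal.ofReal ((qd X.D w0 p + 1) ^ (Fintype.card δ + 2)))⁻¹ ∂X.D.μ ≤ C * A := by
  obtain ⟨C, hC, H⟩ := ot X.D X.exh w0
  refine ⟨C, hC, fun om f0 A h1 h2 hA h3 => ?_⟩
  obtain ⟨F, hF, e, hi⟩ := H om (fun p => p f0) h1 (X.hol f0)
  have hi' := hi.trans (mul_le_mul_right h3 C)
  have t0 : ∀ p, 0 < (qd X.D w0 p + 1) ^ (Fintype.card δ + 2) := fun p => by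
    have := qd_nonneg X.D w0 p
    positivity
  have o0 : ∀ p, 0 < om p + 1 := fun p => by linarith [h1.nonneg p]
  obtain ⟨ψ, hψ⟩ := X.rat hF two_pos
    (om := fun p => (om p + 1) * (qd X.D w0 p + 1) ^ (Fintype.card δ + 2))
    ((h1.measurable.add_const 1).mul (((qd_cont _ _).measurable.add_const 1).pow_const _))
    (fun p => mul_pos (o0 p) (t0 p))
    ((Md.add X.siz_nonneg h2 (Md.const X.siz_nonneg 1)).mul (md_th X w0 _) fun p => (t0 p).le)
    (lt_of_le_of_lt (lintegral_mono fun p => by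
      rw [Real.rpow_two, ENNReal.ofReal_div_of_pos (mul_pos (o0 p) (t0 p)), div_eq_mul_inv]
      exact mul_le_mul_right (ENNReal.inv_le_inv.2 (ENNReal.ofReal_le_ofReal
        (mul_le_mul_of_nonneg_right (lt_add_one _).le (t0 p).le))) _)
      (hi'.trans_lt (ENNReal.mul_lt_top hC.lt_top hA.lt_top)))
  refine ⟨ψ, fun p hp => (hψ p).symm.trans (e p hp), le_trans (le_of_eq ?_) hi'⟩
  refine lintegral_congr fun p => ?_
  rw [hψ, ENNReal.ofReal_mul (h1.nonneg p), ENNReal.mul_inv (.inr ENNReal.ofReal_ne_top)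
    (.inl ENNReal.ofReal_ne_top), mul_assoc]

/-- the tower on a chart -/
theorem tower (X : Cht (δ ⊕ ν) M) (w0 : δ → ℂ) {m : ℕ} (hm : 0 < m) {I : Type} [Fintype I]
    (f : ℕ → I → X.O) (g : X.O) {C : ℝ≥0∞} (hC : C ≠ ⊤)
    (h1 : ∀ N, sl X.D w0 (fun p => sq (fun j => p (f (N + 1) j)) * (sq fun j => p (f N j))⁻¹) ≤ C)
    (h2 : ∀ k, sl X.D w0 (fun p => ENNReal.ofReal (‖p g‖ ^ 2) *
      (sq fun j => p (f ((k + 1) * m) j)) ^ ex m k) ≤ C) :
    ∃ (U : ℕ → I → X.O) (V : ℕ → X.O) (G : X.O) (κ : ℕ → ℕ) (C' : ℝ≥0∞),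
      Tow X.D.μ m (fun p => (ENNReal.ofReal ((qd X.D w0 p + 1) ^ (Fintype.card δ + 2)))⁻¹)
        (fun N p j => p (U N j)) (fun k p => p (V k)) C' ∧ StrictMono κ ∧
      (∀ p : Pt X.O, Tendsto (fun n => p (V (κ n))) atTop (𝓝 (p G))) ∧
      ∀ p, qd X.D w0 p = 0 → p G = p g := by
  obtain ⟨C0, hC0, H⟩ := ot_alg X w0
  set th : Pt X.O → ℝ := fun p => (qd X.D w0 p + 1) ^ (Fintype.card δ + 2) with hth
  have t0 : ∀ p, 0 < th p := fun p => by
    have := qd_nonneg X.D w0 p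
    positivity
  have ct : Continuous th := ((qd_cont _ _).add continuous_const).pow _
  have mρ : Measurable fun p => (ENNReal.ofReal (th p))⁻¹ := ct.measurable.ennreal_ofReal.inv
  have mu : ∀ u : I → X.O, Measurable fun (p : Pt X.O) j => p (u j) := fun u =>
    measurable_pi_lambda _ fun j => (Pt.continuous_apply _).measurable
  have mn : ∀ a : X.O, Measurable fun p : Pt X.O => ENNReal.ofReal (‖p a‖ ^ 2) := fun a =>
    ((Pt.continuous_apply a).norm.pow 2).measurable.ennreal_ofReal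
  have lp : ∀ u : I → X.O, X.D.LP fun p => ∑ j, ‖p (u j)‖ ^ 2 := fun u =>
    RD.lp_sos _ fun j _ => X.hol (u j)
  let T : ℕ → Type := fun N => {u : I → X.O // ∀ p, qd X.D w0 p = 0 → ∀ j, p (u j) = p (f N j)}
  set C' : ℝ≥0∞ := (Fintype.card I + 1) * (C0 * C) with hC'
  have c' : C' ≠ ⊤ := ENNReal.mul_ne_top (by simp) (ENNReal.mul_ne_top hC0 hC)
  have st : ∀ N (u : T N), ∃ u' : T (N + 1), ∫⁻ p, sq (fun j => p (u'.1 j)) *
      (sq fun j => p (u.1 j))⁻¹ * (ENNReal.ofReal (th p))⁻¹ ∂X.D.μ ≤ C' := by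
    intro N u
    choose F e hF using fun j => H _ (f (N + 1) j) C (lp u.1) (md_sq X u.1) hC
      ((sl_mono fun p hp => by
        simp only [u.2 p hp]
        exact mul_le_mul_left (ENNReal.ofReal_le_ofReal (Finset.single_le_sum
          (f := fun j => ‖p (f (N + 1) j)‖ ^ 2) (fun _ _ => by positivity)
            (Finset.mem_univ j))) _).trans (h1 N))
    refine ⟨⟨F, fun p hp j => e j p hp⟩, ?_⟩
    calc _ = ∑ j, ∫⁻ p, ENNReal.ofReal (‖p (F j)‖ ^ 2) * (sq fun j => p (u.1 j))⁻¹ *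
          (ENNReal.ofReal (th p))⁻¹ ∂X.D.μ := by
          refine Eq.trans (lintegral_congr fun p => ?_) (lintegral_finsetSum _ fun j _ =>
            ((mn (F j)).mul (meas_sq (mu u.1)).inv).mul mρ)
          rw [← Finset.sum_mul, ← Finset.sum_mul,
            ← ENNReal.ofReal_sum_of_nonneg fun _ _ => by positivity]
          rfl
      _ ≤ Fintype.card I * (C0 * C) := by
          refine (Finset.sum_le_card_nsmul _ _ _ fun j _ => hF j).trans_eq ?_
          rw [nsmul_eq_mul, Finset.card_univ]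
      _ ≤ C' := mul_le_mul_left le_self_add _
  obtain ⟨U, eU, hU⟩ : ∃ U : ℕ → I → X.O,
      (∀ N p, qd X.D w0 p = 0 → ∀ j, p (U N j) = p (f N j)) ∧ ∀ N, ∫⁻ p, sq (fun j => p (U (N + 1) j)) *
        (sq fun j => p (U N j))⁻¹ * (ENNReal.ofReal (th p))⁻¹ ∂X.D.μ ≤ C' := by
    choose nx hnx using st
    let U : ∀ N, T N := fun N => Nat.rec (motive := T) ⟨f 0, fun _ _ _ => rfl⟩ nx N
    exact ⟨fun N => (U N).1, fun N => (U N).2, fun N => hnx N (U N)⟩
  clear st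
  have m0 : (0 : ℝ) < m := Nat.cast_pos.2 hm
  have m1 : (1 : ℝ) ≤ m := Nat.one_le_cast.2 hm
  have c0 : ∀ k : ℕ, (0 : ℝ) ≤ (m - 1) / (m * (k + 1)) := fun k =>
    div_nonneg (by linarith) (by positivity)
  have c1 : ∀ k : ℕ, ((m - 1) / (m * (k + 1)) : ℝ) ≤ 1 := fun k =>
    (div_le_one (by positivity)).2 (by nlinarith [(k.cast_nonneg : (0 : ℝ) ≤ k)])
  have eo : ∀ (k : ℕ) (u : I → ℂ), (ENNReal.ofReal ((∑ j, ‖u j‖ ^ 2) ^
      ((m - 1) / (m * (k + 1)) : ℝ)))⁻¹ = sq u ^ ex m k := fun k u => by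
    rw [ex, ENNReal.rpow_neg, sq, ENNReal.ofReal_rpow_of_nonneg (by positivity) (c0 k)]
  choose V eV hV using fun k => H _ g C ((lp (U ((k + 1) * m))).rpow (c0 k))
    ((Md.add X.siz_nonneg (md_sq X (U ((k + 1) * m))) (Md.const X.siz_nonneg 1)).mono fun p =>
      (Real.rpow_le_rpow (by positivity) (lt_add_one _).le (c0 k)).trans
        (Real.rpow_le_self_of_one_le (le_add_of_nonneg_left (by positivity)) (c1 k))) hC
    ((sl_mono fun p hp => by
      simp only [eU _ p hp]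
      rw [eo k fun j => p (f ((k + 1) * m) j)]).trans (h2 k))
  have hV' : ∀ k, ∫⁻ p, ENNReal.ofReal (‖p (V k)‖ ^ 2) *
      sq (fun j => p (U ((k + 1) * m) j)) ^ ex m k * (ENNReal.ofReal (th p))⁻¹ ∂X.D.μ ≤ C' :=
    fun k => by
      refine le_trans (le_of_eq (lintegral_congr fun p => ?_))
        ((hV k).trans (le_mul_of_one_le_left' le_add_self))
      rw [eo k fun j => p (U ((k + 1) * m) j)]
  have en : ∀ k, (k + 1) * m = (k + 1) * m - 1 + 1 := fun k =>
    (Nat.sub_add_cancel (Nat.mul_pos k.succ_pos hm)).symm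
  obtain ⟨G, κ, hκ, hG, lim⟩ := montel X.D (F := fun k p => p (V k)) (fun k => X.hol (V k))
    (w := fun k p => sq (fun j => p (U ((k + 1) * m) j)) ^ ex m k * (ENNReal.ofReal (th p))⁻¹)
    (fun k => ((meas_sq (mu _)).pow_const _).mul mρ) (fun x => by
      obtain ⟨A, A1, hA⟩ := loc_bd X.D ct t0 (U := fun N p j => p (U N j))
        (fun N j => X.hol _) c' hU x
      refine ⟨(ENNReal.ofReal (A ^ m))⁻¹ * (ENNReal.ofReal (th x + 1))⁻¹,
        mul_ne_zero (ENNReal.inv_ne_zero.2 ENNReal.ofReal_ne_top)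
          (ENNReal.inv_ne_zero.2 ENNReal.ofReal_ne_top), _,
        hA.and (ct.continuousAt.eventually_lt_const (lt_add_one (th x))),
        .of_forall fun k y hy => mul_le_mul' ?_
          (ENNReal.inv_le_inv.2 (ENNReal.ofReal_le_ofReal hy.2.le))⟩
      rw [← eo]
      refine ENNReal.inv_le_inv.2 (ENNReal.ofReal_le_ofReal ?_)
      have := hy.1 ((k + 1) * m - 1)
      rw [← en] at this
      refine (Real.rpow_le_rpow (by positivity) this (c0 k)).trans ?_
      rw [← Real.rpow_natCast, ← Real.rpow_mul (by linarith), ← Real.rpow_natCast]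
      refine Real.rpow_le_rpow_of_exponent_le A1 (le_trans (le_of_eq ?_) (sub_le_self _ zero_le_one))
      push_cast
      field_simp) c' (fun k => by simpa only [mul_assoc] using hV' k)
  let b : Pt X.O → ℝ := fun p => ∑ j, ‖p (U 0 j)‖ ^ 2 + 1
  have b1 : ∀ p, 1 ≤ b p := fun p => le_add_of_nonneg_left (by positivity)
  have cb : Continuous b :=
    (continuous_finsetSum _ fun j _ => (Pt.continuous_apply _).norm.pow 2).add continuous_const
  have o0 : ∀ p, 0 < b p * th p := fun p => mul_pos (one_pos.trans_le (b1 p)) (t0 p)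
  have s0 : (0 : ℝ) < 2 * (1 / m) := by positivity
  have key : ∀ k, ∫⁻ p, ENNReal.ofReal (‖p (V k)‖ ^ (2 * (1 / m) : ℝ) / (b p * th p)) ∂X.D.μ ≤
      C' + C' := fun k => by
    have hh := hold c' (U := fun N p j => p (U N j)) (μ := X.D.μ) (fun N => mu (U N)) mρ hU
      ((k + 1) * m - 1)
    rw [← Nat.cast_succ, Nat.succ_eq_add_one, ← en] at hh
    have ms : Measurable fun p : Pt X.O => (sq (fun j => p (U ((k + 1) * m) j)) *
        (sq fun j => p (U 0 j))⁻¹) ^ (1 / ((k + 1) * m : ℕ) : ℝ) * (ENNReal.ofReal (th p))⁻¹ :=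
      (((meas_sq (mu _)).mul (meas_sq (mu _)).inv).pow_const _).mul mρ
    refine le_trans ?_ (add_le_add hh (hV' k))
    rw [← lintegral_add_left ms]
    refine lintegral_mono fun p => ?_
    rw [← add_mul, ENNReal.ofReal_div_of_pos (o0 p), ENNReal.ofReal_mul (zero_le_one.trans (b1 p)),
      div_eq_mul_inv, ENNReal.mul_inv (.inr ENNReal.ofReal_ne_top) (.inl ENNReal.ofReal_ne_top),
      ← mul_assoc, Real.rpow_mul (norm_nonneg _), Real.rpow_two,
      ← ENNReal.ofReal_rpow_of_nonneg (sq_nonneg _) (by positivity)]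
    exact mul_le_mul_left (tw_pt ENNReal.ofReal_ne_top (ENNReal.one_le_ofReal.2 (b1 p))
      (ENNReal.ofReal_le_ofReal (lt_add_one _).le) hm k) _
  obtain ⟨ψ, hψ⟩ := X.rat hG s0 (cb.mul ct).measurable o0
    ((Md.add X.siz_nonneg (md_sq X (U 0)) (Md.const X.siz_nonneg 1)).mul (md_th X w0 _)
      fun p => (t0 p).le) (by
      refine lt_of_le_of_lt ?_ (ENNReal.add_lt_top.2 ⟨c'.lt_top, c'.lt_top⟩)
      refine le_trans (le_of_eq (lintegral_congr fun p => ?_)) ((lintegral_liminf_le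
        (f := fun n p => ENNReal.ofReal (‖p (V (κ n))‖ ^ (2 * (1 / m) : ℝ) / (b p * th p)))
        (u := atTop) fun n => ((((Pt.continuous_apply _).norm.rpow_const fun _ =>
          .inr s0.le).measurable).div (cb.mul ct).measurable).ennreal_ofReal).trans
        (liminf_le_of_frequently_le' (.of_forall fun n => key (κ n))))
      exact (ENNReal.tendsto_ofReal ((((lim p).norm).rpow_const (.inr s0.le)).div_const
        _)).liminf_eq.symm)
  refine ⟨U, V, ψ, κ, C', ⟨c', hU, hV'⟩, hκ, fun p => hψ p ▸ lim p, fun p hp => ?_⟩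
  have := lim p
  simp only [eV _ p hp, hψ] at this
  exact tendsto_nhds_unique this tendsto_const_nhds

end Si

end Pool.Agent.Lib.MP_5c318e_ag
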