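import Pool.Agent.Lib.MP_5c318e_ag.Si.Gen
import Pool.Agent.Lib.MP_5c318e_ag.Si.Loc
import Pool.Agent.Lib.MP_5c318e_ag.Si.Tow
import Pool.Agent.Lib.MP_5c318e_ag.Si.Pole
import Pool.Agent.Lib.MP_5c318e_ag.S.BVal

/-! Extension of pluricanonical forms from a slice. -/

set_option autoImplicit false
set_option linter.unusedSectionVars false

namespace Pool.Agent.Lib.MP_5c318e_ag

open MeasureTheory Set Filter Topology
open scoped ENNReal

namespace Si

theorem xt_prod (p q : ℝ) {r k : ℕ} (h : r ≤ k) :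
    ∏ i : Fin k, (if (i : ℕ) < r then p else q) = p ^ r * q ^ (k - r) := by
  obtain ⟨t, rfl⟩ := Nat.exists_eq_add_of_le h
  rw [Fin.prod_univ_add, Nat.add_sub_cancel_left]
  simp

/-- the sum of squares of the list at the level `N` -/
theorem xt_sum {n k : ℕ} (a : ℂ) (P Q : Fin n → ℂ) (N : ℕ) :
    ∑ j : Fin k → Fin n, ‖a ^ (N / (k + 1)) *
      ∏ i : Fin k, (if (i : ℕ) < N % (k + 1) then P (j i) else Q (j i))‖ ^ 2 =
    (‖a‖ ^ 2) ^ (N / (k + 1)) * ((∑ j, ‖P j‖ ^ 2) ^ (N % (k + 1)) *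
      (∑ j, ‖Q j‖ ^ 2) ^ (k - N % (k + 1))) := by
  rw [← xt_prod _ _ (Nat.le_of_lt_succ (Nat.mod_lt N k.succ_pos))]
  simp only [norm_mul, mul_pow, norm_pow, norm_prod, ← Finset.prod_pow, ← Finset.mul_sum]
  rw [← pow_mul, ← pow_mul, mul_comm 2, ← Fintype.prod_sum fun (i : Fin k) (j : Fin n) =>
    ‖if (i : ℕ) < N % (k + 1) then P j else Q j‖ ^ 2]
  refine congrArg _ (Finset.prod_congr rfl fun i _ => ?_)
  split_ifs <;> rfl

theorem xt_step {a p q C : ℝ} {k : ℕ} (ha : 0 < a) (hp : 0 < p) (hq : 0 < q) (hC : 1 ≤ C)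
    (h : a * q ^ (k + 1) ≤ C * p ^ (k + 1)) (N : ℕ) :
    a ^ ((N + 1) / (k + 1)) * (p ^ ((N + 1) % (k + 1)) * q ^ (k - (N + 1) % (k + 1))) /
      (a ^ (N / (k + 1)) * (p ^ (N % (k + 1)) * q ^ (k - N % (k + 1)))) ≤ C * (p / q) := by
  obtain ⟨l, r, hr, rfl⟩ : ∃ l r, r < k + 1 ∧ N = (k + 1) * l + r :=
    ⟨_, _, Nat.mod_lt N k.succ_pos, (Nat.div_add_mod N (k + 1)).symm⟩
  rw [Nat.mul_add_div k.succ_pos, Nat.mul_add_mod, Nat.div_eq_of_lt hr, Nat.mod_eq_of_lt hr,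
    div_le_iff₀ (by positivity), add_zero]
  rcases (Nat.le_of_lt_succ hr).lt_or_eq with h1 | rfl
  · obtain ⟨t, rfl⟩ := Nat.exists_eq_add_of_lt h1
    rw [add_assoc (_ * _), Nat.mul_add_div (by omega), Nat.mul_add_mod, Nat.div_eq_of_lt (by omega),
      Nat.mod_eq_of_lt (by omega), add_zero, show r + t + 1 - (r + 1) = t by omega,
      show r + t + 1 - r = t + 1 by omega]
    refine le_trans (le_of_eq ?_) (mul_le_mul_of_nonneg_right
      (le_mul_of_one_le_left (by positivity) hC) (by positivity))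
    field_simp
    ring
  · rw [show (r + 1) * l + r + 1 = (r + 1) * (l + 1) by ring, Nat.mul_div_cancel_left _ r.succ_pos,
      Nat.mul_mod_right, Nat.sub_self, Nat.sub_zero]
    refine le_of_mul_le_mul_right (le_trans (le_of_eq ?_) ((mul_le_mul_of_nonneg_left h
      (pow_pos ha l).le).trans_eq ?_)) hq
    · ring
    · field_simp
      ring

theorem xt_last {a p q C : ℝ} {k : ℕ} (ha : 0 < a) (hp : 0 < p) (hq : 1 ≤ q) (hC : 1 ≤ C)
    (h : a * q ^ (k + 1) ≤ C * p ^ (k + 1)) (l : ℕ) :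
    a * (a ^ (l + 1) * q ^ k) ^ ex (k + 1) l ≤ C * (p / q) := by
  have e0 : ex (k + 1) l ≤ 0 := by
    rw [ex, neg_nonpos, Nat.cast_succ, add_sub_cancel_right]
    positivity
  have q0 : 0 < q := one_pos.trans_le hq
  refine (mul_le_mul_of_nonneg_left (Real.rpow_le_rpow_of_nonpos (pow_pos ha _)
    (le_mul_of_one_le_right (pow_pos ha _).le (one_le_pow₀ hq)) e0) ha.le).trans ?_
  have e1 : a * (a ^ (l + 1)) ^ ex (k + 1) l = a ^ (((k + 1 : ℕ) : ℝ)⁻¹) := by
    rw [← Real.rpow_natCast, ← Real.rpow_mul ha.le, ← Real.rpow_one_add' ha.le] <;>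
      rw [show 1 + ((l + 1 : ℕ) : ℝ) * ex (k + 1) l = ((k + 1 : ℕ) : ℝ)⁻¹ by
        simp only [ex, Nat.cast_succ]
        field_simp
        ring]
    positivity
  rw [e1, Real.rpow_inv_le_iff_of_pos ha.le (by positivity) (by positivity), Real.rpow_natCast,
    mul_pow, div_pow, ← mul_div_assoc, le_div_iff₀ (by positivity)]
  exact h.trans (mul_le_mul_of_nonneg_right (le_self_pow₀ hC k.succ_ne_zero) (by positivity))

variable {δ ν K M L : Type} [Fintype δ] [DecidableEq δ] [Fintype ν]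
  [DecidableEq ν] [Field K] [Algebra ℂ K] [Field M] [Algebra ℂ M] [Algebra K M]
  [IsScalarTower ℂ K M] [Field L] [Algebra ℂ L]

/-- a function that vanishes on the slice is killed by the specialisation -/
theorem Spc.zero {X : Cht (δ ⊕ ν) M} {w0 : δ → ℂ} {φ : X.O →ₐ[ℂ] L} (h : Spc X w0 φ) {a : X.O}
    (ha : ∀ p : Pt X.O, qd X.D w0 p = 0 → p a = 0) : φ a = 0 := by
  by_contra h0
  obtain ⟨p, h1, h2⟩ := Pt.exists_zero_ne (h := a) (I := Ideal.span
    (range fun k => X.z (Sum.inl k) - algebraMap ℂ X.O (w0 k))) fun ⟨n, hn⟩ => h0 (by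
      have h3 : a ^ n ∈ RingHom.ker φ := Ideal.span_le.2 (by
        rintro _ ⟨k, rfl⟩
        simp [RingHom.mem_ker, h.base]) hn
      exact eq_zero_of_pow_eq_zero ((map_pow φ a n).symm.trans h3))
  refine h2 (ha p (qd_eq_zero.2 fun k => ?_))
  simpa [X.π_eq, sub_eq_zero] using h1 _ (Ideal.subset_span ⟨k, rfl⟩)

/-- extension of pluricanonical forms -/
theorem Spc.ext {X : Cht (δ ⊕ ν) M} {w0 : δ → ℂ} {φ : X.O →ₐ[ℂ] L} (h : Spc X w0 φ)
    (hL : SmoothModel ℂ L) {y : δ → K} (hy : IsTranscendenceBasis ℂ y)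
    (hz : ∀ i, (X.z (Sum.inl i) : M) = algebraMap K M (y i)) {dx : ν → Derivation K M M}
    (hx : Dual K (fun i => (X.z (Sum.inr i) : M)) dx) {d : ν → Derivation ℂ L L}
    (hd : Dual ℂ (fun i => φ (X.z (Sum.inr i))) d) {m : ℕ} (hm : 0 < m) {u : L} (hu : Plu d m u) :
    ∃ a s : X.O, φ s ≠ 0 ∧ Plu dx m ((a : M) / s) ∧ φ a = u * φ s := by
  classical
  have : CharZero K := charZero_of_injective_algebraMap (algebraMap ℂ K).injective
  by_cases u0 : u = 0
  · exact ⟨0, 1, by simp, fun O hO => ⟨0, fun _ => zero_mem _, 0, zero_mem _, by simp⟩, by simp [u0]⟩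
  obtain ⟨k, rfl⟩ := Nat.exists_eq_add_one_of_ne_zero hm.ne'
  obtain ⟨n, P, Q, C, hC, hI, hg⟩ := gen hd hL hm hu
  obtain ⟨X', g, H, φ', e1, g0, e2, h', hs, hi⟩ :=
    h.loc (insert u (Finset.univ.image P ∪ Finset.univ.image Q))
  obtain ⟨u', hu'⟩ := hs u (Finset.mem_insert_self _ _)
  choose P' hP using fun j => hs (P j) (by simp)
  choose Q' hQ using fun j => hs (Q j) (by simp)
  obtain ⟨c, hc, hsl⟩ := h'.sl_le hi
  have hc' : ∀ i, (c.z i : L) = φ (X.z (Sum.inr i)) := fun i => by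
    rw [hc, ← e2]
    exact congrArg φ' (Subtype.ext (e1 _))
  let f : ℕ → (Fin k → Fin n) → X'.O := fun N j => u' ^ (N / (k + 1)) *
    ∏ i : Fin k, if (i : ℕ) < N % (k + 1) then P' (j i) else Q' (j i)
  have hf : ∀ N, ∀ᶠ e in gnr L, sq (fun j => e (φ' (f N j))) = ENNReal.ofReal
      ((‖e u‖ ^ 2) ^ (N / (k + 1)) * ((∑ j, ‖e (P j)‖ ^ 2) ^ (N % (k + 1)) *
        (∑ j, ‖e (Q j)‖ ^ 2) ^ (k - N % (k + 1)))) := fun N => by
    filter_upwards [gnr.pow u (N / (k + 1)), eventually_all.2 fun j : Fin k → Fin n =>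
      (gnr.mul (u ^ (N / (k + 1))) (∏ i : Fin k,
        if (i : ℕ) < N % (k + 1) then P (j i) else Q (j i))).and (gnr.prod Finset.univ fun i : Fin k =>
        if (i : ℕ) < N % (k + 1) then P (j i) else Q (j i))] with e a1 a2
    rw [← xt_sum, sq]
    refine congrArg _ (Finset.sum_congr rfl fun j _ => ?_)
    simp only [f, map_mul, map_pow, map_prod, apply_ite φ', hu', hP, hQ, (a2 j).1, (a2 j).2, a1,
      apply_ite e]
  have hg' : ∀ᶠ e in gnr L, 0 < ‖e u‖ ^ 2 ∧ 0 < ∑ j, ‖e (P j)‖ ^ 2 ∧ 1 ≤ ∑ j, ‖e (Q j)‖ ^ 2 ∧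
      ‖e u‖ ^ 2 * (∑ j, ‖e (Q j)‖ ^ 2) ^ (k + 1) ≤
        (C.toReal + 1) * (∑ j, ‖e (P j)‖ ^ 2) ^ (k + 1) := by
    filter_upwards [hg, gnr.ne u0] with e he h0
    have a0 : 0 < ‖e u‖ ^ 2 := by positivity
    have q1 := ENNReal.one_le_ofReal.1 he.1
    have h1 := ENNReal.toReal_mono (ENNReal.mul_ne_top hC
      (ENNReal.pow_ne_top ENNReal.ofReal_ne_top)) he.2
    simp only [sq, ENNReal.toReal_mul, ENNReal.toReal_pow] at h1
    rw [ENNReal.toReal_ofReal a0.le, ENNReal.toReal_ofReal (by positivity),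
      ENNReal.toReal_ofReal (by positivity)] at h1
    refine ⟨a0, lt_of_le_of_ne (by positivity) fun h2 => ?_, q1, h1.trans (by gcongr; linarith)⟩
    rw [← h2, zero_pow k.succ_ne_zero, mul_zero] at h1
    exact h1.not_gt (by positivity)
  have C1 : 1 ≤ C.toReal + 1 := le_add_of_nonneg_left ENNReal.toReal_nonneg
  have key : ∀ G : (X'.O → ℂ) → ℝ≥0∞, Measurable G → (∀ᶠ e in gnr L, G (fun a => e (φ' a)) ≤
      ENNReal.ofReal ((C.toReal + 1) * ((∑ j, ‖e (P j)‖ ^ 2) / ∑ j, ‖e (Q j)‖ ^ 2))) →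
      sl X'.D w0 (fun p => G p) ≤ ENNReal.ofReal (C.toReal + 1) * C := fun G hG hb => by
    refine (hsl G hG).trans ((lintegral_mono_ae ((c.D.ae_of_gen (c.of_gnr (hb.and hg'))).mono
      fun p hp => hp.1.trans_eq ?_)).trans ((lintegral_const_mul' _ _ ENNReal.ofReal_ne_top).trans_le
        (mul_le_mul_right (hI c hc') _)))
    rw [ENNReal.ofReal_mul (zero_le_one.trans C1), ENNReal.ofReal_div_of_pos
      (one_pos.trans_le hp.2.2.2.1), div_eq_mul_inv]
    rfl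
  obtain ⟨U, V, G, κ, C', hT, hκ, hV, hG⟩ := tower X' w0 hm f u'
    (ENNReal.mul_ne_top ENNReal.ofReal_ne_top hC)
    (fun N => key (fun e => sq (fun j => e (f (N + 1) j)) * (sq fun j => e (f N j))⁻¹)
      (by unfold sq; fun_prop) (by
        filter_upwards [hf N, hf (N + 1), hg'] with e a1 a2 ⟨b1, b2, b3, b4⟩
        have b5 := one_pos.trans_le b3
        rw [a1, a2, ← div_eq_mul_inv, ← ENNReal.ofReal_div_of_pos (by positivity)]
        exact ENNReal.ofReal_le_ofReal (xt_step b1 b2 b5 C1 b4 N)))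
    fun l => key (fun e => ENNReal.ofReal (‖e u'‖ ^ 2) *
      (sq fun j => e (f ((l + 1) * (k + 1)) j)) ^ ex (k + 1) l) (by unfold sq; fun_prop) (by
        filter_upwards [hf ((l + 1) * (k + 1)), hg'] with e a1 ⟨b1, b2, b3, b4⟩
        have b5 := one_pos.trans_le b3
        rw [a1, hu', Nat.mul_div_cancel _ k.succ_pos, Nat.mul_mod_left, pow_zero, one_mul,
          Nat.sub_zero, ENNReal.ofReal_rpow_of_pos (by positivity), ← ENNReal.ofReal_mul b1.le]
        exact ENNReal.ofReal_le_ofReal (xt_last b1 b2 b3 C1 b4 l))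
  obtain ⟨e, a, ha⟩ := H.inl G G.2
  have g1 : ((g ^ e : X.O) : M) ≠ 0 := fun h0 => pow_ne_zero e H.ne (Subtype.ext h0)
  refine ⟨a, g ^ e, by simpa using fun h0 => absurd h0 g0, fun O hO => ?_, ?_⟩
  · rw [← ha, mul_div_cancel_right₀ _ g1]
    obtain ⟨w, i0, hw⟩ := hO.exists_adp (trdeg_of_basis hx.basis)
    obtain ⟨dK, hK⟩ := Dual.exists hy
    have hM : Dual ℂ (Sum.elim (fun i => algebraMap K M (y i)) fun i => (X.z (Sum.inr i) : M))
        X'.der := by
      convert X'.dual using 1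
      ext (i | i)
      exacts [((e1 _).trans (hz i)).symm, (e1 _).symm]
    have h1 := (pole X' hm (hw.horiz hy)
      (t := fun i => X'.z (Sum.inl i) - algebraMap ℂ X'.O (w0 i)) (fun i => ?_)
      (Fintype.card δ + 2) (by simpa only [qd, X'.π_eq, map_sub, Pt.map_alg] using hT)
      hκ hV).le_adp (hw.horiz hy)
    · have e3 := hK.jac_split hx hM y w
      rw [hK.jac_one, map_one, one_mul] at e3
      exact (hw.regI_iff _ _).2 (h1.trans_eq (congrArg (fun x => O.valuation x ^ (k + 1)) e3))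
    · have e3 : ((X'.z (Sum.inl i) - algebraMap ℂ X'.O (w0 i) : X'.O) : M) =
          algebraMap K M (y i - algebraMap ℂ K (w0 i)) := by
        rw [map_sub, ← hz, ← e1, ← IsScalarTower.algebraMap_apply]
        rfl
      exact e3 ▸ hO.const _
  · have h1 := h'.zero (a := G - u') fun p hp => by rw [map_sub, hG p hp, sub_self]
    rw [map_sub, sub_eq_zero, hu'] at h1
    rw [← e2, ← e2, ← h1, ← map_mul]
    exact congrArg φ' (Subtype.ext ha.symm)

end Si

end Pool.Agent.Lib.MP_5c318e_ag
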