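import Pool.Agent.Lib.MP_5c318e_ag.Si.IDefs
import Pool.Agent.Lib.MP_5c318e_ag.S.Gnr
import Pool.Agent.Lib.MP_5c318e_ag.S.LocA
import Pool.Agent.Lib.MP_5c318e_ag.S.AFrm
import Pool.Agent.Lib.MP_5c318e_ag.Me.Der

/-! An integrable rational density that dominates a pluricanonical form. -/

set_option autoImplicit false
set_option linter.unusedSectionVars false

namespace Pool.Agent.Lib.MP_5c318e_ag

open MeasureTheory Set Filter Topology
open scoped ENNReal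

namespace Si

variable {ν L : Type} [Fintype ν] [DecidableEq ν] [Field L] [Algebra ℂ L]

/-- sums of squares at the general point -/
def Gs (W : (L → ℂ) → ℝ) : Prop :=
  ∃ (κ : Type) (_ : Fintype κ) (P : κ → L), ∀ᶠ e in gnr L, ∑ j, ‖e (P j)‖ ^ 2 = W e

namespace Gs

variable {W W' : (L → ℂ) → ℝ}

theorem fam {κ : Type} [Fintype κ] (P : κ → L) : Gs fun e => ∑ j, ‖e (P j)‖ ^ 2 :=
  ⟨κ, inferInstance, P, .of_forall fun _ => rfl⟩

theorem sq (a : L) : Gs fun e => ‖e a‖ ^ 2 := by simpa using fam fun _ : Unit => a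

theorem one : Gs fun _ : L → ℂ => 1 :=
  ⟨Unit, inferInstance, fun _ => 1, gnr.one.mono fun e h => by simp [h]⟩

theorem add (h : Gs W) (h' : Gs W') : Gs fun e => W e + W' e := by
  obtain ⟨κ, _, P, h⟩ := h
  obtain ⟨κ', _, P', h'⟩ := h'
  exact ⟨κ ⊕ κ', inferInstance, Sum.elim P P', (h.and h').mono fun e he => by
    simp [← he.1, ← he.2]⟩

theorem mul (h : Gs W) (h' : Gs W') : Gs fun e => W e * W' e := by
  obtain ⟨κ, _, P, h⟩ := h
  obtain ⟨κ', _, P', h'⟩ := h'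
  refine ⟨κ × κ', inferInstance, fun x => P x.1 * P' x.2, ?_⟩
  filter_upwards [h, h', eventually_all.2 fun x : κ × κ' => gnr.mul (P x.1) (P' x.2)] with e a b c
  simp only [← a, ← b, c, norm_mul, mul_pow, Fintype.sum_prod_type, Finset.sum_mul_sum]

theorem pow (h : Gs W) (n : ℕ) : Gs fun e => W e ^ n := by
  induction n with
  | zero => simpa using one
  | succ n ih => simpa only [pow_succ] using ih.mul h

theorem sum {κ : Type} (s : Finset κ) {V : κ → (L → ℂ) → ℝ} (h : ∀ i, Gs (V i)) :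
    Gs fun e => ∑ i ∈ s, V i e := by
  classical
  induction s using Finset.induction_on with
  | empty => simpa using fam (L := L) (κ := Empty) Empty.elim
  | insert i s hi ih => simpa only [Finset.sum_insert hi] using (h i).add ih

theorem prod {κ : Type} (s : Finset κ) {V : κ → (L → ℂ) → ℝ} (h : ∀ i, Gs (V i)) :
    Gs fun e => ∏ i ∈ s, V i e := by
  classical
  induction s using Finset.induction_on with
  | empty => simpa using one
  | insert i s hi ih => simpa only [Finset.prod_insert hi] using (h i).mul ih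

theorem two (h : Gs W) (h' : Gs W') : ∃ (n : ℕ) (P Q : Fin n → L), ∀ᶠ e in gnr L,
    Si.sq (fun j => e (P j)) = ENNReal.ofReal (W e) ∧
      Si.sq (fun j => e (Q j)) = ENNReal.ofReal (W' e) := by
  obtain ⟨κ, _, P, h⟩ := h
  obtain ⟨κ', _, P', h'⟩ := h'
  let σ := (Fintype.equivFin (κ ⊕ κ')).symm
  refine ⟨_, fun j => Sum.elim P 0 (σ j), fun j => Sum.elim 0 P' (σ j), ?_⟩
  filter_upwards [h, h', gnr.zero] with e a b c
  rw [Si.sq, Si.sq, σ.sum_comp fun j => ‖e (Sum.elim P 0 j)‖ ^ 2,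
    σ.sum_comp fun j => ‖e (Sum.elim 0 P' j)‖ ^ 2]
  simp [a, b, c]

end Gs

theorem gn_int (ν : Type) [Fintype ν] : ∃ N : ℕ,
    ∫⁻ w : ν → ℂ, ENNReal.ofReal (((1 + ∑ j, ‖w j‖ ^ 2) ^ N)⁻¹) ≠ ⊤ := by
  let N := Module.finrank ℝ (ν → ℂ) + 1
  have h := (integrable_rpow_neg_one_add_norm_sq (E := ν → ℂ) (μ := volume) (r := 2 * N) (by
    simp only [N]
    push_cast
    linarith [Nat.cast_nonneg (α := ℝ) (Module.finrank ℝ (ν → ℂ))])).2
  rw [hasFiniteIntegral_iff_ofReal (.of_forall fun z => by positivity)] at h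
  refine ⟨N, ne_top_of_le_ne_top h.ne (lintegral_mono fun w => ENNReal.ofReal_le_ofReal ?_)⟩
  rw [show -(2 * (N : ℝ)) / 2 = -(N : ℝ) by ring, Real.rpow_neg (by positivity), Real.rpow_natCast]
  have h1 : ‖w‖ ≤ √(∑ j, ‖w j‖ ^ 2) := (pi_norm_le_iff_of_nonneg (Real.sqrt_nonneg _)).2 fun j =>
    Real.le_sqrt_of_sq_le (Finset.single_le_sum (f := fun j => ‖w j‖ ^ 2)
      (fun _ _ => by positivity) (Finset.mem_univ j))
  have h2 := (Real.le_sqrt (norm_nonneg _) (by positivity)).1 h1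
  gcongr

/-- an integrable density `P / Q` that dominates the form -/
theorem gen {x : ν → L} {d : ν → Derivation ℂ L L} (hd : Dual ℂ x d) (hL : SmoothModel ℂ L) {m : ℕ}
    (hm : 0 < m) {u : L} (hu : Plu d m u) : ∃ (n : ℕ) (P Q : Fin n → L) (C : ℝ≥0∞), C ≠ ⊤ ∧
      (∀ c : Cht ν L, (∀ i, (c.z i : L) = x i) →
        ∫⁻ p, sq (fun j => p.ev (P j)) * (sq fun j => p.ev (Q j))⁻¹ ∂c.D.μ ≤ C) ∧
      ∀ᶠ e in gnr L, 1 ≤ sq (fun j => e (Q j)) ∧
        ENNReal.ofReal (‖e u‖ ^ 2) * sq (fun j => e (Q j)) ^ m ≤ C * sq (fun j => e (P j)) ^ m := by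
  classical
  obtain ⟨Fr⟩ := hL.frames hd
  obtain ⟨N, hN⟩ := gn_int ν
  obtain ⟨s, t, n0, H⟩ := Front.cert Fr hm hu
  let W : Fin Fr.N → (L → ℂ) → ℝ := fun i e => (1 + ∑ j, ‖e (Fr.f i j)‖ ^ 2) ^ N
  let J : Fin Fr.N → (L → ℂ) → ℝ := fun i e => ‖e (Jac d (Fr.f i))‖ ^ 2
  have W1 : ∀ i e, 1 ≤ W i e := fun i e => one_le_pow₀ (le_add_of_nonneg_right (by positivity))
  have W0 : ∀ i e, 0 < W i e := fun i e => one_pos.trans_le (W1 i e)
  have J0 : ∀ i e, 0 ≤ J i e := fun i e => by positivity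
  have gW : ∀ i, Gs (W i) := fun i => (Gs.one.add (Gs.fam _)).pow N
  obtain ⟨n, P, Q, hPQ⟩ := (Gs.sum Finset.univ fun i => (Gs.sq (Jac d (Fr.f i))).mul
    (Gs.prod (Finset.univ.erase i) gW)).two (Gs.prod Finset.univ gW)
  have hρ : ∀ᶠ e in gnr L, 1 ≤ sq (fun j => e (Q j)) ∧ sq (fun j => e (Q j)) ≠ ⊤ ∧
      sq (fun j => e (P j)) = (∑ i, ENNReal.ofReal (J i e) * ENNReal.ofReal (W i e)⁻¹) *
        sq fun j => e (Q j) := hPQ.mono fun e he => by
    rw [he.1, he.2]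
    refine ⟨ENNReal.one_le_ofReal.2 (Finset.one_le_prod fun i _ => W1 i e),
      ENNReal.ofReal_ne_top, ?_⟩
    rw [Finset.sum_mul, ENNReal.ofReal_sum_of_nonneg fun i _ =>
      mul_nonneg (J0 i e) (Finset.prod_nonneg fun k _ => (W0 k e).le)]
    refine Finset.sum_congr rfl fun i _ => ?_
    rw [← ENNReal.ofReal_mul (J0 i e), ← ENNReal.ofReal_mul (mul_nonneg (J0 i e)
      (inv_pos.2 (W0 i e)).le), ← Finset.mul_prod_erase _ _ (Finset.mem_univ i), mul_assoc,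
      inv_mul_cancel_left₀ (W0 i e).ne']
  have hG : Measurable fun e : L → ℂ => sq (fun j => e (P j)) * (sq fun j => e (Q j))⁻¹ := by
    unfold sq
    fun_prop
  have hI : ∃ C1 : ℝ≥0∞, C1 ≠ ⊤ ∧ ∀ c : Cht ν L, (∀ i, (c.z i : L) = x i) →
      ∫⁻ p, sq (fun j => p.ev (P j)) * (sq fun j => p.ev (Q j))⁻¹ ∂c.D.μ ≤ C1 := by
    by_cases hc : ∃ c : Cht ν L, ∀ i, (c.z i : L) = x i
    swap
    · exact ⟨0, ENNReal.zero_ne_top, fun c h => (hc ⟨c, h⟩).elim⟩
    obtain ⟨c0, h0⟩ := hc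
    have e0 : c0.der = d := c0.dual.uniq (by rwa [funext h0])
    choose k hk using fun i => c0.area_gen (Fr.f i)
    refine ⟨∑ i, k i * ∫⁻ w : ν → ℂ, ENNReal.ofReal (((1 + ∑ j, ‖w j‖ ^ 2) ^ N)⁻¹),
      ENNReal.sum_ne_top.2 fun i _ => ENNReal.mul_ne_top (ENNReal.natCast_ne_top _) hN,
      fun c h => ?_⟩
    rw [Front.cht_cv c0 c hG, funext h, e0, hd.jac_one]
    refine (lintegral_mono_ae (g := fun p => ∑ i, ENNReal.ofReal (J i p.ev) *
      ENNReal.ofReal (W i p.ev)⁻¹) ((c0.D.ae_of_gen (c0.of_gnr hρ)).mono fun p hp => ?_)).trans ?_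
    · rw [hp.2.2, mul_assoc, ENNReal.mul_inv_cancel (one_pos.trans_le hp.1).ne' hp.2.1, p.ev_one]
      simp
    · refine (lintegral_finsetSum _ fun i _ =>
        (show Measurable fun e : L → ℂ => ENNReal.ofReal (J i e) * ENNReal.ofReal (W i e)⁻¹ by
          simp only [J, W]
          fun_prop).comp Pt.measurable_ev').trans_le (Finset.sum_le_sum fun i _ => ?_)
      rw [e0] at hk
      exact hk i (fun w => ENNReal.ofReal (((1 + ∑ j, ‖w j‖ ^ 2) ^ N)⁻¹)) (by fun_prop)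
  obtain ⟨C1, hC1, hI⟩ := hI
  let β : ℝ := 1 + ∑ a ∈ t, ‖a‖
  have hβ : 1 ≤ β := le_add_of_nonneg_right (by positivity)
  let R : ℝ := (n0 + 1) * β ^ n0
  let A : ℝ := (1 + ∑ _j : ν, R ^ 2) ^ N
  let C2 : ℝ≥0∞ := ENNReal.ofReal R ^ 2 * ENNReal.ofReal A
  have hb : ∀ᶠ e in gnr L, ENNReal.ofReal (‖e u‖ ^ (2 / m : ℝ)) ≤
      C2 * ∑ i, ENNReal.ofReal (J i e) * ENNReal.ofReal (W i e)⁻¹ := by
    refine ⟨s, fun B p hp => (H p.cp β hβ (fun a ha => ⟨p.loc.algebraMap_mem a, ?_⟩)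
      fun g hg => (hp g hg).1).trans ?_⟩
    · refine le_trans (le_of_eq (congrArg norm (p.ev_alg a)))
        (le_trans ?_ (le_add_of_nonneg_left zero_le_one))
      exact Finset.single_le_sum (f := fun a : ℂ => ‖a‖) (fun _ _ => norm_nonneg _) ha
    · rw [mul_assoc, Finset.mul_sum _ _ (ENNReal.ofReal A)]
      refine mul_le_mul_right (Finset.sum_le_sum fun i _ => ?_) _
      rw [mul_left_comm]
      refine mul_le_mul_right ?_ _
      by_cases hi : p.cp.ev ∈ Front.disc (Fr.f i) R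
      · rw [indicator_of_mem hi, ← ENNReal.ofReal_mul (by positivity), Pi.one_apply,
          ENNReal.one_le_ofReal, ← div_eq_mul_inv, one_le_div (W0 i _)]
        exact pow_le_pow_left₀ (by positivity) (add_le_add_right (Finset.sum_le_sum fun j _ =>
          pow_le_pow_left₀ (norm_nonneg _) (hi j) 2) 1) N
      · rw [indicator_of_notMem hi]
        exact zero_le
  refine ⟨n, P, Q, C1 + C2 ^ m, ENNReal.add_ne_top.2 ⟨hC1, ENNReal.pow_ne_top
    (ENNReal.mul_ne_top (ENNReal.pow_ne_top ENNReal.ofReal_ne_top) ENNReal.ofReal_ne_top)⟩,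
    fun c h => (hI c h).trans le_self_add, (hρ.and hb).mono fun e he => ⟨he.1.1, ?_⟩⟩
  have h1 := pow_le_pow_left' he.2 m
  rw [← ENNReal.ofReal_pow (by positivity), ← Real.rpow_natCast, ← Real.rpow_mul (norm_nonneg _),
    div_mul_cancel₀ _ (Nat.cast_ne_zero.2 hm.ne'), Real.rpow_two, mul_pow] at h1
  rw [he.1.2.2, mul_pow (∑ _, _), ← mul_assoc]
  exact mul_le_mul_left (h1.trans (mul_le_mul_left le_add_self _)) _

end Si

end Pool.Agent.Lib.MP_5c318e_ag
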