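import Pool.Agent.Lib.MP_5c318e_ag.Si.IDefs
import Pool.Agent.Lib.MP_5c318e_ag.RD.RMain

/-! A plurisubharmonic weight that kills the tail of an integral. -/

set_option autoImplicit false
set_option linter.unusedSectionVars false

namespace Pool.Agent.Lib.MP_5c318e_ag

open MeasureTheory Set Filter Topology
open scoped ENNReal
open Pool.Agent.Lib.MP_9ff3e7_ag Pool.Agent.Lib.MP_9ff3e7_ag.F

namespace Si

variable {ι : Type} [Fintype ι] [DecidableEq ι] {S : Type} [TopologicalSpace S]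
  [MeasurableSpace S] [BorelSpace S] [T2Space S] [SigmaCompactSpace S]

/-- a weight with prescribed growth -/
theorem grow_wt {D : RD ι S} {s : S → ℝ} (hs : D.Psh s) (t : ℝ) {M : ℕ → ℝ} (M0 : ∀ n, 0 ≤ M n) :
    ∃ X : S → ℝ, D.Psh X ∧ (∀ x, 0 ≤ X x) ∧ (∀ x, s x ≤ t → X x = 0) ∧
      ∀ (n : ℕ) x, t + n + 2 ≤ s x → M n ≤ X x := by
  obtain ⟨g, g1, g2, g3, g4, -, -, -, g6, -, c, -, c1, -, g7⟩ :=
    exists_ramp (a := 0) (b := 1) one_pos
  have sm : ∀ n : ℕ, D.Sm fun y => g (s y - (t + n)) := fun n =>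
    (hs.1.sub (RD.sm_const _)).comp g1
  have sm' : ∀ n : ℕ, D.Sm fun y => M n * g (s y - (t + n)) := fun n =>
    (RD.sm_const _).mul (sm n)
  have ev : ∀ x, ∃ N : ℕ, s x < t + N ∧ (fun y => ∑' n : ℕ, M n * g (s y - (t + n))) =ᶠ[𝓝 x]
      fun y => ∑ n ∈ Finset.range N, M n * g (s y - (t + n)) := fun x => by
    obtain ⟨N, hN⟩ := exists_nat_gt (s x - t)
    have h1 : s x < t + N := by linarith
    refine ⟨N, h1, ?_⟩
    filter_upwards [hs.1.cont.continuousAt.eventually (gt_mem_nhds h1)] with y hy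
    refine tsum_eq_sum fun n hn => ?_
    have : (N : ℝ) ≤ n := by exact_mod_cast not_lt.1 (mt Finset.mem_range.2 hn)
    rw [g2 _ (by linarith), mul_zero]
  have l0 : ∀ (n : ℕ) x ξ, 0 ≤ D.levi (fun y => M n * g (s y - (t + n))) x ξ := fun n x ξ => by
    rw [RD.levi_cmul _ (sm n), RD.levi_comp (hs.1.sub (RD.sm_const _)) x
      (g1.contDiffAt.of_le (by norm_cast)), RD.levi_sub_const hs.1]
    exact mul_nonneg (M0 n) (add_nonneg (mul_nonneg (g4 _) (hs.2 x ξ))
      (mul_nonneg (g6 _) (sq_nonneg _)))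
  refine ⟨fun y => ∑' n : ℕ, M n * g (s y - (t + n)), ⟨RD.sm_of_ev fun x => ?_, fun x ξ => ?_⟩,
    fun x => tsum_nonneg fun n => mul_nonneg (M0 n) (g3 _), fun x hx => ?_, fun n x hx => ?_⟩
  · obtain ⟨N, -, h⟩ := ev x
    exact ⟨_, RD.sm_sum _ fun n _ => sm' n, h⟩
  · obtain ⟨N, -, h⟩ := ev x
    rw [RD.levi_congr h, RD.levi_sum _ fun n _ => sm' n]
    exact Finset.sum_nonneg fun n _ => l0 n x ξ
  · have : ∀ n : ℕ, M n * g (s x - (t + n)) = 0 := fun n => by
      rw [g2 _ (by linarith [n.cast_nonneg (α := ℝ)]), mul_zero]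
    simp only [this, tsum_zero]
  · obtain ⟨N, hN, h⟩ := ev x
    have m : n ∈ Finset.range N :=
      Finset.mem_range.2 (by exact_mod_cast (by linarith : (n : ℝ) < N))
    rw [h.self_of_nhds]
    refine le_trans ?_ (Finset.single_le_sum (f := fun n : ℕ => M n * g (s x - (t + n)))
      (fun n _ => mul_nonneg (M0 n) (g3 _)) m)
    exact le_mul_of_one_le_right (M0 n) (by linarith [g7 (s x - (t + n))])

theorem grow {D : RD ι S} {s : S → ℝ} (hs : D.Exh s) {G : S → ℝ} (hG : Continuous G) (t : ℝ)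
    {η : ℝ≥0∞} (hη : η ≠ 0) : ∃ X : S → ℝ, D.Psh X ∧ (∀ x, 0 ≤ X x) ∧ (∀ x, s x ≤ t → X x = 0) ∧
      ∫⁻ x in {x | t + 2 ≤ s x}, ENNReal.ofReal (G x * Real.exp (-X x)) ∂D.μ ≤ η := by
  obtain ⟨e, e0, he⟩ := ENNReal.exists_pos_sum_of_countable hη ℕ
  choose B hB using fun n : ℕ => (hs.2 (t + n + 3)).exists_bound_of_continuousOn hG.continuousOn
  let v : ℕ → ℝ := fun n => (D.μ {x | s x ≤ t + n + 3}).toReal
  have v0 : ∀ n, 0 ≤ v n := fun _ => ENNReal.toReal_nonneg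
  have e1 : ∀ n, (0 : ℝ) < e n := fun n => e0 n
  obtain ⟨X, X1, X2, X3, X4⟩ := grow_wt hs.1 t (M := fun n => |B n| * v n / e n) fun n =>
    div_nonneg (mul_nonneg (abs_nonneg _) (v0 n)) (e1 n).le
  refine ⟨X, X1, X2, X3, le_trans ?_ he.le⟩
  have cv : {x | t + 2 ≤ s x} ⊆ ⋃ n : ℕ, {x | t + n + 2 ≤ s x} ∩ {x | s x ≤ t + n + 3} :=
    fun x hx => by
      have hx : t + 2 ≤ s x := hx
      have a := Nat.floor_le (sub_nonneg.2 hx)
      have b := Nat.lt_floor_add_one (s x - (t + 2))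
      exact mem_iUnion.2 ⟨⌊s x - (t + 2)⌋₊, by
        simp only [mem_ofPred_eq]; linarith, by simp only [mem_ofPred_eq]; linarith⟩
  refine (lintegral_mono_set cv).trans ((lintegral_iUnion_le _ _).trans
    (ENNReal.tsum_le_tsum fun n => ?_))
  have ms : MeasurableSet ({x | t + n + 2 ≤ s x} ∩ {x | s x ≤ t + n + 3}) :=
    ((isClosed_le continuous_const hs.1.1.cont).inter
      (isClosed_le hs.1.1.cont continuous_const)).measurableSet
  refine (setLIntegral_mono' ms (g := fun _ =>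
    ENNReal.ofReal (|B n| * Real.exp (-(|B n| * v n / e n)))) fun x hx => ?_).trans ?_
  · refine ENNReal.ofReal_le_ofReal (mul_le_mul
      ((le_abs_self _).trans ((hB n x hx.2).trans (le_abs_self _)))
      (Real.exp_le_exp.2 (neg_le_neg (X4 n x hx.1))) (Real.exp_pos _).le (abs_nonneg _))
  · rw [setLIntegral_const]
    refine (mul_le_mul_right (measure_mono inter_subset_right) _).trans ?_
    rw [← ENNReal.ofReal_toReal (hs.2 (t + n + 3)).measure_lt_top.ne,
      ← ENNReal.ofReal_mul (by positivity), ← ENNReal.ofReal_coe_nnreal]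
    refine ENNReal.ofReal_le_ofReal ?_
    change |B n| * Real.exp (-(|B n| * v n / e n)) * v n ≤ e n
    have := Real.add_one_le_exp (|B n| * v n / e n)
    rw [Real.exp_neg, mul_right_comm, ← div_eq_mul_inv, div_le_iff₀ (Real.exp_pos _),
      ← div_le_iff₀' (e1 n)]
    linarith

end Si

end Pool.Agent.Lib.MP_5c318e_ag
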