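import Pool.Agent.Lib.MP_5c318e_ag.S.ADefs

/-! Slices of Riemann domains, towers of extensions, specialisation of a chart. -/

set_option autoImplicit false

namespace Pool.Agent.Lib.MP_5c318e_ag

open MeasureTheory
open scoped ENNReal

noncomputable section

namespace Si

section rd

variable {δ ν : Type} [Fintype δ] [Fintype ν] {S : Type} [TopologicalSpace S] [MeasurableSpace S]

/-- the squared distance to the slice `y = w0` -/
def qd (D : RD (δ ⊕ ν) S) (w0 : δ → ℂ) (x : S) : ℝ := ∑ k, ‖D.π x (Sum.inl k) - w0 k‖ ^ 2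

/-- the integral over the slice `y = w0` -/
def sl (D : RD (δ ⊕ ν) S) (w0 : δ → ℂ) (G : S → ℝ≥0∞) : ℝ≥0∞ :=
  ∫⁻ a : ν → ℂ, ∑' p : D.π ⁻¹' {Sum.elim w0 a}, G p

end rd

/-- a sum of squares -/
def sq {I : Type} [Fintype I] (u : I → ℂ) : ℝ≥0∞ := ENNReal.ofReal (∑ j, ‖u j‖ ^ 2)

/-- the exponent of the last extension -/
def ex (m k : ℕ) : ℝ := -((m - 1) / (m * (k + 1)))

/-- the bounds of a tower `U 0, U 1, ...` and of the last extensions `V k` -/
structure Tow {S I : Type} [MeasurableSpace S] [Fintype I] (μ : Measure S) (m : ℕ) (ρ : S → ℝ≥0∞)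
    (U : ℕ → S → I → ℂ) (V : ℕ → S → ℂ) (C : ℝ≥0∞) : Prop where
  ne : C ≠ ⊤
  step : ∀ N, ∫⁻ x, sq (U (N + 1) x) * (sq (U N x))⁻¹ * ρ x ∂μ ≤ C
  last : ∀ k, ∫⁻ x, ENNReal.ofReal (‖V k x‖ ^ 2) * sq (U ((k + 1) * m) x) ^ ex m k * ρ x ∂μ ≤ C

/-- `φ` maps the ring of the chart `X` to the function field `L` of a component of the slice
`y = w0` -/
structure Spc {δ ν M L : Type} [Fintype δ] [DecidableEq δ] [Fintype ν] [DecidableEq ν] [Field M]
    [Algebra ℂ M] [Field L] [Algebra ℂ L] (X : Cht (δ ⊕ ν) M) (w0 : δ → ℂ) (φ : X.O →ₐ[ℂ] L) :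
    Prop where
  base : ∀ i, φ (X.z (Sum.inl i)) = algebraMap ℂ L (w0 i)
  basis : IsTranscendenceBasis ℂ fun i => φ (X.z (Sum.inr i))
  frac : ∀ v : L, ∃ a s : X.O, φ s ≠ 0 ∧ φ a = v * φ s

end Si

end

end Pool.Agent.Lib.MP_5c318e_ag
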