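import Pool.Agent.Lib.MP_5c318e_ag.Si.Der
import Pool.Agent.Lib.MP_5c318e_ag.Si.Ext

/-! The Kodaira dimension of a component of a slice is at most that of the generic fibre. -/

set_option autoImplicit false
set_option linter.unusedSectionVars false

namespace Pool.Agent.Lib.MP_5c318e_ag

namespace Si

variable {δ ν K M L : Type} [Fintype δ] [DecidableEq δ] [Fintype ν]
  [DecidableEq ν] [Field K] [Algebra ℂ K] [Field M] [Algebra ℂ M] [Algebra K M]
  [IsScalarTower ℂ K M] [Field L] [Algebra ℂ L]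

theorem Spc.kod_le {X : Cht (δ ⊕ ν) M} {w0 : δ → ℂ} {φ : X.O →ₐ[ℂ] L} (h : Spc X w0 φ)
    (hL : SmoothModel ℂ L) {y : δ → K} (hy : IsTranscendenceBasis ℂ y)
    (hz : ∀ i, (X.z (Sum.inl i) : M) = algebraMap K M (y i)) : kod ℂ L ≤ kod K M := by
  have : CharZero K := charZero_of_injective_algebraMap (algebraMap ℂ K).injective
  obtain ⟨d, hd⟩ := Dual.exists h.basis
  obtain ⟨dx, hx⟩ := Dual.exists (basis_fib hy hz)
  by_cases hne : kod ℂ L = ⊥
  · simp [hne]
  obtain ⟨n, hn, -⟩ := kod_eq_nat hd.isFr hne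
  obtain ⟨m, hm, ψ, ψ0, hψ, v, hv, hvψ⟩ := (le_kod_iff hd.isFr).1 hn.ge
  obtain ⟨a0, s0, hs0, p0, e0⟩ := h.ext hL hy hz hx hd hm ((plu_iff hd.isFr).2 hψ)
  choose a s hs p e using fun i => h.ext hL hy hz hx hd hm ((plu_iff hd.isFr).2 (hvψ i))
  have ne : ∀ {c : X.O}, φ c ≠ 0 → (c : M) ≠ 0 := fun {c} hc h0 =>
    hc (by rw [show c = 0 from Subtype.ext h0, map_zero])
  have ha0 : φ a0 ≠ 0 := e0 ▸ mul_ne_zero ψ0 hs0
  rw [hn]
  refine (le_kod_iff hx.isFr).2 ⟨m, hm, a0 / s0, div_ne_zero (ne ha0) (ne hs0),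
    (plu_iff hx.isFr).1 p0, _, h.indep hy hz hv (a := fun i => a i * s0) (s := fun i => s i * a0)
      (fun i => by rw [map_mul]; exact mul_ne_zero (hs i) ha0)
      (fun i => by rw [map_mul, map_mul, e, e0]; ring), fun i => ?_⟩
  have : ((a i * s0 : X.O) : M) / (s i * a0 : X.O) * (a0 / s0) = a i / s i := by
    have := ne ha0
    have := ne hs0
    have := ne (hs i)
    push_cast
    field_simp
  rw [this]
  exact (plu_iff hx.isFr).1 (p i)

end Si

end Pool.Agent.Lib.MP_5c318e_ag
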