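import Pool.Agent.Lib.MP_5c318e_ag.Si.IDefs
import Pool.Agent.Lib.MP_5c318e_ag.S.Loc

/-! A general fibre of a map of affine models is a slice of a chart. -/

set_option autoImplicit false

namespace Pool.Agent.Lib.MP_5c318e_ag

open Set MvPolynomial

namespace Si

section alg

variable {k F ι : Type} [Field k] [Field F] [Algebra k F]

theorem alg_of_int (v : ι → F) (h : ∀ w : F, ∃ a s : F, s ≠ 0 ∧ w * s = a ∧
    (aeval v : MvPolynomial ι k →ₐ[k] F).toRingHom.IsIntegralElem a ∧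
    (aeval v : MvPolynomial ι k →ₐ[k] F).toRingHom.IsIntegralElem s) :
    Algebra.IsAlgebraic (Algebra.adjoin k (range v)) F := by
  have H : ∀ a : F, (aeval v : MvPolynomial ι k →ₐ[k] F).toRingHom.IsIntegralElem a →
      IsAlgebraic (Algebra.adjoin k (range v)) a := by
    rintro a ⟨p, hp, e⟩
    let f : MvPolynomial ι k →ₐ[k] Algebra.adjoin k (range v) :=
      (aeval v).codRestrict _ fun q => by
        rw [Algebra.adjoin_range_eq_range_aeval]
        exact ⟨q, rfl⟩
    refine IsIntegral.isAlgebraic ⟨p.map f.toRingHom, hp.map _, ?_⟩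
    rw [Polynomial.eval₂_map]
    exact e
  refine ⟨fun w => ?_⟩
  obtain ⟨a, s, hs, e, ha, hs'⟩ := h w
  rw [show w = a * s⁻¹ by rw [← e, mul_inv_cancel_right₀ hs]]
  exact (H a ha).mul (H s hs').inv

theorem noe (R : Subalgebra k F) (hR : R.FG) : ∃ (n : ℕ) (x : Fin n → F), (∀ i, x i ∈ R) ∧
    Function.Injective (aeval x : MvPolynomial (Fin n) k →ₐ[k] F) ∧
    ∀ a ∈ R, (aeval x : MvPolynomial (Fin n) k →ₐ[k] F).toRingHom.IsIntegralElem a := by
  have := (Subalgebra.fg_iff_finiteType R).1 hR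
  obtain ⟨n, g, hg, hi⟩ := exists_integral_inj_algHom_of_fg k R
  have e : (aeval fun i => (g (X i) : F) : MvPolynomial (Fin n) k →ₐ[k] F) = R.val.comp g :=
    algHom_ext fun i => by simp
  refine ⟨n, fun i => g (X i), fun i => (g (X i)).2, ?_, fun a ha => ?_⟩
  · rw [e]
    exact Subtype.val_injective.comp hg
  · rw [e]
    obtain ⟨p, hp, h0⟩ := hi ⟨a, ha⟩
    refine ⟨p, hp, ?_⟩
    have := congrArg R.val.toRingHom h0
    rw [Polynomial.hom_eval₂, map_zero] at this
    exact this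

theorem noe_scale {x : ι → F} (c : ι → k) (hc : ∀ i, c i ≠ 0)
    (hi : Function.Injective (aeval x : MvPolynomial ι k →ₐ[k] F)) :
    Function.Injective (aeval fun i => c i • x i : MvPolynomial ι k →ₐ[k] F) ∧
    ∀ a, (aeval x : MvPolynomial ι k →ₐ[k] F).toRingHom.IsIntegralElem a →
      (aeval fun i => c i • x i : MvPolynomial ι k →ₐ[k] F).toRingHom.IsIntegralElem a := by
  let s : MvPolynomial ι k →ₐ[k] MvPolynomial ι k := aeval fun i => c i • X i
  let t : MvPolynomial ι k →ₐ[k] MvPolynomial ι k := aeval fun i => (c i)⁻¹ • X i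
  have ts : t.comp s = AlgHom.id k _ := algHom_ext fun i => by
    simp [s, t, smul_smul, mul_inv_cancel₀ (hc i)]
  have e1 : (aeval fun i => c i • x i : MvPolynomial ι k →ₐ[k] F) = (aeval x).comp s :=
    algHom_ext fun i => by simp [s]
  have e2 : (aeval fun i => c i • x i : MvPolynomial ι k →ₐ[k] F).comp t = aeval x :=
    algHom_ext fun i => by simp [t, smul_smul, inv_mul_cancel₀ (hc i)]
  refine ⟨?_, ?_⟩
  · rw [e1]
    exact hi.comp (Function.LeftInverse.injective (g := t) fun q => DFunLike.congr_fun ts q)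
  · rintro a ⟨p, hp, h0⟩
    refine ⟨p.map t.toRingHom, hp.map _, ?_⟩
    rw [Polynomial.eval₂_map, ← h0, ← e2]
    rfl

theorem basis_of_int {x : ι → F} (hi : Function.Injective (aeval x : MvPolynomial ι k →ₐ[k] F))
    {R : Set F} (hR : ∀ w : F, ∃ a ∈ R, ∃ s ∈ R, s ≠ 0 ∧ w * s = a)
    (h : ∀ a ∈ R, (aeval x : MvPolynomial ι k →ₐ[k] F).toRingHom.IsIntegralElem a) :
    IsTranscendenceBasis k x :=
  (algebraicIndependent_iff_injective_aeval.2 hi).isTranscendenceBasis_iff_isAlgebraic.2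
    (alg_of_int x fun w => by
      obtain ⟨a, ha, s, hs, h0, e⟩ := hR w
      exact ⟨a, s, h0, e, h a ha, h s hs⟩)

theorem frac_of (A : Subalgebra k F) [IsFractionRing A F] (w : F) :
    ∃ a b : A, b ≠ 0 ∧ w * b = a := by
  obtain ⟨a, b, hb, e⟩ := IsFractionRing.div_surjective (A := A) w
  have h0 : b ≠ 0 := nonZeroDivisors.ne_zero hb
  refine ⟨a, b, h0, ?_⟩
  rw [← e]
  exact div_mul_cancel₀ _ fun h => h0 (Subtype.ext h)

theorem fg_top_of (A : Subalgebra k F) (hA : A.FG) (h : ∀ w : F, ∃ a b : A, b ≠ 0 ∧ w * b = a) :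
    (⊤ : IntermediateField k F).FG := by
  obtain ⟨s, hs⟩ := hA
  refine ⟨s, eq_top_iff.2 fun w _ => ?_⟩
  obtain ⟨a, b, h0, e⟩ := h w
  have hl : A ≤ (IntermediateField.adjoin k (s : Set F)).toSubalgebra :=
    hs ▸ IntermediateField.algebra_adjoin_le_adjoin k _
  rw [show w = a / b from (eq_div_iff fun h => h0 (Subtype.ext h)).2 e]
  exact div_mem (hl a.2) (hl b.2)

end alg

variable {K M : Type} [Field K] [Algebra ℂ K] [Field M] [Algebra ℂ M] [Algebra K M]
  [IsScalarTower ℂ K M]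

/-- Noether normalisation over a dense open set of the base -/
theorem gen_noe (B : Subalgebra ℂ K) (A : Subalgebra ℂ M) (hA : A.FG) [IsFractionRing B K]
    [IsFractionRing A M] (inc : B →ₐ[ℂ] A) (hinc : ∀ a, (inc a : M) = algebraMap K M a) :
    ∃ (n : ℕ) (x : Fin n → A) (g : B), g ≠ 0 ∧ IsTranscendenceBasis K (fun i => (x i : M)) ∧
      Function.Injective (eval₂Hom (inc : B →+* A) x) ∧
      ∀ a : A, ∃ N : ℕ, (eval₂Hom (inc : B →+* A) x).IsIntegralElem (inc g ^ N * a) := by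
  classical
  obtain ⟨s, hs⟩ := hA
  have hle : ∀ a ∈ A, a ∈ Algebra.adjoin K (s : Set M) := fun a ha => by
    have : A ≤ (Algebra.adjoin K (s : Set M)).restrictScalars ℂ :=
      hs ▸ Algebra.adjoin_le Algebra.subset_adjoin
    exact this ha
  have hden : ∀ w ∈ Algebra.adjoin K (s : Set M), ∃ c : B, c ≠ 0 ∧ (c : K) • w ∈ A := by
    intro w hw
    induction hw using Algebra.adjoin_induction with
    | mem y hy => exact ⟨1, one_ne_zero, by simpa using hs ▸ Algebra.subset_adjoin hy⟩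
    | algebraMap r =>
      obtain ⟨a, b, h0, e⟩ := frac_of B r
      refine ⟨b, h0, ?_⟩
      rw [Algebra.smul_def, ← map_mul, mul_comm, e, ← hinc]
      exact (inc a).2
    | add y z _ _ hy hz =>
      obtain ⟨c, c0, hc⟩ := hy
      obtain ⟨d, d0, hd⟩ := hz
      refine ⟨c * d, mul_ne_zero c0 d0, ?_⟩
      have : ((c * d : B) : K) • (y + z) = inc d * ((c : K) • y) + inc c * ((d : K) • z) := by
        simp only [hinc, Algebra.smul_def, MulMemClass.coe_mul, map_mul]
        ring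
      rw [this]
      exact add_mem (mul_mem (inc d).2 hc) (mul_mem (inc c).2 hd)
    | mul y z _ _ hy hz =>
      obtain ⟨c, c0, hc⟩ := hy
      obtain ⟨d, d0, hd⟩ := hz
      refine ⟨c * d, mul_ne_zero c0 d0, ?_⟩
      have : ((c * d : B) : K) • (y * z) = ((c : K) • y) * ((d : K) • z) := by
        simp only [Algebra.smul_def, MulMemClass.coe_mul, map_mul]
        ring
      rw [this]
      exact mul_mem hc hd
  obtain ⟨n, x0, hx0, hi0, hz0⟩ := noe (Algebra.adjoin K (s : Set M)) ⟨s, rfl⟩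
  choose c c0 hc using fun i => hden _ (hx0 i)
  obtain ⟨hi, hz⟩ := noe_scale (fun i => (c i : K)) (fun i h => c0 i (Subtype.ext h)) hi0
  let x : Fin n → A := fun i => ⟨_, hc i⟩
  let f : MvPolynomial (Fin n) K →ₐ[K] M := aeval fun i => (c i : K) • x0 i
  let f0 : MvPolynomial (Fin n) B →+* A := eval₂Hom (inc : B →+* A) x
  have hf : f.toRingHom.comp (MvPolynomial.map (algebraMap B K)) = A.val.toRingHom.comp f0 :=
    ringHom_ext (fun r => by simp [f, f0, hinc]) fun i => by simp [f, f0, x]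
  have hinj : Function.Injective f0 := by
    have h1 : Function.Injective (A.val.toRingHom.comp f0) := by
      rw [← hf]
      exact hi.comp (MvPolynomial.map_injective _ Subtype.val_injective)
    exact Function.Injective.of_comp (f := A.val.toRingHom) h1
  have hint : ∀ a : A, ∃ β : B, β ≠ 0 ∧ f0.IsIntegralElem (inc β * a) := by
    intro a
    let _ := MvPolynomial.algebraMvPolynomial (σ := Fin n) (R := B) (S := K)
    let _ : Algebra (MvPolynomial (Fin n) K) M := f.toRingHom.toAlgebra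
    let _ : Algebra (MvPolynomial (Fin n) B) M := (A.val.toRingHom.comp f0).toAlgebra
    have : IsScalarTower (MvPolynomial (Fin n) B) (MvPolynomial (Fin n) K) M :=
      IsScalarTower.of_algebraMap_eq' hf.symm
    obtain ⟨⟨_, β, hβ, rfl⟩, p, hp, h0⟩ := IsIntegral.exists_multiple_integral_of_isLocalization
      ((nonZeroDivisors B).map (C (σ := Fin n))) (Rₘ := MvPolynomial (Fin n) K) (a : M)
      (hz _ (hz0 _ (hle _ a.2)))
    refine ⟨β, nonZeroDivisors.ne_zero hβ, p, hp, Subtype.val_injective ?_⟩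
    change A.val.toRingHom _ = 0
    rw [Polynomial.hom_eval₂, ← h0]
    congr 1
    change _ = A.val.toRingHom (f0 (C β)) * (a : M)
    simp [f0]
  choose β β0 hβ using hint
  have hsA : ∀ w : s, (w : M) ∈ A := fun w => hs ▸ Algebra.subset_adjoin w.2
  refine ⟨n, x, ∏ w : s, β ⟨w, hsA w⟩, Finset.prod_ne_zero_iff.2 fun w _ => β0 _,
    basis_of_int hi (R := A) (fun w => ?_) fun a ha => hz _ (hz0 _ (hle _ ha)), hinj, ?_⟩
  · obtain ⟨a, b, h0, e⟩ := frac_of A w
    exact ⟨a, a.2, b, b.2, fun h => h0 (Subtype.ext h), e⟩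
  have hB : ∀ r : B, f0.IsIntegralElem (inc r) := fun r => by
    have := f0.isIntegralElem_map (x := C r)
    simpa [f0] using this
  have cg : ∀ {u v : A}, f0.IsIntegralElem u → u = v → f0.IsIntegralElem v := fun h e => e ▸ h
  generalize hg : ∏ w : s, β ⟨w, hsA w⟩ = g
  rintro ⟨a, ha⟩
  have ha' := ha
  rw [← hs] at ha'
  induction ha' using Algebra.adjoin_induction with
  | mem y hy =>
    refine ⟨1, ?_⟩
    rw [pow_one, ← hg, ← Finset.mul_prod_erase _ _ (Finset.mem_univ (⟨y, hy⟩ : s)), map_mul,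
      mul_right_comm]
    exact (hβ _).mul _ (hB _)
  | algebraMap r =>
    refine ⟨0, ?_⟩
    have := hB (algebraMap ℂ B r)
    rw [AlgHom.commutes] at this
    rw [pow_zero, one_mul]
    exact this
  | add y z hy hz hy' hz' =>
    obtain ⟨a, ha⟩ := hy' (hs ▸ hy)
    obtain ⟨b, hb⟩ := hz' (hs ▸ hz)
    refine ⟨a + b, ?_⟩
    refine cg ((ha.mul _ (hB (g ^ b))).add _ (hb.mul _ (hB (g ^ a)))) ?_
    rw [map_pow, map_pow]
    apply Subtype.ext
    push_cast
    ring
  | mul y z hy hz hy' hz' =>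
    obtain ⟨a, ha⟩ := hy' (hs ▸ hy)
    obtain ⟨b, hb⟩ := hz' (hs ▸ hz)
    refine ⟨a + b, ?_⟩
    refine cg (ha.mul _ hb) ?_
    apply Subtype.ext
    push_cast
    ring

/-- the fibre coordinates stay independent on a component of the fibre -/
theorem ind_of_rad {B A L ι : Type} [CommRing B] [Algebra ℂ B] [CommRing A] [Algebra ℂ A]
    [Field L] [Algebra ℂ L] (inc : B →ₐ[ℂ] A) (x : ι → A) {g : B}
    (hi : Function.Injective (eval₂Hom (inc : B →+* A) x))
    (hz : ∀ a : A, ∃ N : ℕ, (eval₂Hom (inc : B →+* A) x).IsIntegralElem (inc g ^ N * a))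
    (b : B →ₐ[ℂ] ℂ) (hb : b g ≠ 0) (φ : A →ₐ[ℂ] L)
    (h : ∀ a, φ a = 0 → a ∈ ((RingHom.ker b).map inc).radical) :
    AlgebraicIndependent ℂ fun i => φ (x i) := by
  rw [algebraicIndependent_iff]
  intro P hP
  apply MvPolynomial.funext
  intro w
  let _ : Algebra (MvPolynomial ι B) A := (eval₂Hom (inc : B →+* A) x).toAlgebra
  let S := integralClosure (MvPolynomial ι B) A
  let ψ : MvPolynomial ι B →+* ℂ := eval₂Hom (b : B →+* ℂ) w
  have : (RingHom.ker ψ).IsPrime := RingHom.ker_isPrime ψ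
  obtain ⟨Q, -, hQ, hc⟩ := Ideal.exists_ideal_over_prime_of_isIntegral (S := S) (RingHom.ker ψ) ⊥
    (fun q hq => by
      have h1 : algebraMap (MvPolynomial ι B) S q = 0 := hq
      have h2 : q = 0 := hi ((congrArg Subtype.val h1).trans (map_zero _).symm)
      simp [h2])
  have hC : ∀ r : B, (algebraMap (MvPolynomial ι B) S (C r) : A) = inc r := fun r =>
    eval₂Hom_C _ _ _
  have key : ∀ v ∈ (RingHom.ker b).map inc, ∃ (N : ℕ) (q : S), q ∈ Q ∧ (q : A) = inc g ^ N * v := by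
    intro v hv
    induction hv using Submodule.span_induction with
    | mem y hy =>
      obtain ⟨r, hr, rfl⟩ := hy
      refine ⟨0, algebraMap (MvPolynomial ι B) S (C r), ?_, by rw [hC, pow_zero, one_mul]⟩
      rw [← Ideal.mem_comap, hc]
      simpa [ψ] using hr
    | zero => exact ⟨0, 0, zero_mem _, by simp⟩
    | add y z _ _ hy hz =>
      obtain ⟨N, q, hq, e⟩ := hy
      obtain ⟨N', q', hq', e'⟩ := hz
      refine ⟨N + N', algebraMap (MvPolynomial ι B) S (C (g ^ N')) * q + algebraMap (MvPolynomial ι B) S (C (g ^ N)) * q',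
        add_mem (Q.mul_mem_left _ hq) (Q.mul_mem_left _ hq'), ?_⟩
      rw [AddMemClass.coe_add, MulMemClass.coe_mul, MulMemClass.coe_mul, hC, hC, e, e', map_pow,
        map_pow]
      ring
    | smul a y _ hy =>
      obtain ⟨N, q, hq, e⟩ := hy
      obtain ⟨N', ha⟩ := hz a
      refine ⟨N + N', ⟨_, ha⟩ * q, Q.mul_mem_left _ hq, ?_⟩
      rw [MulMemClass.coe_mul, e, smul_eq_mul]
      ring
  obtain ⟨r, hr⟩ := h (aeval x P) (by rw [← hP, ← comp_aeval_apply])
  obtain ⟨N, q, hq, e⟩ := key _ hr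
  have e1 : ∀ P : MvPolynomial ι ℂ, eval₂Hom (inc : B →+* A) x
      (MvPolynomial.map (algebraMap ℂ B) P) = aeval x P := fun P => by
    rw [eval₂Hom_map_hom, aeval_def, coe_eval₂Hom]
    congr 1
    exact RingHom.ext fun c => inc.commutes c
  have e2 : ψ (MvPolynomial.map (algebraMap ℂ B) P) = eval w P := by
    rw [eval₂Hom_map_hom, coe_eval₂Hom, ← eval₂_id]
    congr 1
    exact RingHom.ext fun c => b.commutes c
  have : q = algebraMap (MvPolynomial ι B) S (C (g ^ N) * MvPolynomial.map (algebraMap ℂ B) P ^ r) := by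
    apply Subtype.ext
    rw [e, map_mul, MulMemClass.coe_mul, hC, map_pow inc, ← e1,
      ← map_pow (eval₂Hom (inc : B →+* A) x)]
    rfl
  rw [this, ← Ideal.mem_comap, hc, RingHom.mem_ker, map_mul, map_pow ψ, e2] at hq
  have h3 : ψ (C (g ^ N)) ≠ 0 := by
    simpa [ψ] using fun h => (hb h).elim
  simpa using eq_zero_of_pow_eq_zero ((mul_eq_zero.1 hq).resolve_left h3)

/-- a map to a field extends to a subring of a localisation -/
theorem ext_loc {F L : Type} [Field F] [Algebra ℂ F] [Field L] [Algebra ℂ L]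
    {A A' : Subalgebra ℂ F} {h : A} (h0 : h ≠ 0) (le : A ≤ A') (H : InLoc A' A h)
    (φ : A →ₐ[ℂ] L) (hφ : φ h ≠ 0) :
    ∃ φ' : A' →ₐ[ℂ] L, ∀ a, φ' (Subalgebra.inclusion le a) = φ a := by
  have L0 := isLoc_locAway h0
  let _ : Algebra A (locAway A h) := (L0.j : A →+* locAway A h).toAlgebra
  have : IsScalarTower ℂ A (locAway A h) := IsScalarTower.of_algebraMap_eq fun _ => rfl
  have : IsLocalization.Away h (locAway A h) := IsLocalization.Away.mk h L0.unit
    (fun s => by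
      obtain ⟨k, a, e⟩ := L0.inl s s.2
      exact ⟨k, a, Subtype.ext e⟩)
    fun a b e => ⟨0, by rw [Subalgebra.inclusion_injective L0.le e]⟩
  let ψ : locAway A h →ₐ[ℂ] L := IsLocalization.liftAlgHom (M := Submonoid.powers h) (f := φ)
    (by
      rintro ⟨_, n, rfl⟩
      exact (map_pow φ h n).symm ▸ (IsUnit.mk0 _ hφ).pow n)
  refine ⟨ψ.comp (Subalgebra.inclusion (show A' ≤ locAway A h from H)), fun a => ?_⟩
  exact IsLocalization.lift_eq (M := Submonoid.powers h) (S := locAway A h) _ a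

theorem red (B : Subalgebra ℂ K) (A : Subalgebra ℂ M) (hB : B.FG) (hA : A.FG) [IsFractionRing B K]
    [IsFractionRing A M] (inc : B →ₐ[ℂ] A) (hinc : ∀ a, (inc a : M) = algebraMap K M a) :
    ∃ (k n : ℕ) (X : Cht (Fin k ⊕ Fin n) M) (y : Fin k → K) (g : B), IsTranscendenceBasis ℂ y ∧
      (∀ i, (X.z (Sum.inl i) : M) = algebraMap K M (y i)) ∧ g ≠ 0 ∧
      ∀ b : B →ₐ[ℂ] ℂ, b g ≠ 0 → ∀ (L : Type) [Field L] [Algebra ℂ L] (φ : A →ₐ[ℂ] L),
        (∀ a, φ (inc a) = algebraMap ℂ L (b a)) → (∀ v : L, ∃ a s : A, φ s ≠ 0 ∧ φ a = v * φ s) →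
        (Algebra.trdeg ℂ L = Algebra.trdeg K M ∨
          ∀ a, φ a = 0 → a ∈ ((RingHom.ker b).map inc).radical) →
        ∃ (w0 : Fin k → ℂ) (φ' : X.O →ₐ[ℂ] L), Spc X w0 φ' := by
  obtain ⟨k, y, hyB, hyi, hyz⟩ := noe B hB
  have hy : IsTranscendenceBasis ℂ y := basis_of_int hyi (R := B) (fun w => by
    obtain ⟨a, b, h0, e⟩ := frac_of B w
    exact ⟨a, a.2, b, b.2, fun h => h0 (Subtype.ext h), e⟩) hyz
  obtain ⟨n, x, g0, g00, hx, hi, hz⟩ := gen_noe B A hA inc hinc
  have := (Subalgebra.fg_iff_finiteType A).1 hA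
  obtain ⟨s, hs⟩ := exists_gens_le A
  obtain ⟨X, hX, hsX, -⟩ := exists_base (fg_top_of A hA (frac_of A)) (basis_sum hy hx) s
  have le : A ≤ X.O := hs _ hsX
  obtain ⟨h, h0, H⟩ := exists_inLoc (A' := X.O) (frac_of A)
  obtain ⟨c, c0, hc⟩ : ∃ c : MvPolynomial (Fin n) B, c ≠ 0 ∧
      h ∣ eval₂Hom (inc : B →+* A) x c := by
    let _ : Algebra (MvPolynomial (Fin n) B) A := (eval₂Hom (inc : B →+* A) x).toAlgebra
    obtain ⟨N, hN⟩ := hz h
    have hg : inc g0 ≠ 0 := fun e => g00 (C_eq_zero.1 (hi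
      (((eval₂Hom_C _ x g0).trans e).trans (map_zero _).symm)))
    obtain ⟨c, c0, hc⟩ := (IsIntegral.isAlgebraic (R := MvPolynomial (Fin n) B) hN).exists_nonzero_dvd
      (mem_nonZeroDivisors_of_ne_zero (mul_ne_zero (pow_ne_zero _ hg) h0))
    exact ⟨c, c0, (Dvd.intro_left _ rfl).trans hc⟩
  obtain ⟨m, hm⟩ := ne_zero_iff.1 c0
  refine ⟨k, n, X, y, g0 * coeff m c, hy, fun i => hX _, mul_ne_zero g00 hm,
    fun b hb L _ _ φ h1 h2 h3 => ?_⟩
  rw [map_mul] at hb
  have e0 : (aeval fun i => φ (x i) : MvPolynomial (Fin n) ℂ →ₐ[ℂ] L).toRingHom.comp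
      (MvPolynomial.map (b : B →+* ℂ)) = (φ : A →+* L).comp (eval₂Hom (inc : B →+* A) x) :=
    ringHom_ext (fun r => by simp [h1]) fun i => by simp
  have hint : ∀ a : A,
      (aeval fun i => φ (x i) : MvPolynomial (Fin n) ℂ →ₐ[ℂ] L).toRingHom.IsIntegralElem (φ a) := by
    intro a
    obtain ⟨N, p, hp, e⟩ := hz a
    have i1 : (aeval fun i => φ (x i) : MvPolynomial (Fin n) ℂ →ₐ[ℂ] L).toRingHom.IsIntegralElem
        (φ (inc g0 ^ N * a)) := by
      refine ⟨p.map (MvPolynomial.map (b : B →+* ℂ)), hp.map _, ?_⟩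
      rw [Polynomial.eval₂_map, e0]
      have := congrArg (φ : A →+* L) e
      rwa [Polynomial.hom_eval₂, map_zero] at this
    have i2 := (RingHom.isIntegralElem_map
      (aeval fun i => φ (x i) : MvPolynomial (Fin n) ℂ →ₐ[ℂ] L).toRingHom
      (x := C ((b g0)⁻¹ ^ N))).mul _ i1
    have e3 : (aeval fun i => φ (x i) : MvPolynomial (Fin n) ℂ →ₐ[ℂ] L).toRingHom
        (C ((b g0)⁻¹ ^ N)) * φ (inc g0 ^ N * a) = φ a := by
      change aeval _ (C _) * _ = _
      rw [aeval_C, map_mul, map_pow φ, h1, ← mul_assoc, ← map_pow, ← map_mul, ← mul_pow,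
        inv_mul_cancel₀ (left_ne_zero_of_mul hb), one_pow, map_one, one_mul]
    rwa [e3] at i2
  have halg := alg_of_int (k := ℂ) (fun i => φ (x i)) fun w => by
    obtain ⟨a, s, hs, e⟩ := h2 w
    exact ⟨φ a, φ s, hs, e.symm, hint a, hint s⟩
  have hbas : IsTranscendenceBasis ℂ fun i => φ (x i) := by
    rcases h3 with h3 | h3
    · exact Algebra.IsAlgebraic.isTranscendenceBasis_of_le_trdeg_of_finite ℂ _
        (by rw [h3, hx.cardinalMk_eq_trdeg])
    · exact (ind_of_rad inc x hi hz b (left_ne_zero_of_mul hb) φ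
        h3).isTranscendenceBasis_iff_isAlgebraic.2 halg
  have hφ : φ h ≠ 0 := by
    intro e
    obtain ⟨a, ha⟩ := hc
    have e1 := DFunLike.congr_fun e0 c
    rw [RingHom.comp_apply, RingHom.comp_apply, ha, map_mul] at e1
    have e2 : MvPolynomial.map (b : B →+* ℂ) c = 0 :=
      algebraicIndependent_iff.1 hbas.1 _ (e1.trans (by
        rw [show (φ : A →+* L) h = 0 from e, zero_mul]))
    have e3 := congrArg (coeff m) e2
    rw [coeff_map, coeff_zero] at e3
    exact right_ne_zero_of_mul hb e3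
  obtain ⟨φ', hφ'⟩ := ext_loc h0 le H φ hφ
  refine ⟨fun i => b ⟨y i, hyB i⟩, φ', fun i => ?_, ?_, fun v => ?_⟩
  · rw [← h1, ← hφ']
    congr 1
    exact Subtype.ext ((hX _).trans (hinc ⟨y i, hyB i⟩).symm)
  · have : (fun i => φ' (X.z (Sum.inr i))) = fun i => φ (x i) := funext fun i => by
      rw [← hφ']
      congr 1
      exact Subtype.ext (hX _)
    rwa [this]
  · obtain ⟨a, s, hs, e⟩ := h2 v
    exact ⟨_, _, by rwa [hφ' s], by rw [hφ' a, hφ' s, e]⟩

end Si

end Pool.Agent.Lib.MP_5c318e_ag
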