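import Pool.Agent.Lib.MP_5c318e_ag.Si.Kod
import Pool.Agent.Lib.MP_5c318e_ag.Si.Red

/-! The Kodaira dimension of the general closed fibre is at most that of the generic fibre. -/

set_option autoImplicit false

namespace Pool.Agent.Lib.MP_5c318e_ag

namespace Si

variable {K M : Type} [Field K] [Algebra ℂ K] [Field M] [Algebra ℂ M] [Algebra K M]
  [IsScalarTower ℂ K M]

/-- the general closed fibre -/
theorem kod_fibre_le (B : Subalgebra ℂ K) (A : Subalgebra ℂ M) (hB : B.FG) (hA : A.FG)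
    [IsFractionRing B K] [IsFractionRing A M] (inc : B →ₐ[ℂ] A)
    (hinc : ∀ a, (inc a : M) = algebraMap K M a) : ∃ g : B, g ≠ 0 ∧
      ∀ b : B →ₐ[ℂ] ℂ, b g ≠ 0 → ∀ (L : Type) [Field L] [Algebra ℂ L] (φ : A →ₐ[ℂ] L),
        (∀ a, φ (inc a) = algebraMap ℂ L (b a)) → (∀ v : L, ∃ a s : A, φ s ≠ 0 ∧ φ a = v * φ s) →
        (Algebra.trdeg ℂ L = Algebra.trdeg K M ∨
          ∀ a, φ a = 0 → a ∈ ((RingHom.ker b).map inc).radical) →
        SmoothModel ℂ L → kod ℂ L ≤ kod K M := by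
  obtain ⟨k, n, X, y, g, hy, hz, hg, H⟩ := red B A hB hA inc hinc
  refine ⟨g, hg, fun b hb L _ _ φ h1 h2 h3 hL => ?_⟩
  obtain ⟨w0, φ', h⟩ := H b hb L φ h1 h2 h3
  exact h.kod_le hL hy hz

end Si

end Pool.Agent.Lib.MP_5c318e_ag
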