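import Pool.Agent.Lib.MP_5c318e_ag.Si.IDefs
import Pool.Agent.Lib.MP_5c318e_ag.S.CFub

/-! Integrals over thin tubes are bounded by the integral over the slice. -/

set_option autoImplicit false
set_option linter.unusedSectionVars false

namespace Pool.Agent.Lib.MP_5c318e_ag

open MeasureTheory Set Filter Topology Metric
open scoped ENNReal

namespace Si

variable {ι ν : Type} [Fintype ι] [DecidableEq ι] [Fintype ν] [DecidableEq ν] {S : Type}
  [TopologicalSpace S] [MeasurableSpace S] [BorelSpace S] [T2Space S] [SigmaCompactSpace S]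

/-- a compactly supported majorant downstairs -/
theorem usc_down (D : RD ι S) {G : S → ℝ} {K : Set S} (hG : Continuous G) (G0 : ∀ x, 0 ≤ G x)
    (hK : IsCompact K) : ∃ g : (ι → ℂ) → ℝ, Continuous g ∧ HasCompactSupport g ∧
      (∀ z, ENNReal.ofReal (g z) ≤ ∑' p : D.π ⁻¹' {z}, ENNReal.ofReal (G p)) ∧
      ∀ V : Set (ι → ℂ), MeasurableSet V →
        ∫⁻ x in K ∩ D.π ⁻¹' V, ENNReal.ofReal (G x) ∂D.μ ≤ ∫⁻ z in V, ENNReal.ofReal (g z) := by
  obtain ⟨T, c, L, c1, c2, L1, L2, L3, s1, s2⟩ := RD.exists_pou (D := D) hK (fun _ => univ)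
    fun _ => univ_mem
  have z0 : ∀ x y, y ∉ L x → c x y * G y = 0 := fun x y hy => by rw [L3 x y hy, zero_mul]
  have src : ∀ x, L x ⊆ (D.ch x).source := fun x y hy => (L2 x hy).2
  have ct : ∀ x, Continuous (D.down x fun y => c x y * G y) := fun x =>
    RD.down_cont ((c1 x).cont.mul hG) (L1 x) (src x) (z0 x)
  have n0 : ∀ x y, 0 ≤ c x y * G y := fun x y => mul_nonneg (c2 x y).1 (G0 y)
  have d0 : ∀ x z, 0 ≤ D.down x (fun y => c x y * G y) z := fun x z =>
    indicator_nonneg (fun _ _ => n0 x _) z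
  refine ⟨fun z => ∑ x ∈ T, D.down x (fun y => c x y * G y) z,
    continuous_finsetSum _ fun x _ => ct x, ?_, fun z => ?_, fun V hV => ?_⟩
  · refine HasCompactSupport.intro (T.isCompact_biUnion fun x _ => (L1 x).image D.cont_π)
      fun z hz => Finset.sum_eq_zero fun x hx => RD.down_zero (z0 x) fun h => ?_
    exact hz (mem_biUnion hx h)
  · rw [ENNReal.ofReal_sum_of_nonneg fun x _ => d0 x z]
    calc ∑ x ∈ T, ENNReal.ofReal (D.down x (fun y => c x y * G y) z)
        ≤ ∑ x ∈ T, ∑' p : D.π ⁻¹' {z}, ENNReal.ofReal (c x p * G p) := by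
          refine Finset.sum_le_sum fun x _ => ?_
          by_cases h : z ∈ (D.ch x).target
          · rw [RD.down_of _ h]
            exact ENNReal.le_tsum (f := fun p : D.π ⁻¹' {z} => ENNReal.ofReal (c x p * G p))
              ⟨D.sec x z, RD.π_sec h⟩
          · rw [show D.down x (fun y => c x y * G y) z = 0 from indicator_of_notMem h _]
            simp
      _ = ∑' p : D.π ⁻¹' {z}, ∑ x ∈ T, ENNReal.ofReal (c x p * G p) :=
          (Summable.tsum_finsetSum fun _ _ => ENNReal.summable).symm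
      _ ≤ _ := by
          refine ENNReal.tsum_le_tsum fun p => ?_
          rw [← ENNReal.ofReal_sum_of_nonneg fun x _ => n0 x p, ← Finset.sum_mul]
          exact ENNReal.ofReal_le_ofReal (mul_le_of_le_one_left (G0 p) (s1 p))
  · have mV : MeasurableSet (D.π ⁻¹' V) := D.cont_π.measurable hV
    calc ∫⁻ y in K ∩ D.π ⁻¹' V, ENNReal.ofReal (G y) ∂D.μ
        = ∫⁻ y in K ∩ D.π ⁻¹' V, ∑ x ∈ T, ENNReal.ofReal (c x y * G y) ∂D.μ := by
          refine setLIntegral_congr_fun (hK.measurableSet.inter mV) fun y hy => ?_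
          rw [← ENNReal.ofReal_sum_of_nonneg fun x _ => n0 x y, ← Finset.sum_mul,
            (s2 y hy.1).self_of_nhds, one_mul]
      _ = ∑ x ∈ T, ∫⁻ y in K ∩ D.π ⁻¹' V, ENNReal.ofReal (c x y * G y) ∂D.μ :=
          lintegral_finsetSum _ fun x _ => ((c1 x).cont.mul hG).measurable.ennreal_ofReal
      _ ≤ ∑ x ∈ T, ∫⁻ z in V, ENNReal.ofReal (D.down x (fun y => c x y * G y) z) := by
          refine Finset.sum_le_sum fun x _ => ?_
          have mA : MeasurableSet (L x ∩ D.π ⁻¹' V) := (L1 x).measurableSet.inter mV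
          calc ∫⁻ y in K ∩ D.π ⁻¹' V, ENNReal.ofReal (c x y * G y) ∂D.μ
              ≤ ∫⁻ y in L x ∩ D.π ⁻¹' V, ENNReal.ofReal (c x y * G y) ∂D.μ := by
                refine (lintegral_mono_set inter_subset_right).trans ?_
                rw [← Measure.restrict_restrict (L1 x).measurableSet]
                refine (setLIntegral_eq_of_support_subset fun y hy => ?_).ge
                by_contra h
                exact hy (by simp [z0 x y h])
            _ = ∫⁻ z in D.π '' (L x ∩ D.π ⁻¹' V),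
                ENNReal.ofReal (D.down x (fun y => c x y * G y) z) := by
                rw [RArea.lint_sec D x mA (inter_subset_left.trans (src x))]
                refine setLIntegral_congr_fun (RArea.img_meas D mA) ?_
                rintro _ ⟨y, hy, rfl⟩
                simp only [RD.down_of _ (RD.π_mem (src x hy.1))]
            _ ≤ _ := lintegral_mono_set (by rintro _ ⟨y, hy, rfl⟩; exact hy.2)
      _ = _ := by
          rw [← lintegral_finsetSum _ fun x _ => (ct x).measurable.ennreal_ofReal]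
          exact lintegral_congr fun z => (ENNReal.ofReal_sum_of_nonneg fun x _ => d0 x z).symm

/-- the slice integrals of a continuous function with compact support -/
theorem usc_cont {δ : Type} [Fintype δ] {g : (δ ⊕ ν → ℂ) → ℝ} (hg : Continuous g)
    (hc : HasCompactSupport g) (w0 : δ → ℂ) {η : ℝ≥0∞} (hη : η ≠ 0) : ∀ᶠ y in 𝓝 w0,
      ∫⁻ a : ν → ℂ, ENNReal.ofReal (g (Sum.elim y a)) ≤
        (∫⁻ a : ν → ℂ, ENNReal.ofReal (g (Sum.elim w0 a))) + η := by
  obtain ⟨B, hB⟩ := hg.bounded_above_of_compact_support hc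
  obtain ⟨R, hR⟩ := hc.isCompact.isBounded.subset_closedBall 0
  have ce : Continuous fun x : (δ → ℂ) × (ν → ℂ) => (Sum.elim x.1 x.2 : δ ⊕ ν → ℂ) :=
    continuous_pi fun i => by
      rcases i with i | i <;> simp only [Sum.elim_inl, Sum.elim_inr] <;> fun_prop
  have bd : ∀ (y : δ → ℂ) (a : ν → ℂ), ENNReal.ofReal (g (Sum.elim y a)) ≤
      indicator (closedBall (0 : ν → ℂ) |R|) (fun _ => ENNReal.ofReal B) a := fun y a => by
    by_cases h : a ∈ closedBall (0 : ν → ℂ) |R|
    · rw [indicator_of_mem h]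
      exact ENNReal.ofReal_le_ofReal ((le_abs_self _).trans (hB _))
    · rw [image_eq_zero_of_notMem_tsupport (f := g) (x := Sum.elim y a) fun h1 => h ?_,
        ENNReal.ofReal_zero]
      · exact bot_le
      · rw [mem_closedBall_zero_iff, pi_norm_le_iff_of_nonneg (abs_nonneg R)]
        exact fun i => (norm_le_pi_norm (Sum.elim y a : δ ⊕ ν → ℂ) (Sum.inr i)).trans
          ((mem_closedBall_zero_iff.1 (hR h1)).trans (le_abs_self R))
  have fin : ∫⁻ a, indicator (closedBall (0 : ν → ℂ) |R|) (fun _ => ENNReal.ofReal B) a ≠ ⊤ := by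
    rw [lintegral_indicator_const measurableSet_closedBall]
    exact ENNReal.mul_ne_top ENNReal.ofReal_ne_top measure_closedBall_lt_top.ne
  have tt := tendsto_lintegral_filter_of_dominated_convergence (μ := volume) (l := 𝓝 w0)
    (F := fun y (a : ν → ℂ) => ENNReal.ofReal (g (Sum.elim y a)))
    (f := fun a => ENNReal.ofReal (g (Sum.elim w0 a))) _
    (.of_forall fun y => (hg.comp (ce.comp (Continuous.prodMk_right y))).measurable.ennreal_ofReal)
    (.of_forall fun y => .of_forall (bd y)) fin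
    (.of_forall fun a => ((ENNReal.continuous_ofReal.comp
      (hg.comp (ce.comp (Continuous.prodMk_left a)))).tendsto w0))
  exact (tt.eventually (gt_mem_nhds (ENNReal.lt_add_right
    (ne_top_of_le_ne_top fin (lintegral_mono (bd w0))) hη))).mono fun _ h => h.le

/-- thin tubes -/
theorem usc (δ : Type) [Fintype δ] [DecidableEq δ] : ∃ c : ℝ≥0∞, c ≠ ⊤ ∧
    ∀ (D : RD (δ ⊕ ν) S) (w0 : δ → ℂ) (G : S → ℝ) (K : Set S) (η : ℝ≥0∞), Continuous G →
      (∀ x, 0 ≤ G x) → IsCompact K → η ≠ 0 → ∀ᶠ e : ℝ in 𝓝[>] 0,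
        ∫⁻ x in K ∩ {x | qd D w0 x < e}, ENNReal.ofReal (G x) ∂D.μ ≤
          ENNReal.ofReal (e ^ Fintype.card δ) *
            (c * (sl D w0 (fun x => ENNReal.ofReal (G x)) + η)) := by
  refine ⟨volume (ball (0 : δ → ℂ) 1), measure_ball_lt_top.ne, fun D w0 G K η hG G0 hK hη => ?_⟩
  obtain ⟨g, g1, g2, g3, g4⟩ := usc_down D hG G0 hK
  obtain ⟨r, r0, hr⟩ := Metric.eventually_nhds_iff_ball.1 (usc_cont g1 g2 w0 hη)
  filter_upwards [Ioo_mem_nhdsGT (show (0 : ℝ) < r ^ 2 by positivity)] with e he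
  have e0 : 0 < √e := Real.sqrt_pos.2 he.1
  let V : Set (δ ⊕ ν → ℂ) := (fun z i => z (Sum.inl i)) ⁻¹' ball w0 √e
  have mV : MeasurableSet V := (isOpen_ball.preimage (by fun_prop)).measurableSet
  have sub : K ∩ {x | qd D w0 x < e} ⊆ K ∩ D.π ⁻¹' V := fun x hx => ⟨hx.1, by
    refine mem_ball_iff_norm.2 ((pi_norm_lt_iff e0).2 fun i => Real.lt_sqrt_of_sq_lt ?_)
    exact (Finset.single_le_sum (f := fun k => ‖D.π x (Sum.inl k) - w0 k‖ ^ 2)
      (fun _ _ => by positivity) (Finset.mem_univ i)).trans_lt hx.2⟩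
  refine (lintegral_mono_set sub).trans ((g4 V mV).trans ?_)
  rw [← lintegral_indicator mV, (CFub.tonelli (g1.measurable.ennreal_ofReal.indicator mV)).2]
  calc ∫⁻ y : δ → ℂ, ∫⁻ a : ν → ℂ, V.indicator (fun z => ENNReal.ofReal (g z)) (Sum.elim y a)
      ≤ ∫⁻ y : δ → ℂ, indicator (ball w0 √e)
        (fun _ => sl D w0 (fun x => ENNReal.ofReal (G x)) + η) y := by
        refine lintegral_mono fun y => ?_
        by_cases h : y ∈ ball w0 √e
        · rw [indicator_of_mem h]
          refine (lintegral_mono fun a => indicator_le_self _ _ _).trans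
            ((hr y (ball_subset_ball (Real.sqrt_le_iff.2 ⟨r0.le, he.2.le⟩) h)).trans ?_)
          exact add_le_add_left (lintegral_mono fun a => g3 _) _
        · rw [lintegral_congr fun a => indicator_of_notMem (show Sum.elim y a ∉ V from h) _,
            lintegral_zero]
          exact bot_le
    _ = _ := by
        have fr : Module.finrank ℝ (δ → ℂ) = 2 * Fintype.card δ := by
          rw [Module.finrank_pi_fintype]
          simp [mul_comm]
        rw [lintegral_indicator_const measurableSet_ball, Measure.addHaar_ball_of_pos _ _ e0, fr,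
          pow_mul, Real.sq_sqrt he.1.le]
        ring

end Si

end Pool.Agent.Lib.MP_5c318e_ag
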