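import Pool.Agent.Lib.MP_5c318e_ag.Si.Tube
import Pool.Agent.Lib.MP_5c318e_ag.Si.Usc
import Pool.Agent.Lib.MP_5c318e_ag.Si.Mon
import Pool.Agent.Lib.MP_5c318e_ag.Si.Grow
import Pool.Agent.Lib.MP_5c318e_ag.W.HL

/-! The extension theorem of Ohsawa and Takegoshi on a Riemann domain. -/

set_option autoImplicit false
set_option linter.unusedSectionVars false

namespace Pool.Agent.Lib.MP_5c318e_ag

open MeasureTheory Set Filter Topology
open scoped ENNReal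

namespace Si

variable {δ ν : Type} [Fintype δ] [DecidableEq δ] [Fintype ν] [DecidableEq ν] {S : Type}
  [TopologicalSpace S] [MeasurableSpace S] [BorelSpace S] [T2Space S] [SigmaCompactSpace S]

theorem ot_cont (D : RD (δ ⊕ ν) S) (w0 : δ → ℂ) : Continuous (qd D w0) :=
  continuous_finsetSum _ fun _ _ =>
    (((continuous_apply _).comp D.cont_π).sub continuous_const).norm.pow 2

theorem ot_exp (a t : ℝ) (ha : 0 ≤ a) :
    ENNReal.ofReal a * (ENNReal.ofReal (Real.exp t))⁻¹ = ENNReal.ofReal (a * Real.exp (-t)) := by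
  rw [ENNReal.ofReal_mul ha, Real.exp_neg, ENNReal.ofReal_inv_of_pos (Real.exp_pos t)]

/-- one smooth weight -/
theorem ot_one (D : RD (δ ⊕ ν) S) {s : S → ℝ} (hs : D.Exh s) (w0 : δ → ℂ) :
    ∃ C c : ℝ≥0∞, C ≠ ⊤ ∧ c ≠ ⊤ ∧ ∀ (φ : S → ℝ) (f0 : S → ℂ) (t : ℝ) (η : ℝ≥0∞), D.Psh φ →
      D.Hol f0 → η ≠ 0 → ∃ (F : S → ℂ) (X : S → ℝ), D.Hol F ∧ D.Psh X ∧
        (∀ x, s x ≤ t → X x = 0) ∧ (∀ x, qd D w0 x = 0 → F x = f0 x) ∧
        ∫⁻ x, ENNReal.ofReal (‖F x‖ ^ 2) * (ENNReal.ofReal (Real.exp (φ x + X x) *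
          (qd D w0 x + 1) ^ (Fintype.card δ + 2)))⁻¹ ∂D.μ ≤
        C * (c * (sl D w0 (fun x => ENNReal.ofReal (‖f0 x‖ ^ 2 * Real.exp (-φ x))) + η) + η) +
          η := by
  obtain ⟨C, hC, Ht⟩ := tube (δ := δ) (ν := ν) (S := S) (Fintype.card δ)
  obtain ⟨c, hc, Hu⟩ := usc (ν := ν) (S := S) δ
  refine ⟨C, c, hC, hc, fun φ f0 t η hφ hf hη => ?_⟩
  have cG : Continuous fun x => ‖f0 x‖ ^ 2 * Real.exp (-φ x) :=
    (hf.cont.norm.pow 2).mul (Real.continuous_exp.comp hφ.1.cont.neg)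
  obtain ⟨e, ⟨h1, e0⟩, e1⟩ := (((Hu D w0 _ {x | s x ≤ t + 2} η cG (fun x => by positivity)
    (hs.2 _) hη).and self_mem_nhdsWithin).and
    (mem_nhdsWithin_of_mem_nhds (Iic_mem_nhds (by norm_num : (0 : ℝ) < 1 / 64)))).exists
  have e0 : 0 < e := e0
  have ew : 0 < e ^ Fintype.card δ := pow_pos e0 _
  obtain ⟨X, X1, X2, X3, X4⟩ := grow hs cG t
    (η := ENNReal.ofReal (e ^ Fintype.card δ) * η)
    (mul_ne_zero (ENNReal.ofReal_pos.2 ew).ne' hη)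
  obtain ⟨F, F1, F2, F3⟩ := Ht D w0 (fun x => Real.exp (φ x + X x)) f0 e η rfl (D.hl hs)
    (RD.lp_exp (RD.WP.psh_add hφ X1)) hf e0 e1 hη
  refine ⟨F, X, F1, X1, X3, F2, F3.trans (add_le_add_left ?_ η)⟩
  rw [mul_assoc]
  refine mul_le_mul_right ?_ C
  have key : ∫⁻ x in {x | qd D w0 x < e}, ENNReal.ofReal (‖f0 x‖ ^ 2) *
      (ENNReal.ofReal (Real.exp (φ x + X x)))⁻¹ ∂D.μ ≤ ENNReal.ofReal (e ^ Fintype.card δ) *
      (c * (sl D w0 (fun x => ENNReal.ofReal (‖f0 x‖ ^ 2 * Real.exp (-φ x))) + η) + η) := by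
    have cv : {x | qd D w0 x < e} ⊆ ({x | s x ≤ t + 2} ∩ {x | qd D w0 x < e}) ∪
        {x | t + 2 ≤ s x} := fun x hx => (le_total (s x) (t + 2)).imp (fun h => ⟨h, hx⟩) id
    refine (lintegral_mono_set cv).trans ((lintegral_union_le _ _ _).trans ?_)
    rw [mul_add]
    refine add_le_add (le_trans (lintegral_mono fun x => ?_) h1)
      (le_trans (lintegral_mono fun x => ?_) X4)
    · rw [ot_exp _ _ (by positivity)]
      exact ENNReal.ofReal_le_ofReal (mul_le_mul_of_nonneg_left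
        (Real.exp_le_exp.2 (by linarith [X2 x])) (by positivity))
    · rw [ot_exp _ _ (by positivity), neg_add, Real.exp_add, mul_assoc]
  refine (mul_le_mul_right key _).trans_eq ?_
  rw [← mul_assoc, ← ENNReal.ofReal_mul (by positivity), inv_mul_cancel₀ ew.ne',
    ENNReal.ofReal_one, one_mul]

/-- Fatou along a sequence of weights -/
theorem ot_fatou {μ : Measure S} {F : ℕ → S → ℂ} {G : S → ℂ} {w : ℕ → S → ℝ≥0∞} {v : S → ℝ≥0∞}
    (hF : ∀ n, Continuous (F n)) (hw : ∀ n, Measurable (w n))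
    (h1 : ∀ x, Tendsto (fun n => F n x) atTop (𝓝 (G x)))
    (h2 : ∀ x, Tendsto (fun n => w n x) atTop (𝓝 (v x))) {B : ℕ → ℝ≥0∞} {b : ℝ≥0∞}
    (hB : ∀ n, ∫⁻ x, ENNReal.ofReal (‖F n x‖ ^ 2) * w n x ∂μ ≤ B n) (hb : Tendsto B atTop (𝓝 b)) :
    ∫⁻ x, ENNReal.ofReal (‖G x‖ ^ 2) * v x ∂μ ≤ b := by
  have m : ∀ n, Measurable fun x => ENNReal.ofReal (‖F n x‖ ^ 2) * w n x := fun n =>
    ((hF n).norm.pow 2).measurable.ennreal_ofReal.mul (hw n)
  refine le_trans (lintegral_mono fun x => ?_) ((lintegral_liminf_le m).trans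
    ((liminf_le_liminf (.of_forall hB)).trans hb.liminf_eq.le))
  by_cases g0 : G x = 0
  · simp [g0]
  · exact le_of_eq (Tendsto.liminf_eq (ENNReal.Tendsto.mul
      (ENNReal.tendsto_ofReal ((h1 x).norm.pow 2))
      (Or.inl (ENNReal.ofReal_pos.2 (by positivity)).ne') (h2 x)
      (Or.inr ENNReal.ofReal_ne_top))).symm

theorem ot (D : RD (δ ⊕ ν) S) {s : S → ℝ} (hs : D.Exh s) (w0 : δ → ℂ) : ∃ C : ℝ≥0∞, C ≠ ⊤ ∧
    ∀ (om : S → ℝ) (f0 : S → ℂ), D.LP om → D.Hol f0 →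
      ∃ F : S → ℂ, D.Hol F ∧ (∀ x, qd D w0 x = 0 → F x = f0 x) ∧
        ∫⁻ x, ENNReal.ofReal (‖F x‖ ^ 2) *
          (ENNReal.ofReal (om x * (qd D w0 x + 1) ^ (Fintype.card δ + 2)))⁻¹ ∂D.μ ≤
        C * sl D w0 fun x => ENNReal.ofReal (‖f0 x‖ ^ 2) * (ENNReal.ofReal (om x))⁻¹ := by
  obtain ⟨C, c, hC, hc, H⟩ := ot_one D hs w0
  refine ⟨C * c + 1, ENNReal.add_ne_top.2 ⟨ENNReal.mul_ne_top hC hc, ENNReal.one_ne_top⟩,
    fun om f0 ⟨φ, p1, p2, p3, p4⟩ hf => ?_⟩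
  have sA : ∀ j, sl D w0 (fun x => ENNReal.ofReal (‖f0 x‖ ^ 2 * Real.exp (-φ j x))) ≤
      sl D w0 fun x => ENNReal.ofReal (‖f0 x‖ ^ 2) * (ENNReal.ofReal (om x))⁻¹ :=
    fun j => lintegral_mono fun a => ENNReal.tsum_le_tsum fun p => by
      beta_reduce
      rw [← ot_exp _ _ (by positivity)]
      exact mul_le_mul_right (ENNReal.inv_le_inv.2 (ENNReal.ofReal_le_ofReal (p3 j _))) _
  generalize (sl D w0 fun x => ENNReal.ofReal (‖f0 x‖ ^ 2) * (ENNReal.ofReal (om x))⁻¹) = A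
    at sA ⊢
  by_cases A0 : A = ⊤
  · exact ⟨f0, hf, fun _ _ => rfl, by rw [A0, ENNReal.mul_top (by simp)]; exact le_top⟩
  obtain ⟨η, η0, η1, η2⟩ : ∃ η : ℕ → ℝ≥0∞, Tendsto η atTop (𝓝 0) ∧ (∀ j, η j ≤ 1) ∧ ∀ j, η j ≠ 0 :=
    ⟨fun j => ((j + 1 : ℕ) : ℝ≥0∞)⁻¹,
      ENNReal.tendsto_inv_nat_nhds_zero.comp (tendsto_add_atTop_nat 1),
      fun j => ENNReal.inv_le_one.2 (by exact_mod_cast Nat.le_add_left 1 j),
      fun j => ENNReal.inv_ne_zero.2 (ENNReal.natCast_ne_top _)⟩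
  choose F X F1 X1 X3 F2 F3 using fun j : ℕ => H (φ j) f0 j (η j) (p1 j) hf (η2 j)
  have cq : Continuous fun x => (qd D w0 x + 1) ^ (Fintype.card δ + 2) :=
    ((ot_cont D w0).add continuous_const).pow _
  have q0 : ∀ x, 0 ≤ (qd D w0 x + 1) ^ (Fintype.card δ + 2) := fun x =>
    pow_nonneg (add_nonneg (qd_nonneg D w0 x) zero_le_one) _
  obtain ⟨Q, hQ⟩ : ∃ Q : S → ℝ, ∀ x, (qd D w0 x + 1) ^ (Fintype.card δ + 2) = Q x :=
    ⟨_, fun _ => rfl⟩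
  simp only [hQ] at F3 cq q0 ⊢
  have mw : ∀ j, Measurable fun x => (ENNReal.ofReal (Real.exp (φ j x + X j x) * Q x))⁻¹ :=
    fun j => ((Real.continuous_exp.comp ((p1 j).1.cont.add (X1 j).1.cont)).mul
      cq).measurable.ennreal_ofReal.inv
  have B : ∀ j, ∫⁻ x, ENNReal.ofReal (‖F j x‖ ^ 2) *
      (ENNReal.ofReal (Real.exp (φ j x + X j x) * Q x))⁻¹ ∂D.μ ≤
      C * (c * (A + η j) + η j) + η j := fun j => (F3 j).trans (by gcongr; exact sA j)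
  have lo : ∀ x, ∃ c : ℝ≥0∞, c ≠ 0 ∧ ∃ V ∈ 𝓝 x, ∀ᶠ n in atTop, ∀ y ∈ V,
      c ≤ (ENNReal.ofReal (Real.exp (φ n y + X n y) * Q y))⁻¹ := fun x => by
    have c0 : Continuous fun y => Real.exp (φ 0 y) * Q y :=
      (Real.continuous_exp.comp (p1 0).1.cont).mul cq
    refine ⟨(ENNReal.ofReal (Real.exp (φ 0 x) * Q x + 1))⁻¹,
      ENNReal.inv_ne_zero.2 ENNReal.ofReal_ne_top,
      {y | Real.exp (φ 0 y) * Q y < Real.exp (φ 0 x) * Q x + 1 ∧ s y < s x + 1},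
      (c0.continuousAt.eventually (gt_mem_nhds (lt_add_one _))).and
        (hs.1.1.cont.continuousAt.eventually (gt_mem_nhds (lt_add_one (s x)))), ?_⟩
    filter_upwards [tendsto_natCast_atTop_atTop.eventually (eventually_ge_atTop (s x + 1))]
      with n hn y hy
    refine ENNReal.inv_le_inv.2 (ENNReal.ofReal_le_ofReal (le_trans ?_ hy.1.le))
    rw [X3 n y (hy.2.le.trans hn), add_zero]
    exact mul_le_mul_of_nonneg_right (Real.exp_le_exp.2 (p2 n y)) (q0 y)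
  have ne : C * (c * (A + 1) + 1) + 1 ≠ ⊤ := by finiteness
  obtain ⟨G, κ, hκ, G1, G2⟩ := montel D F1 mw lo ne
    fun n => (B n).trans (by gcongr <;> exact η1 n)
  have tκ := hκ.tendsto_atTop
  refine ⟨G, G1, fun x hx => tendsto_nhds_unique (G2 x) ?_, ?_⟩
  · simp only [F2 _ x hx]
    exact tendsto_const_nhds
  have lim : Tendsto (fun n => C * (c * (A + η (κ n)) + η (κ n)) + η (κ n)) atTop
      (𝓝 (C * (c * (A + 0) + 0) + 0)) :=
    (ENNReal.Tendsto.const_mul ((ENNReal.Tendsto.const_mul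
      (tendsto_const_nhds.add (η0.comp tκ)) (Or.inr hc)).add (η0.comp tκ)) (Or.inr hC)).add
      (η0.comp tκ)
  have lw : ∀ x, Tendsto (fun n => (ENNReal.ofReal (Real.exp (φ (κ n) x + X (κ n) x) * Q x))⁻¹)
      atTop (𝓝 (ENNReal.ofReal (om x * Q x))⁻¹) := fun x => by
    have e : (fun n => Real.exp (φ (κ n) x)) =ᶠ[atTop]
        fun n => Real.exp (φ (κ n) x + X (κ n) x) := by
      filter_upwards [(tendsto_natCast_atTop_atTop.comp tκ).eventually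
        (eventually_ge_atTop (s x))] with n hn
      rw [X3 _ x hn, add_zero]
    exact tendsto_inv_iff.2 (ENNReal.tendsto_ofReal
      (Tendsto.mul_const _ (Tendsto.congr' e ((p4 x).comp tκ))))
  refine (ot_fatou (fun n => (F1 _).cont) (fun n => mw _) G2 lw (fun n => B _) lim).trans ?_
  rw [add_zero, add_zero, add_zero, ← mul_assoc]
  exact mul_le_mul_left le_self_add A

end Si

end Pool.Agent.Lib.MP_5c318e_ag
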